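import Mathlib

/-!
Quartic residue symbols of odd Gaussian primes (after the starting files `Y699/Qs`, `Y699/Sym`).
-/

set_option autoImplicit false

namespace Pool.Agent.R441.Q4

abbrev ZI : Type := GaussianInt

/-- the residue ring -/
abbrev RQ (q : ZI) : Type := ZI ⧸ (Ideal.span {q} : Ideal ZI)

/-- the imaginary unit -/
def im1 : ZI := ⟨0, 1⟩

/-- the norm as a natural number -/
def nrm (a : ZI) : ℕ := a.norm.natAbs

lemma im1_sq : im1 ^ 2 = (-1 : ZI) := by decide
lemma im1_four : im1 ^ 4 = (1 : ZI) := by decide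
lemma im1_norm : im1.norm = 1 := by decide

lemma norm_def' (z : ZI) : z.norm = z.re ^ 2 + z.im ^ 2 := by
  rw [Zsqrtd.norm_def]; ring

lemma nrm_cast (a : ZI) : ((nrm a : ℕ) : ℤ) = a.norm := GaussianInt.abs_natCast_norm a

lemma nrm_mul (a b : ZI) : nrm (a * b) = nrm a * nrm b := by
  unfold nrm; rw [Zsqrtd.norm_mul, Int.natAbs_mul]

lemma unit_cases {u : ZI} (h : u.norm = 1) : u = 1 ∨ u = im1 ∨ u = -1 ∨ u = -im1 := by
  rw [norm_def'] at h
  have h1 : u.re ^ 2 ≤ 1 := by nlinarith [sq_nonneg u.im]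
  have h2 : u.im ^ 2 ≤ 1 := by nlinarith [sq_nonneg u.re]
  have h3 : u.re ≤ 1 := by nlinarith
  have h4 : -1 ≤ u.re := by nlinarith
  have h5 : u.im ≤ 1 := by nlinarith
  have h6 : -1 ≤ u.im := by nlinarith
  obtain ⟨a, b⟩ := u
  simp only at h h3 h4 h5 h6
  interval_cases a <;> interval_cases b <;> simp_all [im1, Zsqrtd.ext_iff]

lemma isUnit_iff_norm {u : ZI} : IsUnit u ↔ u.norm = 1 := by
  rw [← Zsqrtd.norm_eq_one_iff]
  have := GaussianInt.norm_nonneg u
  omega

/-! ### the size of residue rings -/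

/-- coordinates -/
def eqv : ZI ≃ₗ[ℤ] (Fin 2 → ℤ) where
  toFun a := ![a.re, a.im]
  invFun v := ⟨v 0, v 1⟩
  map_add' a b := by
    ext i
    fin_cases i <;> simp
  map_smul' n a := by
    ext i
    fin_cases i <;> simp
  left_inv a := by
    ext <;> simp
  right_inv v := by
    ext i
    fin_cases i <;> simp

noncomputable def bas : Module.Basis (Fin 2) ℤ ZI := Module.Basis.ofEquivFun eqv

instance instFreeZI : Module.Free ℤ ZI := Module.Free.of_basis bas

instance instFiniteZI : Module.Finite ℤ ZI := Module.Finite.of_basis bas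

theorem algNorm (q : ZI) : Algebra.norm ℤ q = q.norm := by
  rw [Algebra.norm_eq_matrix_det bas, Matrix.det_fin_two]
  have h : ∀ i j, Algebra.leftMulMatrix bas q i j = eqv (q * bas j) i := by
    intro i j
    rw [Algebra.leftMulMatrix_eq_repr_mul]
    rfl
  have hb0 : bas 0 = (⟨1, 0⟩ : ZI) := by
    apply eqv.injective
    rw [bas, Module.Basis.coe_ofEquivFun]
    ext i
    fin_cases i <;> simp [eqv]
  have hb1 : bas 1 = (⟨0, 1⟩ : ZI) := by
    apply eqv.injective
    rw [bas, Module.Basis.coe_ofEquivFun]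
    ext i
    fin_cases i <;> simp [eqv]
  rw [h, h, h, h, hb0, hb1]
  simp only [eqv, LinearEquiv.coe_mk, Zsqrtd.norm]
  simp

theorem card_RQ (q : ZI) : Nat.card (RQ q) = nrm q := by
  have h := Ideal.absNorm_span_singleton q
  rw [algNorm] at h
  unfold nrm
  rw [← h]
  rfl

/-! ### odd primes -/

/-- odd primes -/
structure OP (π : ZI) : Prop where
  pr : Prime π
  odd : π.norm % 2 = 1

variable {π : ZI}

lemma OP.ne (h : OP π) : π ≠ 0 := h.pr.ne_zero

lemma norm_mod_of_odd {z : ZI} (h : z.norm % 2 = 1) : z.norm % 4 = 1 := by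
  rw [norm_def'] at h ⊢
  have h1 : z.re ^ 2 % 4 = (z.re % 2) := by
    obtain ⟨k, hk | hk⟩ := Int.even_or_odd' z.re <;> rw [hk] <;> ring_nf <;> omega
  have h2 : z.im ^ 2 % 4 = (z.im % 2) := by
    obtain ⟨k, hk | hk⟩ := Int.even_or_odd' z.im <;> rw [hk] <;> ring_nf <;> omega
  omega

lemma OP.norm_mod (h : OP π) : π.norm % 4 = 1 := norm_mod_of_odd h.odd

lemma OP.norm_pos (h : OP π) : 0 < π.norm := by
  have h1 := h.odd
  have h2 := GaussianInt.norm_nonneg π
  omega

lemma OP.nrm_mod (h : OP π) : nrm π % 4 = 1 := by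
  have h1 := h.norm_mod
  have h2 := nrm_cast π
  omega

lemma OP.five_le (h : OP π) : 5 ≤ π.norm := by
  have h1 := h.norm_mod
  have h2 := h.norm_pos
  by_contra hc
  have h3 : π.norm = 1 := by omega
  exact h.pr.not_isUnit (isUnit_iff_norm.2 h3)

/-- an element of small norm divisible by an odd prime is zero -/
lemma OP.small (h : OP π) {x : ZI} (hx : π ∣ x) (hn : x.norm < 5) : x = 0 := by
  obtain ⟨c, rfl⟩ := hx
  by_contra h0
  have hc : c ≠ 0 := by
    rintro rfl
    exact h0 (mul_zero _)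
  have h1 : 0 < c.norm := by
    have h2 := GaussianInt.norm_nonneg c
    have h3 : c.norm ≠ 0 := by
      rwa [Ne, Zsqrtd.norm_eq_zero_iff (by norm_num)]
    omega
  rw [Zsqrtd.norm_mul] at hn
  have h4 := h.five_le
  nlinarith

lemma OP.not_dvd_two (h : OP π) : ¬ π ∣ (2 : ZI) := by
  intro h2
  exact absurd (h.small h2 (by decide)) (by decide)

lemma OP.not_dvd_one (h : OP π) : ¬ π ∣ (1 : ZI) := fun h1 => h.pr.not_isUnit (isUnit_of_dvd_one h1)

lemma OP.neg (h : OP π) : OP (-π) := ⟨h.pr.neg, by rw [Zsqrtd.norm_neg]; exact h.odd⟩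

lemma prime_star {z : ZI} (h : Prime z) : Prime (star z) := by
  have h1 : Prime ((starRingEnd ZI) z) := (MulEquiv.prime_iff (starRingAut (R := ZI)).toMulEquiv).2 h
  exact h1

lemma OP.star (h : OP π) : OP (star π) := ⟨prime_star h.pr, by rw [Zsqrtd.norm_conj]; exact h.odd⟩

lemma star_dvd {a b : ZI} (h : a ∣ b) : star a ∣ star b := by
  obtain ⟨c, rfl⟩ := h
  exact ⟨star c, by rw [star_mul, mul_comm]⟩

lemma nrm_star (a : ZI) : nrm (star a) = nrm a := by
  unfold nrm
  rw [Zsqrtd.norm_conj]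

/-! ### values -/

/-- a value of the symbol -/
def Val4 (u : ZI) : Prop := u = 0 ∨ u.norm = 1

lemma Val4.list {u : ZI} (h : Val4 u) : u = 0 ∨ u = 1 ∨ u = im1 ∨ u = -1 ∨ u = -im1 := by
  rcases h with h | h
  · exact Or.inl h
  · exact Or.inr (unit_cases h)

lemma OP.eq_val (h : OP π) {u w : ZI} (hu : Val4 u) (hw : Val4 w) (hd : π ∣ u - w) : u = w := by
  have h1 : (u - w).norm < 5 := by
    rcases hu.list with rfl | rfl | rfl | rfl | rfl <;>
    rcases hw.list with rfl | rfl | rfl | rfl | rfl <;> decide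
  exact sub_eq_zero.1 (h.small hd h1)

lemma Val4.mul {u w : ZI} (hu : Val4 u) (hw : Val4 w) : Val4 (u * w) := by
  rcases hu with h | h
  · left; rw [h, zero_mul]
  · rcases hw with h' | h'
    · left; rw [h', mul_zero]
    · right; rw [Zsqrtd.norm_mul, h, h']; norm_num

lemma Val4.pow {u : ZI} (hu : Val4 u) (n : ℕ) : Val4 (u ^ n) := by
  induction n with
  | zero => right; rw [pow_zero]; decide
  | succ n ih => rw [pow_succ]; exact ih.mul hu

lemma unit_four {u : ZI} (h : u.norm = 1) : u ^ 4 = 1 := by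
  rcases unit_cases h with h | h | h | h <;> rw [h] <;> decide

lemma star_unit {u : ZI} (h : u.norm = 1) : star u = u ^ 3 := by
  rcases unit_cases h with h | h | h | h <;> rw [h] <;> decide

lemma unit_star_mul {u : ZI} (h : u.norm = 1) : u * star u = 1 := by
  rw [← Zsqrtd.norm_eq_mul_conj, h]; simp

/-! ### the symbol -/

open Classical in
/-- the quartic residue symbol `(a/π)_4` for an odd prime `π`: the element of `{0, 1, i, -1, -i}`
congruent to `a^((Nπ-1)/4)` modulo `π` -/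
noncomputable def q4 (π a : ZI) : ZI :=
  if π ∣ a then 0 else if π ∣ a ^ (nrm π / 4) - 1 then 1 else if π ∣ a ^ (nrm π / 4) - im1 then im1
  else if π ∣ a ^ (nrm π / 4) + 1 then -1 else -im1

lemma q4_val (π a : ZI) : Val4 (q4 π a) := by
  unfold q4 Val4
  split_ifs
  · exact Or.inl rfl
  · right; decide
  · right; decide
  · right; decide
  · right; decide

lemma q4_zero {a : ZI} (h : π ∣ a) : q4 π a = 0 := by unfold q4; rw [if_pos h]

lemma mk_eq_zero (a : ZI) : Ideal.Quotient.mk (Ideal.span {π}) a = 0 ↔ π ∣ a := by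
  rw [Ideal.Quotient.eq_zero_iff_mem, Ideal.mem_span_singleton]

lemma mk_eq_mk (a b : ZI) : Ideal.Quotient.mk (Ideal.span {π}) a = Ideal.Quotient.mk _ b ↔
    π ∣ a - b := by
  rw [Ideal.Quotient.mk_eq_mk_iff_sub_mem, Ideal.mem_span_singleton]

lemma OP.max (h : OP π) : (Ideal.span {π} : Ideal ZI).IsMaximal :=
  PrincipalIdealRing.isMaximal_of_irreducible h.pr.irreducible

/-- the field structure -/
noncomputable abbrev OP.fld (h : OP π) : Field (RQ π) :=
  haveI := h.max
  Ideal.Quotient.field _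

lemma fin_RQ (h : OP π) : Finite (RQ π) := by
  apply Nat.finite_of_card_ne_zero
  rw [card_RQ]
  have h1 := h.norm_pos
  have h2 := nrm_cast π
  omega

lemma card_fin (_ : OP π) [Fintype (RQ π)] : Fintype.card (RQ π) = nrm π := by
  rw [← Nat.card_eq_fintype_card]
  exact card_RQ π

lemma fermat (h : OP π) {a : ZI} (ha : ¬ π ∣ a) : π ∣ a ^ (nrm π - 1) - 1 := by
  classical
  have := fin_RQ h
  let _ := Fintype.ofFinite (RQ π)
  let _ := h.fld
  have h1 : Ideal.Quotient.mk (Ideal.span {π}) a ≠ 0 := fun h' => ha ((mk_eq_zero a).1 h')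
  have h2 := FiniteField.pow_card_sub_one_eq_one _ h1
  rw [card_fin h] at h2
  rw [← mk_eq_mk, map_pow, map_one]
  exact h2

lemma q4_dvd (h : OP π) (a : ZI) : π ∣ a ^ (nrm π / 4) - q4 π a := by
  have hm := h.nrm_mod
  have h5 := h.five_le
  have hc := nrm_cast π
  unfold q4
  by_cases ha : π ∣ a
  · rw [if_pos ha, sub_zero]
    exact dvd_pow ha (by omega)
  · rw [if_neg ha]
    have h1 := fermat h ha
    have e : a ^ (nrm π - 1) - 1 = (a ^ (nrm π / 4) - 1) * ((a ^ (nrm π / 4) - im1) *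
        ((a ^ (nrm π / 4) + 1) * (a ^ (nrm π / 4) + im1))) := by
      have h2 : nrm π - 1 = nrm π / 4 * 4 := by omega
      rw [h2, pow_mul]
      linear_combination ((a ^ (nrm π / 4)) ^ 2 - 1) * im1_sq
    rw [e] at h1
    split_ifs with h2 h3 h4
    · exact h2
    · exact h3
    · rwa [sub_neg_eq_add]
    · rw [sub_neg_eq_add]
      rcases h.pr.dvd_or_dvd h1 with h5 | h5
      · exact absurd h5 h2
      · rcases h.pr.dvd_or_dvd h5 with h6 | h6
        · exact absurd h6 h3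
        · rcases h.pr.dvd_or_dvd h6 with h7 | h7
          · exact absurd h7 h4
          · exact h7

lemma q4_eq (h : OP π) {a u : ZI} (hu : Val4 u) (hd : π ∣ a ^ (nrm π / 4) - u) : q4 π a = u := by
  apply h.eq_val (q4_val π a) hu
  have h1 := dvd_sub hd (q4_dvd h a)
  have e : a ^ (nrm π / 4) - u - (a ^ (nrm π / 4) - q4 π a) = q4 π a - u := by ring
  rwa [e] at h1

lemma q4_mul (h : OP π) (a b : ZI) : q4 π (a * b) = q4 π a * q4 π b := by
  apply q4_eq h ((q4_val _ _).mul (q4_val _ _))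
  have h1 := q4_dvd h a
  have h2 := q4_dvd h b
  have e : (a * b) ^ (nrm π / 4) - q4 π a * q4 π b = (a ^ (nrm π / 4) - q4 π a) * b ^ (nrm π / 4) +
      q4 π a * (b ^ (nrm π / 4) - q4 π b) := by rw [mul_pow]; ring
  rw [e]
  exact dvd_add (h1.mul_right _) (h2.mul_left _)

lemma q4_per (h : OP π) {a b : ZI} (hab : π ∣ a - b) : q4 π a = q4 π b := by
  apply q4_eq h (q4_val _ _)
  have h1 := q4_dvd h b
  have h2 : π ∣ a ^ (nrm π / 4) - b ^ (nrm π / 4) := hab.trans (sub_dvd_pow_sub_pow a b _)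
  have := dvd_add h2 h1
  rwa [sub_add_sub_cancel] at this

lemma q4_zero_iff (h : OP π) {a : ZI} : q4 π a = 0 ↔ π ∣ a := by
  constructor
  · intro h0
    have h1 := q4_dvd h a
    rw [h0, sub_zero] at h1
    exact h.pr.dvd_of_dvd_pow h1
  · exact q4_zero

lemma q4_one (h : OP π) : q4 π 1 = 1 := by
  apply q4_eq h (Or.inr (by decide))
  rw [one_pow, sub_self]
  exact dvd_zero _

lemma q4_unit (h : OP π) {u : ZI} (hu : u.norm = 1) : q4 π u = u ^ (nrm π / 4) := by
  apply q4_eq h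
  · exact Val4.pow (Or.inr hu) _
  · rw [sub_self]; exact dvd_zero _

lemma q4_norm (h : OP π) {a : ZI} (ha : ¬ π ∣ a) : (q4 π a).norm = 1 := by
  rcases q4_val π a with h1 | h1
  · exact absurd ((q4_zero_iff h).1 h1) ha
  · exact h1

lemma q4_pow (h : OP π) (a : ZI) (n : ℕ) : q4 π (a ^ n) = q4 π a ^ n := by
  induction n with
  | zero => rw [pow_zero, pow_zero, q4_one h]
  | succ n ih => rw [pow_succ, q4_mul h, ih, pow_succ]

lemma q4_star (h : OP π) (a : ZI) : q4 (star π) (star a) = star (q4 π a) := by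
  apply q4_eq h.star
  · rcases q4_val π a with h1 | h1
    · left; rw [h1, star_zero]
    · right; rw [Zsqrtd.norm_conj, h1]
  · rw [nrm_star, ← star_pow, ← star_sub]
    exact star_dvd (q4_dvd h a)

lemma Associated.dvd_iff' {π ρ : ZI} (h : Associated π ρ) (a : ZI) : π ∣ a ↔ ρ ∣ a :=
  h.dvd_iff_dvd_left

lemma nrm_assoc {π ρ : ZI} (h : Associated π ρ) : nrm π = nrm ρ := by
  obtain ⟨u, rfl⟩ := h
  rw [nrm_mul]
  have : nrm (u : ZI) = 1 := by
    unfold nrm
    exact Zsqrtd.norm_eq_one_iff.2 u.isUnit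
  rw [this, mul_one]

lemma q4_assoc {π ρ : ZI} (h : Associated π ρ) (a : ZI) : q4 π a = q4 ρ a := by
  have e : ∀ c : ZI, (π ∣ c) ↔ (ρ ∣ c) := fun c => h.dvd_iff_dvd_left
  unfold q4
  rw [nrm_assoc h]
  by_cases h1 : π ∣ a
  · rw [if_pos h1, if_pos ((e _).1 h1)]
  rw [if_neg h1, if_neg (fun h' => h1 ((e _).2 h'))]
  by_cases h2 : π ∣ a ^ (nrm ρ / 4) - 1
  · rw [if_pos h2, if_pos ((e _).1 h2)]
  rw [if_neg h2, if_neg (fun h' => h2 ((e _).2 h'))]
  by_cases h3 : π ∣ a ^ (nrm ρ / 4) - im1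
  · rw [if_pos h3, if_pos ((e _).1 h3)]
  rw [if_neg h3, if_neg (fun h' => h3 ((e _).2 h'))]
  by_cases h4 : π ∣ a ^ (nrm ρ / 4) + 1
  · rw [if_pos h4, if_pos ((e _).1 h4)]
  rw [if_neg h4, if_neg (fun h' => h4 ((e _).2 h'))]

lemma norm_assoc {π ρ : ZI} (h : Associated π ρ) : π.norm = ρ.norm := by
  rw [← nrm_cast, ← nrm_cast, nrm_assoc h]

lemma OP.assoc {π ρ : ZI} (h : Associated π ρ) (hπ : OP π) : OP ρ :=
  ⟨h.prime hπ.pr, by rw [← norm_assoc h]; exact hπ.odd⟩

end Pool.Agent.R441.Q4
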