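import Pool.Agent.R441.Q4.A

/-!
Jacobi and Gauss sums of the quartic character and the first reciprocity statements
(after the starting files `Y699/Qg`, `Y699/Qr`).
-/

set_option autoImplicit false
set_option linter.unusedSectionVars false

namespace Pool.Agent.R441.Q4

/-- the residue field of an odd prime -/
structure Res (π : ZI) (F : Type) [Field F] [Fintype F] (ρ : ZI →+* F) : Prop where
  pp : OP π
  surj : Function.Surjective ρ
  ker : ∀ a, ρ a = 0 ↔ π ∣ a
  card : Fintype.card F = nrm π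

variable {π : ZI} {F : Type} [Field F] [Fintype F] {ρ : ZI →+* F}

lemma OP.res (h : OP π) : ∃ (F : Type) (_ : Field F) (_ : Fintype F) (ρ : ZI →+* F), Res π F ρ := by
  classical
  have := fin_RQ h
  let i2 := Fintype.ofFinite (RQ π)
  let i1 := h.fld
  exact ⟨RQ π, i1, i2, Ideal.Quotient.mk (Ideal.span {π}), h, Ideal.Quotient.mk_surjective,
    fun a => mk_eq_zero a, card_fin h⟩

/-- a lift -/
noncomputable def Res.sec (h : Res π F ρ) (x : F) : ZI := Function.surjInv h.surj x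

lemma Res.sec_spec (h : Res π F ρ) (x : F) : ρ (h.sec x) = x := Function.surjInv_eq h.surj x

lemma Res.q4_congr (h : Res π F ρ) {a b : ZI} (hab : ρ a = ρ b) : q4 π a = q4 π b := by
  apply q4_per h.pp
  rw [← h.ker, map_sub, hab, sub_self]

/-- the quartic character -/
noncomputable def Res.chi (h : Res π F ρ) : MulChar F ZI where
  toFun x := q4 π (h.sec x)
  map_one' := by
    rw [h.q4_congr (b := 1) (by rw [h.sec_spec, map_one]), q4_one h.pp]
  map_mul' x y := by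
    show q4 π (h.sec (x * y)) = q4 π (h.sec x) * q4 π (h.sec y)
    rw [← q4_mul h.pp]
    exact h.q4_congr (by rw [h.sec_spec, map_mul, h.sec_spec, h.sec_spec])
  map_nonunit' x hx := by
    have h0 : x = 0 := by
      by_contra h1
      exact hx (isUnit_iff_ne_zero.2 h1)
    show q4 π (h.sec x) = 0
    apply q4_zero
    rw [← h.ker, h.sec_spec, h0]

lemma Res.chi_apply (h : Res π F ρ) (x : F) : h.chi x = q4 π (h.sec x) := rfl

lemma Res.chi_map (h : Res π F ρ) (a : ZI) : h.chi (ρ a) = q4 π a := by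
  rw [h.chi_apply]
  exact h.q4_congr (h.sec_spec _)

lemma Res.rho_q4 (h : Res π F ρ) (a : ZI) : ρ (q4 π a) = ρ a ^ (nrm π / 4) := by
  have h1 := (h.ker _).2 (q4_dvd h.pp a)
  rw [map_sub, map_pow, sub_eq_zero] at h1
  exact h1.symm

lemma Res.rho_chi (h : Res π F ρ) (x : F) : ρ (h.chi x) = x ^ (nrm π / 4) := by
  rw [h.chi_apply, h.rho_q4, h.sec_spec]

lemma Res.chi_norm (h : Res π F ρ) {x : F} (hx : x ≠ 0) : (h.chi x).norm = 1 := by
  rw [h.chi_apply]
  apply q4_norm h.pp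
  rw [← h.ker, h.sec_spec]
  exact hx

lemma Res.char_ne (h : Res π F ρ) : ringChar F ≠ 2 := by
  intro h2
  have h3 : ((2 : ℕ) : F) = 0 := by
    rw [← h2]
    exact ringChar.Nat.cast_ringChar
  have h4 : ρ 2 = 0 := by
    rw [map_ofNat]
    exact_mod_cast h3
  exact h.pp.not_dvd_two ((h.ker _).1 h4)

lemma Res.char_eq (h : Res π F ρ) {p : ℕ} (hp : p.Prime) (hd : π ∣ (p : ZI)) : ringChar F = p := by
  have h1 : ((p : ℕ) : F) = 0 := by
    rw [← map_natCast ρ]
    exact (h.ker _).2 hd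
  have h2 : ringChar F ∣ p := ringChar.dvd h1
  have h3 : (ringChar F).Prime := CharP.char_is_prime F (ringChar F)
  exact (Nat.prime_dvd_prime_iff_eq h3 hp).1 h2

lemma Res.exists_sq_neg [DecidableEq F] (h : Res π F ρ) : ∃ a : F, a ≠ 0 ∧ h.chi a ^ 2 = -1 := by
  obtain ⟨a, ha⟩ := quadraticChar_exists_neg_one h.char_ne
  have ha0 : a ≠ 0 := by
    rintro rfl
    rw [MulChar.map_zero] at ha
    norm_num at ha
  refine ⟨a, ha0, ?_⟩
  have h1 := quadraticChar_eq_pow_of_char_ne_two' h.char_ne a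
  rw [ha, h.card] at h1
  apply h.pp.eq_val (Val4.pow (Or.inr (h.chi_norm ha0)) 2) (Or.inr (by decide))
  rw [← h.ker, map_sub, map_pow, h.rho_chi, ← pow_mul, map_neg, map_one, sub_eq_zero]
  have h2 : nrm π / 4 * 2 = nrm π / 2 := by
    have := h.pp.nrm_mod
    omega
  rw [h2, ← h1]
  push_cast
  rfl

lemma Res.chi_ne [DecidableEq F] (h : Res π F ρ) : h.chi ≠ 1 := by
  intro h1
  obtain ⟨a, ha, h2⟩ := h.exists_sq_neg
  rw [h1, MulChar.one_apply (isUnit_iff_ne_zero.2 ha)] at h2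
  exact absurd h2 (by decide)

lemma Res.chi_sq_ne [DecidableEq F] (h : Res π F ρ) : h.chi ^ 2 ≠ 1 := by
  intro h1
  obtain ⟨a, ha, h2⟩ := h.exists_sq_neg
  rw [← MulChar.pow_apply' _ two_ne_zero, h1, MulChar.one_apply (isUnit_iff_ne_zero.2 ha)] at h2
  exact absurd h2 (by decide)

lemma Res.chi_four (h : Res π F ρ) : h.chi ^ 4 = 1 := by
  apply MulChar.ext
  intro a
  rw [MulChar.pow_apply_coe, unit_four (h.chi_norm a.ne_zero), MulChar.one_apply_coe]

lemma Res.star_chi (h : Res π F ρ) (x : F) : star (h.chi x) = h.chi x ^ 3 := by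
  by_cases hx : x = 0
  · rw [hx, MulChar.map_zero, star_zero]; ring
  · exact star_unit (h.chi_norm hx)

lemma Res.unit_mul (h : Res π F ρ) {x : F} (hx : x ≠ 0) : h.chi x * star (h.chi x) = 1 :=
  unit_star_mul (h.chi_norm hx)

/-- the Jacobi sum -/
noncomputable def Res.J (h : Res π F ρ) : ZI := jacobiSum h.chi (h.chi ^ 2)

lemma Res.J_def (h : Res π F ρ) : h.J = ∑ x : F, h.chi x * h.chi (1 - x) ^ 2 := by
  unfold Res.J jacobiSum
  refine Finset.sum_congr rfl fun x _ => ?_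
  rw [MulChar.pow_apply' _ two_ne_zero]

lemma Res.rho_J (h : Res π F ρ) : ρ h.J = 0 := by
  classical
  have hm := h.pp.nrm_mod
  have h5 := h.pp.five_le
  have hc := nrm_cast π
  set k := nrm π / 4 with hk
  rw [h.J_def, map_sum]
  have e1 : ∀ x : F, ρ (h.chi x * h.chi (1 - x) ^ 2) =
      ∑ m ∈ Finset.range (2 * k + 1), ((-1) ^ m * ((2 * k).choose m : F)) * x ^ (k + m) := by
    intro x
    rw [map_mul, map_pow, h.rho_chi, h.rho_chi, ← hk, ← pow_mul, mul_comm k 2]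
    have e2 : (1 - x) = -x + 1 := by ring
    rw [e2, add_pow, Finset.mul_sum]
    refine Finset.sum_congr rfl fun m _ => ?_
    rw [one_pow, mul_one, neg_pow, pow_add]
    ring
  simp_rw [e1]
  rw [Finset.sum_comm]
  refine Finset.sum_eq_zero fun m hm' => ?_
  rw [← Finset.mul_sum, FiniteField.sum_pow_lt_card_sub_one, mul_zero]
  rw [h.card]
  have := Finset.mem_range.1 hm'
  omega

/-- the embedding into the complex numbers -/
noncomputable def toC : ZI →+* ℂ := GaussianInt.toComplex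

lemma toC_inj : Function.Injective toC := GaussianInt.toComplex_injective

lemma Res.J_norm [DecidableEq F] (h : Res π F ρ) : h.J * star h.J = (nrm π : ZI) := by
  set f : ZI →+* ℂ := toC with hf
  set g : ZI →+* ℂ := f.comp (starRingEnd ZI) with hg
  have h1 : (h.chi.ringHomComp f)⁻¹ = h.chi.ringHomComp g := by
    apply inv_eq_of_mul_eq_one_right
    apply MulChar.ext
    intro a
    rw [MulChar.mul_apply, MulChar.ringHomComp_apply, MulChar.ringHomComp_apply, MulChar.one_apply_coe]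
    show f (h.chi a) * f (star (h.chi a)) = 1
    rw [← map_mul, h.unit_mul a.ne_zero, map_one]
  have h2 : ((h.chi ^ 2).ringHomComp f)⁻¹ = (h.chi ^ 2).ringHomComp g := by
    apply inv_eq_of_mul_eq_one_right
    apply MulChar.ext
    intro a
    rw [MulChar.mul_apply, MulChar.ringHomComp_apply, MulChar.ringHomComp_apply, MulChar.one_apply_coe,
      MulChar.pow_apply' _ two_ne_zero]
    show f (h.chi a ^ 2) * f (star (h.chi a ^ 2)) = 1
    rw [← map_mul, star_pow, ← mul_pow, h.unit_mul a.ne_zero, one_pow, map_one]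
  have hne : (h.chi ^ 2).ringHomComp f ≠ 1 := (MulChar.ringHomComp_ne_one_iff toC_inj).2 h.chi_sq_ne
  have hchi3 : h.chi * h.chi ^ 2 ≠ 1 := by
    intro h3
    apply h.chi_ne
    have h5 := h.chi_four
    have e : h.chi ^ 4 = (h.chi * h.chi ^ 2) * h.chi := by
      rw [← pow_succ', ← pow_succ]
    rw [e, h3, one_mul] at h5
    exact h5
  have h3 := jacobiSum_mul_jacobiSum_inv (F := F) (F' := ℂ) (χ := h.chi.ringHomComp f)
    (φ := (h.chi ^ 2).ringHomComp f) (by
      have h0 : ringChar ℂ = 0 := ringChar.eq_zero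
      rw [h0]
      intro h4
      have := CharP.char_is_prime F (ringChar F)
      rw [← h4] at this
      exact Nat.not_prime_zero this)
    ((MulChar.ringHomComp_ne_one_iff toC_inj).2 h.chi_ne) hne (by
      rw [← MulChar.ringHomComp_mul]
      exact (MulChar.ringHomComp_ne_one_iff toC_inj).2 hchi3)
  rw [h1, h2, jacobiSum_ringHomComp, jacobiSum_ringHomComp, h.card] at h3
  apply toC_inj
  rw [map_mul, map_natCast]
  exact h3

lemma unit_sq_dvd {u : ZI} (h : u.norm = 1) : (2 : ZI) ∣ u ^ 2 - 1 := by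
  rcases unit_cases h with h | h | h | h <;> rw [h]
  · exact ⟨0, by decide⟩
  · exact ⟨-1, by decide⟩
  · exact ⟨0, by decide⟩
  · exact ⟨-1, by decide⟩

lemma Res.J_two [DecidableEq F] (h : Res π F ρ) : (2 : ZI) ∣ h.J + 1 := by
  have h1 : ∑ x : F, h.chi x = 0 := MulChar.sum_eq_zero_of_ne_one h.chi_ne
  have h2 : h.J + 1 = ∑ x : F, h.chi x * (h.chi (1 - x) ^ 2 - (if x = 1 then 0 else 1)) := by
    rw [h.J_def]
    simp only [mul_sub, Finset.sum_sub_distrib]
    have e : ∀ x : F, h.chi x * (if x = 1 then (0 : ZI) else 1) = h.chi x - if x = 1 then 1 else 0 := by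
      intro x
      split_ifs with hx
      · rw [hx, MulChar.map_one]; ring
      · ring
    simp_rw [e]
    rw [Finset.sum_sub_distrib, h1, Finset.sum_ite_eq']
    simp
  rw [h2]
  refine Finset.dvd_sum fun x _ => Dvd.dvd.mul_left ?_ _
  split_ifs with hx
  · rw [hx, sub_self, MulChar.map_zero]
    exact ⟨0, by ring⟩
  · exact unit_sq_dvd (h.chi_norm (sub_ne_zero.2 (Ne.symm hx)))

/-- **the Jacobi sum**, up to sign -/
theorem Res.J_sq [DecidableEq F] (h : Res π F ρ) (him : π.im % 2 = 0) : h.J ^ 2 = π ^ 2 := by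
  obtain ⟨c, hc⟩ := (h.ker _).1 h.rho_J
  have hn := h.J_norm
  rw [← Zsqrtd.norm_eq_mul_conj] at hn
  have hn2 : h.J.norm = π.norm := by
    rw [← nrm_cast π]
    exact_mod_cast hn
  have hcn : c.norm = 1 := by
    rw [hc, Zsqrtd.norm_mul] at hn2
    have := h.pp.norm_pos
    have h3 : π.norm * (c.norm - 1) = 0 := by linear_combination hn2
    rcases mul_eq_zero.1 h3 with h4 | h4
    · omega
    · omega
  have ho := h.pp.odd
  rw [norm_def'] at ho
  have hre : π.re % 2 = 1 := by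
    obtain ⟨b, hb⟩ : ∃ b, π.im = 2 * b := ⟨π.im / 2, by omega⟩
    rw [hb] at ho
    rcases Int.emod_two_eq_zero_or_one π.re with h0 | h0
    · exfalso
      obtain ⟨a, ha⟩ : ∃ a, π.re = 2 * a := ⟨π.re / 2, by omega⟩
      rw [ha] at ho
      ring_nf at ho
      omega
    · exact h0
  obtain ⟨w, hw⟩ := h.J_two
  have e1 : h.J.im = 2 * w.im := by
    have := congrArg Zsqrtd.im hw
    have h2r : (2 : ZI).re = 2 := by decide
    have h2i : (2 : ZI).im = 0 := by decide
    rw [Zsqrtd.im_add, Zsqrtd.im_mul, h2r, h2i, Zsqrtd.im_one] at this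
    linarith
  rcases unit_cases hcn with h3 | h3 | h3 | h3
  · rw [hc, h3]; ring
  · exfalso
    rw [hc, h3] at e1
    simp only [im1, Zsqrtd.im_mul] at e1
    omega
  · rw [hc, h3]; ring
  · exfalso
    rw [hc, h3] at e1
    simp only [im1, Zsqrtd.im_mul, Zsqrtd.im_neg, Zsqrtd.re_neg] at e1
    omega

/-- the pushforward of the quartic character -/
noncomputable def Res.ch (h : Res π F ρ) {R' : Type} [CommRing R'] (κ : ZI →+* R') : MulChar F R' :=
  h.chi.ringHomComp κ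

section
variable {R' : Type} [Field R'] {κ : ZI →+* R'}

lemma Res.ch_apply (h : Res π F ρ) (κ : ZI →+* R') (x : F) : h.ch κ x = κ (h.chi x) := rfl

lemma Res.ch_four (h : Res π F ρ) (κ : ZI →+* R') {x : F} (hx : x ≠ 0) : h.ch κ x ^ 4 = 1 := by
  rw [h.ch_apply, ← map_pow, unit_four (h.chi_norm hx), map_one]

lemma Res.ch_pow4 (h : Res π F ρ) (κ : ZI →+* R') : h.ch κ ^ 4 = 1 := by
  apply MulChar.ext
  intro a
  rw [MulChar.pow_apply_coe, h.ch_four κ a.ne_zero, MulChar.one_apply_coe]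

lemma Res.ch_inv (h : Res π F ρ) (κ : ZI →+* R') : (h.ch κ)⁻¹ = h.ch κ ^ 3 := by
  apply inv_eq_of_mul_eq_one_right
  rw [← pow_succ', h.ch_pow4]

lemma Res.ch_sq_ne (h : Res π F ρ) (κ : ZI →+* R') (h2 : (2 : R') ≠ 0) : h.ch κ ^ 2 ≠ 1 := by
  classical
  intro h1
  obtain ⟨a, ha0, ha⟩ := h.exists_sq_neg
  have h3 : (h.ch κ ^ 2) a = 1 := by
    rw [h1]
    exact MulChar.one_apply (isUnit_iff_ne_zero.2 ha0)
  rw [MulChar.pow_apply' _ two_ne_zero, h.ch_apply, ← map_pow, ha, map_neg, map_one] at h3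
  apply h2
  linear_combination -h3

lemma Res.ch_ne (h : Res π F ρ) (κ : ZI →+* R') (h2 : (2 : R') ≠ 0) : h.ch κ ≠ 1 := by
  intro h1
  apply h.ch_sq_ne κ h2
  rw [h1, one_pow]

lemma Res.ch_three_ne (h : Res π F ρ) (κ : ZI →+* R') (h2 : (2 : R') ≠ 0) : h.ch κ ^ 3 ≠ 1 := by
  intro h1
  apply h.ch_ne κ h2
  have h3 := h.ch_pow4 κ
  rwa [pow_succ, h1, one_mul] at h3

lemma Res.ch_sq_quad (h : Res π F ρ) (κ : ZI →+* R') : (h.ch κ ^ 2).IsQuadratic := by
  intro x
  by_cases hx : x = 0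
  · left; rw [hx, MulChar.map_zero]
  · right
    rw [MulChar.pow_apply' _ two_ne_zero]
    have h4 := h.ch_four κ hx
    have h5 : (h.ch κ x ^ 2 - 1) * (h.ch κ x ^ 2 + 1) = 0 := by linear_combination h4
    rcases mul_eq_zero.1 h5 with h6 | h6
    · left; exact sub_eq_zero.1 h6
    · right; exact eq_neg_of_add_eq_zero_left h6

lemma Res.ch_neg_one (h : Res π F ρ) (κ : ZI →+* R') : h.ch κ (-1) ^ 2 = 1 := by
  rw [← map_pow]; norm_num

/-- the fourth power of the Gauss sum -/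
theorem Res.gauss_four [DecidableEq F] (h : Res π F ρ) (κ : ZI →+* R') (h2 : (2 : R') ≠ 0)
    (hN : ((Fintype.card F : ℕ) : R') ≠ 0)
    {ψ : AddChar F R'} (hψ : ψ.IsPrimitive) :
    gaussSum (h.ch κ) ψ ^ 4 = κ h.J ^ 2 * ((Fintype.card F : ℕ) : R') ∧
    gaussSum (h.ch κ) ψ * gaussSum (h.ch κ ^ 3) ψ = h.ch κ (-1) * ((Fintype.card F : ℕ) : R') := by
  have e1 : gaussSum (h.ch κ) ψ * gaussSum (h.ch κ ^ 3) ψ = h.ch κ (-1) * ((Fintype.card F : ℕ) : R') := by
    have k1 := mul_gaussSum_inv_eq_gaussSum (h.ch κ)⁻¹ ψ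
    have k2 := gaussSum_mul_gaussSum_eq_card (h.ch_ne κ h2) hψ
    rw [← h.ch_inv, ← k1, ← k2]
    have k3 : (h.ch κ)⁻¹ (-1) = h.ch κ (-1) := by
      rw [MulChar.inv_apply', inv_neg_one]
    rw [k3]; ring
  refine ⟨?_, e1⟩
  have e2 := gaussSum_sq (h.ch_sq_ne κ h2) (h.ch_sq_quad κ) hψ
  have e3 : (h.ch κ ^ 2) (-1) = 1 := by
    rw [MulChar.pow_apply' _ two_ne_zero, h.ch_neg_one]
  rw [e3, one_mul] at e2
  have e4 : h.ch κ * (h.ch κ ^ 2) = h.ch κ ^ 3 := (pow_succ' _ _).symm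
  have e5 := jacobiSum_mul_nontrivial (χ := h.ch κ) (φ := h.ch κ ^ 2)
    (by rw [e4]; exact h.ch_three_ne κ h2) ψ
  rw [e4] at e5
  have e6 : jacobiSum (h.ch κ) (h.ch κ ^ 2) = κ h.J := by
    rw [h.J_def]
    unfold jacobiSum
    rw [map_sum]
    refine Finset.sum_congr rfl fun x _ => ?_
    rw [map_mul, MulChar.pow_apply' _ two_ne_zero, h.ch_apply, h.ch_apply, map_pow]
  rw [e6] at e5
  have e7 : h.ch κ (-1) ^ 2 = 1 := h.ch_neg_one κ
  have e8 : h.ch κ (-1) * ((Fintype.card F : ℕ) : R') * κ h.J =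
      gaussSum (h.ch κ) ψ ^ 2 * gaussSum (h.ch κ ^ 2) ψ := by
    rw [← e1]
    linear_combination gaussSum (h.ch κ) ψ * e5
  have e9 := congrArg (fun t => t ^ 2) e8
  apply mul_right_cancel₀ hN
  rw [← e2]
  have e10 : (h.ch κ (-1) * ((Fintype.card F : ℕ) : R') * κ h.J) ^ 2 =
    ((Fintype.card F : ℕ) : R') ^ 2 * κ h.J ^ 2 := by
    rw [mul_pow, mul_pow, e7]; ring
  rw [e10, mul_pow, e2] at e9
  rw [e2]
  linear_combination -e9

/-- powers of Gauss sums -/
lemma gauss_pow {r : ℕ} [hr : Fact r.Prime] [CharP R' r] (χ : MulChar F R') (ψ : AddChar F R') (k : ℕ) :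
    gaussSum χ ψ ^ (r ^ k) = ∑ x : F, χ x ^ (r ^ k) * ψ (((r ^ k : ℕ) : F) * x) := by
  unfold gaussSum
  have h1 := sum_pow_char_pow r k (Finset.univ : Finset F) (fun x => χ x * ψ x)
  rw [h1]
  refine Finset.sum_congr rfl fun x _ => ?_
  rw [mul_pow, ← nsmul_eq_mul, AddChar.map_nsmul_eq_pow]

/-- the first reciprocity statement -/
theorem Res.recA [DecidableEq F] (h : Res π F ρ) (him : π.im % 2 = 0) {F₂ : Type} [Field F₂]
    [Fintype F₂]
    {ρ₂ : ZI →+* F₂} {l : ZI} (h₂ : Res l F₂ ρ₂) (hc : ringChar F₂ ≠ ringChar F) :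
    q4 π ((nrm l : ℕ) : ZI) * q4 l (π ^ 3 * star π) = 1 := by
  set Ψ := AddChar.FiniteField.primitiveChar F F₂ hc with hΨ
  set R' := CyclotomicField Ψ.n F₂ with hR'
  set κ : ZI →+* R' := (algebraMap F₂ R').comp ρ₂ with hκ
  have hchar := Algebra.ringChar_eq F₂ R'
  obtain ⟨n, hp, hcard⟩ := FiniteField.card F (ringChar F)
  obtain ⟨n', hp', hcard'⟩ := FiniteField.card F₂ (ringChar F₂)
  set r := ringChar F₂ with hr
  have hrc : CharP R' r := by rw [hchar]; exact ringChar.charP R'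
  have := Fact.mk hp'
  have h20 : (2 : R') ≠ 0 := by
    have e1 : (2 : R') = ((2 : ℕ) : R') := by norm_num
    rw [e1, Ne, CharP.cast_eq_zero_iff R' r, Nat.prime_dvd_prime_iff_eq hp' Nat.prime_two]
    exact h₂.char_ne
  have hN0 : ((Fintype.card F : ℕ) : R') ≠ 0 := by
    rw [Ne, CharP.cast_eq_zero_iff R' r, hcard]
    intro hd
    exact hc ((Nat.prime_dvd_prime_iff_eq hp' hp).1 (hp'.dvd_of_dvd_pow hd))
  have hr0 : ((r ^ (n' : ℕ) : ℕ) : F) ≠ 0 := by
    have e1 : CharP F (ringChar F) := ringChar.charP F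
    rw [Ne, CharP.cast_eq_zero_iff F (ringChar F)]
    intro hd
    exact hc ((Nat.prime_dvd_prime_iff_eq hp hp').1 (hp.dvd_of_dvd_pow hd)).symm
  obtain ⟨g4, g3⟩ := h.gauss_four κ h20 hN0 Ψ.prim
  set g := gaussSum (h.ch κ) Ψ.char with hg
  have hg0 : g ≠ 0 := by
    intro h0
    rw [h0, zero_mul] at g3
    have h5 : h.ch κ (-1) ≠ 0 := by
      intro h6
      have h7 := h.ch_neg_one κ
      rw [h6] at h7
      norm_num at h7
    exact (mul_ne_zero h5 hN0) g3.symm
  have hQ : nrm l = r ^ (n' : ℕ) := by rw [← h₂.card, hcard']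
  have hm := h₂.pp.nrm_mod
  have hl5 := h₂.pp.five_le
  have hlc := nrm_cast l
  have e1 : g ^ (nrm l) = ∑ x : F, h.ch κ x * Ψ.char (((nrm l : ℕ) : F) * x) := by
    rw [hQ, hg, gauss_pow]
    refine Finset.sum_congr rfl fun x _ => ?_
    by_cases hx : x = 0
    · have e2 : r ^ (n' : ℕ) ≠ 0 := by rw [← hQ]; omega
      rw [hx, MulChar.map_zero, zero_pow e2]
    · have e2 : h.ch κ x ^ (r ^ (n' : ℕ)) = h.ch κ x := by
        rw [← hQ]
        have e3 : nrm l = 4 * (nrm l / 4) + 1 := by omega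
        rw [e3, pow_succ, pow_mul, h.ch_four κ hx, one_pow, one_mul]
      rw [e2]
  have hQ0 : ((nrm l : ℕ) : F) ≠ 0 := by rw [hQ]; exact hr0
  have e2 := gaussSum_mulShift (h.ch κ) Ψ.char (Units.mk0 _ hQ0)
  have e3 : gaussSum (h.ch κ) (Ψ.char.mulShift ((Units.mk0 _ hQ0 : Fˣ) : F)) = g ^ (nrm l) := by
    rw [e1]
    rfl
  rw [e3, ← hg, Units.val_mk0] at e2
  have e4 : h.ch κ ((nrm l : ℕ) : F) * (g ^ 4) ^ (nrm l / 4) = 1 := by
    apply mul_right_cancel₀ hg0
    rw [one_mul]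
    have e5 : g ^ nrm l = (g ^ 4) ^ (nrm l / 4) * g := by
      rw [← pow_mul, ← pow_succ]
      congr 1
      omega
    rw [e5] at e2
    linear_combination e2
  have hlk : ∀ a : ZI, κ a = 0 ↔ l ∣ a := by
    intro a
    rw [hκ, RingHom.comp_apply, map_eq_zero_iff _ (algebraMap F₂ R').injective]
    exact h₂.ker a
  have hN : ((Fintype.card F : ℕ) : R') = κ (π * star π) := by
    rw [← Zsqrtd.norm_eq_mul_conj, h.card, ← nrm_cast π]
    simp
  have e6 : g ^ 4 = κ (π ^ 3 * star π) := by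
    rw [g4, ← map_pow, h.J_sq him, hN, ← map_mul]
    congr 1
    ring
  have e7 : κ (π ^ 3 * star π) ^ (nrm l / 4) = κ (q4 l (π ^ 3 * star π)) := by
    rw [← map_pow, ← sub_eq_zero, ← map_sub, hlk]
    exact q4_dvd h₂.pp _
  have e8 : h.ch κ ((nrm l : ℕ) : F) = κ (q4 π ((nrm l : ℕ) : ZI)) := by
    rw [h.ch_apply, ← h.chi_map, map_natCast ρ]
  rw [e6, e7, e8, ← map_mul] at e4
  apply h₂.pp.eq_val ((q4_val _ _).mul (q4_val _ _)) (Or.inr (by decide))
  rw [← hlk, map_sub, e4, map_one, sub_self]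

/-- Frobenius at an inert prime -/
lemma inert_frob {q : ℕ} (hq : q.Prime) (h3 : q % 4 = 3) {F₂ : Type} [Field F₂] [CharP F₂ q]
    (ρ₂ : ZI →+* F₂) (a : ZI) : ρ₂ (star a) = ρ₂ a ^ q := by
  have := Fact.mk hq
  have e1 : a = (a.re : ZI) + (a.im : ZI) * im1 := by
    ext
    · simp [im1]
    · simp [im1]
  have e2 : star a = (a.re : ZI) - (a.im : ZI) * im1 := by
    ext
    · simp [im1]
    · simp [im1]
  have e3 : ∀ m : ℤ, ρ₂ (m : ZI) ^ q = ρ₂ (m : ZI) := by
    intro m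
    rw [map_intCast]
    have h5 : ((m : ZMod q) : ZMod q) ^ q = m := ZMod.pow_card _
    have h6 := congrArg (ZMod.castHom (dvd_refl q) F₂) h5
    rwa [map_pow, map_intCast] at h6
  have e4 : ρ₂ im1 ^ q = -ρ₂ im1 := by
    have h5 : q = 4 * (q / 4) + 3 := by omega
    have h6 : ρ₂ im1 ^ 2 = -1 := by rw [← map_pow, im1_sq, map_neg, map_one]
    rw [h5, pow_add, pow_mul]
    have h7 : ρ₂ im1 ^ 4 = 1 := by rw [← map_pow, im1_four, map_one]
    rw [h7, one_pow, one_mul]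
    linear_combination ρ₂ im1 * h6
  rw [e2]
  conv_rhs => rw [e1]
  rw [map_add, map_mul, map_sub, map_mul, add_pow_char, mul_pow, e3, e3, e4]
  ring

/-- the second reciprocity statement -/
theorem Res.recB [DecidableEq F] (h : Res π F ρ) (him : π.im % 2 = 0) {F₂ : Type} [Field F₂]
    [Fintype F₂]
    {ρ₂ : ZI →+* F₂} {q : ℕ} (hq : q.Prime) (h3 : q % 4 = 3)
    (h₂ : Res (-(q : ZI)) F₂ ρ₂) (hc : ringChar F₂ ≠ ringChar F) (hcq : ringChar F₂ = q) :
    q4 π (-(q : ZI)) = q4 (-(q : ZI)) π := by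
  set Ψ := AddChar.FiniteField.primitiveChar F F₂ hc with hΨ
  set R' := CyclotomicField Ψ.n F₂ with hR'
  set κ : ZI →+* R' := (algebraMap F₂ R').comp ρ₂ with hκ
  have hchar := Algebra.ringChar_eq F₂ R'
  obtain ⟨n, hp, hcard⟩ := FiniteField.card F (ringChar F)
  have hrc2 : CharP F₂ q := by rw [← hcq]; exact ringChar.charP F₂
  have hrc : CharP R' q := by rw [← hcq, hchar]; exact ringChar.charP R'
  have := Fact.mk hq
  have h20 : (2 : R') ≠ 0 := by
    have e1 : (2 : R') = ((2 : ℕ) : R') := by norm_num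
    rw [e1, Ne, CharP.cast_eq_zero_iff R' q, Nat.prime_dvd_prime_iff_eq hq Nat.prime_two]
    omega
  have hN0 : ((Fintype.card F : ℕ) : R') ≠ 0 := by
    rw [Ne, CharP.cast_eq_zero_iff R' q, hcard]
    intro hd
    apply hc
    rw [hcq]
    exact (Nat.prime_dvd_prime_iff_eq hq hp).1 (hq.dvd_of_dvd_pow hd)
  have hr0 : ((q : ℕ) : F) ≠ 0 := by
    have e1 : CharP F (ringChar F) := ringChar.charP F
    rw [Ne, CharP.cast_eq_zero_iff F (ringChar F)]
    intro hd
    apply hc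
    rw [hcq]
    exact ((Nat.prime_dvd_prime_iff_eq hp hq).1 hd).symm
  obtain ⟨g4, g3⟩ := h.gauss_four κ h20 hN0 Ψ.prim
  set g := gaussSum (h.ch κ) Ψ.char with hg
  have e1 : g ^ q = gaussSum (h.ch κ ^ 3) (Ψ.char.mulShift (q : F)) := by
    have e0 := gauss_pow (r := q) (h.ch κ) Ψ.char 1
    rw [pow_one] at e0
    rw [hg, e0]
    unfold gaussSum
    refine Finset.sum_congr rfl fun x _ => ?_
    rw [AddChar.mulShift_apply]
    congr 1
    rw [MulChar.pow_apply' _ three_ne_zero]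
    by_cases hx : x = 0
    · rw [hx, MulChar.map_zero, zero_pow hq.ne_zero, zero_pow three_ne_zero]
    · have e3 : q = 4 * (q / 4) + 3 := by omega
      rw [e3, pow_add, pow_mul, h.ch_four κ hx, one_pow, one_mul]
  have e2 := gaussSum_mulShift (h.ch κ ^ 3) Ψ.char (Units.mk0 _ hr0)
  rw [Units.val_mk0, ← e1] at e2
  have e3 : (h.ch κ ^ 3) (q : F) * h.ch κ (q : F) = 1 := by
    rw [MulChar.pow_apply' _ three_ne_zero, ← pow_succ]
    exact h.ch_four κ hr0
  have e4 : g ^ q * g = h.ch κ (-(q : F)) * ((Fintype.card F : ℕ) : R') := by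
    have e5 : g ^ q = h.ch κ (q : F) * gaussSum (h.ch κ ^ 3) Ψ.char := by
      rw [← e2]
      linear_combination -(g ^ q) * e3
    have e6 : h.ch κ (-(q : F)) = h.ch κ (-1) * h.ch κ (q : F) := by
      rw [← map_mul]; congr 1; ring
    rw [e5, e6]
    linear_combination h.ch κ (q : F) * g3
  have hlk : ∀ a : ZI, κ a = 0 ↔ -(q : ZI) ∣ a := by
    intro a
    rw [hκ, RingHom.comp_apply, map_eq_zero_iff _ (algebraMap F₂ R').injective]
    exact h₂.ker a
  have hN : ((Fintype.card F : ℕ) : R') = κ (π * star π) := by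
    rw [← Zsqrtd.norm_eq_mul_conj, h.card, ← nrm_cast π]
    simp
  have e6 : g ^ 4 = κ (π ^ 3 * star π) := by
    rw [g4, ← map_pow, h.J_sq him, hN, ← map_mul]
    congr 1
    ring
  have e8 : h.ch κ (-(q : F)) = κ (q4 π (-(q : ZI))) := by
    rw [h.ch_apply, ← h.chi_map, map_neg ρ, map_natCast ρ]
  have e9 : κ (star π) = κ π ^ q := by
    rw [hκ, RingHom.comp_apply, RingHom.comp_apply, inert_frob hq h3 ρ₂ π, map_pow]
  have hk0 : κ π ≠ 0 := by
    intro h0
    apply hN0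
    rw [hN, map_mul, h0, zero_mul]
  have hnq : nrm (-(q : ZI)) = q * q := by
    have h5 := nrm_cast (-(q : ZI))
    rw [Zsqrtd.norm_neg, Zsqrtd.norm_natCast] at h5
    exact_mod_cast h5
  have e10 : κ (π ^ 3 * star π) = κ π ^ (q + 3) := by
    rw [map_mul, map_pow, e9]; ring
  have e11 : ((κ π) ^ (q + 3)) ^ ((q + 1) / 4) = κ (q4 π (-(q : ZI))) * κ π ^ (q + 1) := by
    have h5 : κ π ^ (q + 1) = ((Fintype.card F : ℕ) : R') := by
      rw [hN, map_mul, e9]; ring
    rw [h5, ← e10, ← e6, ← e8, ← e4, ← pow_mul, ← pow_succ]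
    congr 1
    omega
  have e12 : κ (q4 (-(q : ZI)) π) = κ π ^ (q * q / 4) := by
    have h5 := (hlk _).2 (q4_dvd h₂.pp π)
    rw [map_sub, map_pow, sub_eq_zero, hnq] at h5
    exact h5.symm
  obtain ⟨k, hk⟩ : ∃ k, q = 4 * k + 3 := ⟨q / 4, by omega⟩
  have h7 : (q + 1) / 4 = k + 1 := by omega
  have h8 : q * q / 4 = (k + 1) * (4 * k + 2) := by
    have h9 : q * q = 4 * ((k + 1) * (4 * k + 2)) + 1 := by rw [hk]; ring
    omega
  rw [h7] at e11
  rw [h8] at e12
  apply h₂.pp.eq_val (q4_val _ _) (q4_val _ _)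
  rw [← hlk, map_sub, sub_eq_zero, e12]
  apply mul_right_cancel₀ (pow_ne_zero (q + 1) hk0)
  rw [← e11, ← pow_mul, ← pow_add]
  congr 1
  rw [hk]; ring

end

end Pool.Agent.R441.Q4
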