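import Pool.Agent.R441.Q4.B

/-!
Quartic residue symbols with composite modulus: basic properties.
-/

set_option autoImplicit false

namespace Pool.Agent.R441.Q4

open UniqueFactorizationMonoid

/-- the quartic residue symbol `(a/β)_4` for `β` of odd norm: the product of the symbols of the
prime factors of `β` -/
noncomputable def Q (β a : ZI) : ZI := ((factors β).map (fun π => q4 π a)).prod

/-- odd norm -/
def Od (β : ZI) : Prop := β.norm % 2 = 1

lemma Od.ne {β : ZI} (h : Od β) : β ≠ 0 := by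
  rintro rfl
  unfold Od at h
  rw [Zsqrtd.norm_zero] at h
  omega

lemma od_mul {β γ : ZI} : Od (β * γ) ↔ Od β ∧ Od γ := by
  unfold Od
  rw [Zsqrtd.norm_mul, Int.mul_emod]
  rcases Int.emod_two_eq_zero_or_one β.norm with h | h <;>
    rcases Int.emod_two_eq_zero_or_one γ.norm with h' | h' <;> rw [h, h'] <;> simp

lemma od_of_dvd {β γ : ZI} (h : Od γ) (hd : β ∣ γ) : Od β := by
  obtain ⟨c, rfl⟩ := hd
  exact (od_mul.1 h).1

lemma Od.star {β : ZI} (h : Od β) : Od (star β) := by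
  unfold Od; rw [Zsqrtd.norm_conj]; exact h

lemma Od.neg {β : ZI} (h : Od β) : Od (-β) := by
  unfold Od; rw [Zsqrtd.norm_neg]; exact h

lemma od_unit {u : ZI} (h : u.norm = 1) : Od u := by unfold Od; rw [h]; rfl

lemma Od.pow {β : ZI} (h : Od β) (n : ℕ) : Od (β ^ n) := by
  induction n with
  | zero => rw [pow_zero]; exact od_unit (by decide)
  | succ n ih => rw [pow_succ]; exact od_mul.2 ⟨ih, h⟩

lemma Od.nrm_mod {β : ZI} (h : Od β) : nrm β % 4 = 1 := by
  have h1 := norm_mod_of_odd h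
  have h2 := nrm_cast β
  omega

lemma od_int {n : ℤ} : Od (n : ZI) ↔ n % 2 = 1 := by
  unfold Od
  rw [Zsqrtd.norm_intCast, Int.mul_emod]
  rcases Int.emod_two_eq_zero_or_one n with h | h <;> rw [h] <;> simp

/-- induction over the prime factorization -/
theorem Od.induction {P : (β : ZI) → Od β → Prop} (hu : ∀ (u : ZI) (h : u.norm = 1), P u (od_unit h))
    (hp : ∀ (π β : ZI) (hπ : OP π) (hβ : Od β), P β hβ → P (π * β) (od_mul.2 ⟨hπ.odd, hβ⟩))
    (β : ZI) (h : Od β) : P β h := by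
  revert h
  refine induction_on_prime β ?_ ?_ ?_
  · intro h; exact absurd rfl h.ne
  · intro x hx _
    exact hu x (isUnit_iff_norm.1 hx)
  · intro a p _ hpp ih hpa
    obtain ⟨h1, h2⟩ := od_mul.1 hpa
    exact hp p a ⟨hpp, h1⟩ h2 (ih h2)

lemma rel_map_q4 {s t : Multiset ZI} (h : Multiset.Rel Associated s t) (a : ZI) :
    s.map (fun π => q4 π a) = t.map (fun π => q4 π a) := by
  rw [← Multiset.rel_eq, Multiset.rel_map]
  exact h.mono fun x _ y _ hxy => q4_assoc hxy a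

lemma Q_mul_left {β γ : ZI} (hβ : β ≠ 0) (hγ : γ ≠ 0) (a : ZI) : Q (β * γ) a = Q β a * Q γ a := by
  unfold Q
  rw [rel_map_q4 (factors_mul hβ hγ), Multiset.map_add, Multiset.prod_add]

lemma Q_assoc {β γ : ZI} (h : Associated β γ) (a : ZI) : Q β a = Q γ a := by
  unfold Q
  rw [rel_map_q4 (factors_rel_of_associated h)]

lemma Q_unit_left {u : ZI} (h : u.norm = 1) (a : ZI) : Q u a = 1 := by
  unfold Q
  rw [factors_of_isUnit (isUnit_iff_norm.2 h)]
  simp

lemma Q_prime {π : ZI} (h : Prime π) (a : ZI) : Q π a = q4 π a := by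
  obtain ⟨p, hp, hf⟩ := prime_factors_irreducible h.irreducible
    ⟨fun b hb => prime_of_factor b hb, factors_prod h.ne_zero⟩
  unfold Q
  rw [hf]
  simp [q4_assoc hp]

lemma Q_neg_left (β a : ZI) : Q (-β) a = Q β a := Q_assoc (Associated.refl β).neg_left a

lemma Q_val (β : ZI) (h : Od β) (a : ZI) : Val4 (Q β a) := by
  induction β, h using Od.induction with
  | hu u hu => rw [Q_unit_left hu]; right; decide
  | hp π β hπ hβ ih => rw [Q_mul_left hπ.ne hβ.ne, Q_prime hπ.pr]; exact (q4_val _ _).mul ih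

lemma Q_mul {β : ZI} (h : Od β) (a b : ZI) : Q β (a * b) = Q β a * Q β b := by
  induction β, h using Od.induction with
  | hu u hu => rw [Q_unit_left hu, Q_unit_left hu, Q_unit_left hu, mul_one]
  | hp π β hπ hβ ih =>
    rw [Q_mul_left hπ.ne hβ.ne, Q_mul_left hπ.ne hβ.ne, Q_mul_left hπ.ne hβ.ne, Q_prime hπ.pr,
      Q_prime hπ.pr, Q_prime hπ.pr, q4_mul hπ, ih]
    ring

lemma Q_one {β : ZI} (h : Od β) : Q β 1 = 1 := by
  induction β, h using Od.induction with
  | hu u hu => rw [Q_unit_left hu]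
  | hp π β hπ hβ ih => rw [Q_mul_left hπ.ne hβ.ne, Q_prime hπ.pr, q4_one hπ, ih, mul_one]

lemma Q_pow {β : ZI} (h : Od β) (a : ZI) (n : ℕ) : Q β (a ^ n) = Q β a ^ n := by
  induction n with
  | zero => rw [pow_zero, pow_zero, Q_one h]
  | succ n ih => rw [pow_succ, Q_mul h, ih, pow_succ]

lemma Q_per {β : ZI} (h : Od β) {a b : ZI} (hab : β ∣ a - b) : Q β a = Q β b := by
  revert hab
  induction β, h using Od.induction with
  | hu u hu => intro _; rw [Q_unit_left hu, Q_unit_left hu]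
  | hp π β hπ hβ ih =>
    intro hab
    rw [Q_mul_left hπ.ne hβ.ne, Q_mul_left hπ.ne hβ.ne, Q_prime hπ.pr, Q_prime hπ.pr,
      q4_per hπ ((dvd_mul_right _ _).trans hab), ih ((dvd_mul_left _ _).trans hab)]

lemma Q_star {β : ZI} (h : Od β) (a : ZI) : Q (star β) (star a) = star (Q β a) := by
  induction β, h using Od.induction with
  | hu u hu => rw [Q_unit_left hu, Q_unit_left (by rw [Zsqrtd.norm_conj]; exact hu), star_one]
  | hp π β hπ hβ ih =>
    rw [star_mul, Q_mul_left hβ.star.ne hπ.star.ne, Q_mul_left hπ.ne hβ.ne, Q_prime hπ.pr,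
      Q_prime hπ.star.pr, q4_star hπ, star_mul, ih]

/-- coprimality -/
lemma Q_norm {β : ZI} (h : Od β) {a : ZI} (hab : IsCoprime β a) : (Q β a).norm = 1 := by
  revert hab
  induction β, h using Od.induction with
  | hu u hu => intro _; rw [Q_unit_left hu]; decide
  | hp π β hπ hβ ih =>
    intro hab
    rw [Q_mul_left hπ.ne hβ.ne, Zsqrtd.norm_mul, Q_prime hπ.pr, q4_norm hπ, ih hab.of_mul_left_right,
      mul_one]
    intro hd
    exact hπ.pr.not_isUnit (hab.of_mul_left_left.isUnit_of_dvd' dvd_rfl hd)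

lemma Q_four {β : ZI} (h : Od β) {a : ZI} (hab : IsCoprime β a) : Q β a ^ 4 = 1 :=
  unit_four (Q_norm h hab)

lemma Q_mul_star {β : ZI} (h : Od β) {a : ZI} (hab : IsCoprime β a) : Q β a * star (Q β a) = 1 :=
  unit_star_mul (Q_norm h hab)

lemma pow_unit_congr {u : ZI} (hu : u.norm = 1) {m n : ℕ} (h : m % 4 = n % 4) : u ^ m = u ^ n := by
  have h1 : ∀ k : ℕ, u ^ k = u ^ (k % 4) := by
    intro k
    conv_lhs => rw [← Nat.div_add_mod k 4]
    rw [pow_add, pow_mul, unit_four hu, one_pow, one_mul]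
  rw [h1 m, h1 n, h]

/-- the symbol of a unit -/
lemma Q_unit {β : ZI} (h : Od β) {u : ZI} (hu : u.norm = 1) : Q β u = u ^ (nrm β / 4) := by
  induction β, h using Od.induction with
  | hu w hw =>
    have h1 : nrm w = 1 := by unfold nrm; rw [hw]; rfl
    rw [Q_unit_left hw, h1]
    rfl
  | hp π β hπ hβ ih =>
    rw [Q_mul_left hπ.ne hβ.ne, Q_prime hπ.pr, q4_unit hπ hu, ih, ← pow_add]
    apply pow_unit_congr hu
    have h1 := hπ.nrm_mod
    have h2 := hβ.nrm_mod
    rw [nrm_mul]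
    obtain ⟨k, hk⟩ : ∃ k, nrm π = 4 * k + 1 := ⟨nrm π / 4, by omega⟩
    obtain ⟨l, hl⟩ : ∃ l, nrm β = 4 * l + 1 := ⟨nrm β / 4, by omega⟩
    rw [hk, hl]
    have e : (4 * k + 1) * (4 * l + 1) = 4 * (4 * (k * l) + k + l) + 1 := by ring
    rw [e]
    omega

/-! ### rational arguments and moduli -/

lemma int_cop {a b : ℤ} (h : IsCoprime a b) : IsCoprime (a : ZI) (b : ZI) := by
  have := h.map (Int.castRingHom ZI)
  simpa using this

lemma nrm_prime {z : ZI} {p : ℕ} (hp : p.Prime) (h : z.norm = p) : Prime z := by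
  rw [← irreducible_iff_prime]
  refine ⟨?_, ?_⟩
  · intro hu
    rw [isUnit_iff_norm, h] at hu
    have := hp.one_lt
    omega
  · intro a b hab
    have h1 := congrArg Zsqrtd.norm hab
    rw [Zsqrtd.norm_mul, h] at h1
    have h2 : nrm a * nrm b = p := by
      have h3 : ((nrm a * nrm b : ℕ) : ℤ) = (p : ℤ) := by
        push_cast
        rw [nrm_cast, nrm_cast, ← h1]
      exact_mod_cast h3
    rcases Nat.prime_mul_iff.1 (h2 ▸ hp) with ⟨_, h4⟩ | ⟨_, h4⟩
    · right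
      rw [isUnit_iff_norm, ← nrm_cast, h4]; rfl
    · left
      rw [isUnit_iff_norm, ← nrm_cast, h4]; rfl

lemma split_exists {q : ℕ} (hq : q.Prime) (h1 : q % 4 = 1) :
    ∃ x : ZI, OP x ∧ x * star x = (q : ZI) ∧ x.norm = q := by
  have := Fact.mk hq
  obtain ⟨a, b, hab⟩ := Nat.Prime.sq_add_sq (p := q) (by omega)
  have hn : (⟨a, b⟩ : ZI).norm = q := by
    rw [norm_def']
    show (a : ℤ) ^ 2 + (b : ℤ) ^ 2 = q
    exact_mod_cast hab
  refine ⟨⟨a, b⟩, ⟨nrm_prime hq hn, ?_⟩, ?_, hn⟩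
  · rw [hn]; omega
  · rw [← Zsqrtd.norm_eq_mul_conj, hn]; simp

lemma inert_op {q : ℕ} (hq : q.Prime) (h3 : q % 4 = 3) : OP (q : ZI) := by
  have := Fact.mk hq
  refine ⟨GaussianInt.prime_of_nat_prime_of_mod_four_eq_three q h3, ?_⟩
  rw [Zsqrtd.norm_natCast]
  have : (q : ℤ) % 2 = 1 := by omega
  rw [Int.mul_emod, this]; rfl

lemma nrm_natCast (q : ℕ) : nrm (q : ZI) = q * q := by
  have h5 := nrm_cast (q : ZI)
  rw [Zsqrtd.norm_natCast] at h5
  exact_mod_cast h5

lemma inert_quarter {q : ℕ} (h3 : q % 4 = 3) :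
    ∃ k, q = 4 * k + 3 ∧ q * q / 4 = (4 * k + 2) * (k + 1) := by
  obtain ⟨k, hk⟩ : ∃ k, q = 4 * k + 3 := ⟨q / 4, by omega⟩
  refine ⟨k, hk, ?_⟩
  have h9 : q * q = 4 * ((4 * k + 2) * (k + 1)) + 1 := by
    rw [hk]; ring
  omega

lemma Q_split {q : ℕ} (_ : q.Prime) {x : ZI} (hx : OP x) (hxx : x * star x = (q : ZI)) (a : ZI) :
    Q (q : ZI) a = q4 x a * q4 (star x) a := by
  rw [← hxx, Q_mul_left hx.ne hx.star.ne, Q_prime hx.pr, Q_prime hx.star.pr]

lemma dvd_int_of_dvd {q : ℕ} {z : ZI} (hz : z ∣ (q : ZI)) {m : ℤ} (hm : (q : ℤ) ∣ m) :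
    z ∣ (m : ZI) := by
  obtain ⟨k, rfl⟩ := hm
  push_cast
  exact hz.mul_right _

lemma not_dvd_int {q : ℕ} (hq : q.Prime) {z : ZI} (hz : Prime z) (hzq : z ∣ (q : ZI)) {m : ℤ}
    (hm : ¬ (q : ℤ) ∣ m) : ¬ z ∣ (m : ZI) := by
  intro h
  have h1 : IsCoprime ((q : ℤ)) m := ((Nat.prime_iff_prime_int.1 hq).coprime_iff_not_dvd).2 hm
  have h2 := int_cop h1
  rw [Int.cast_natCast] at h2
  exact hz.not_isUnit (h2.isUnit_of_dvd' hzq h)

lemma Q_rat_prime {q : ℕ} (hq : q.Prime) (h2 : q ≠ 2) {m : ℤ} (hm : ¬ (q : ℤ) ∣ m) :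
    Q (q : ZI) (m : ZI) = 1 := by
  rcases (show q % 4 = 1 ∨ q % 4 = 3 by
    rcases hq.eq_two_or_odd with h | h
    · exact absurd h h2
    · omega) with h1 | h3
  · obtain ⟨x, hx, hxx, hn⟩ := split_exists hq h1
    rw [Q_split hq hx hxx]
    have e1 : q4 (star x) (m : ZI) = star (q4 x (m : ZI)) := by
      rw [← q4_star hx, star_intCast]
    rw [e1]
    apply unit_star_mul
    apply q4_norm hx
    exact not_dvd_int hq hx.pr ⟨star x, hxx.symm⟩ hm
  · have hP := inert_op hq h3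
    rw [Q_prime hP.pr]
    apply q4_eq hP (Or.inr (by decide))
    obtain ⟨k, hk, hk2⟩ := inert_quarter h3
    rw [nrm_natCast, hk2]
    have := Fact.mk hq
    have h5 : (q : ℤ) ∣ m ^ (q - 1) - 1 := by
      rw [← ZMod.intCast_zmod_eq_zero_iff_dvd]
      push_cast
      rw [ZMod.pow_card_sub_one_eq_one, sub_self]
      rw [Ne, ZMod.intCast_zmod_eq_zero_iff_dvd]
      exact hm
    have h6 : q - 1 = 4 * k + 2 := by omega
    rw [h6] at h5
    have h7 : (q : ℤ) ∣ m ^ ((4 * k + 2) * (k + 1)) - 1 := by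
      rw [pow_mul]
      have := sub_dvd_pow_sub_pow (m ^ (4 * k + 2)) 1 (k + 1)
      rw [one_pow] at this
      exact h5.trans this
    have h8 := dvd_int_of_dvd (z := (q : ZI)) dvd_rfl h7
    push_cast at h8
    exact h8

lemma odd_prime_mul {q n : ℕ} (hq : q.Prime) (h2 : q ≠ 2) (hn : n % 2 = 1) : (q * n) % 2 = 1 := by
  have ho : q % 2 = 1 := by
    rcases hq.eq_two_or_odd with h | h
    · exact absurd h h2
    · exact h
  rw [Nat.mul_mod, ho, hn]

lemma nat_ind {P : (n : ℕ) → n % 2 = 1 → Prop} (h1 : P 1 rfl)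
    (hp : ∀ (q n : ℕ) (hq : q.Prime) (h2 : q ≠ 2) (hn : n % 2 = 1), P n hn →
      P (q * n) (odd_prime_mul hq h2 hn))
    (n : ℕ) (hn : n % 2 = 1) : P n hn := by
  revert hn
  induction n using induction_on_primes with
  | zero => intro h; omega
  | one => intro _; exact h1
  | prime_mul q n hq ih =>
    intro h
    rw [Nat.mul_mod] at h
    rcases Nat.mod_two_eq_zero_or_one q with h2 | h2 <;>
      rcases Nat.mod_two_eq_zero_or_one n with h3 | h3 <;> rw [h2, h3] at h <;> norm_num at h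
    exact hp q n hq (by rintro rfl; omega) h3 (ih h3)

lemma od_nat {n : ℕ} (hn : n % 2 = 1) : Od (n : ZI) := by
  have := (od_int (n := (n : ℤ))).2 (by omega)
  simpa using this

/-- rational over rational is trivial -/
lemma Q_rat_nat {n : ℕ} (hn : n % 2 = 1) : ∀ {m : ℤ}, IsCoprime (n : ℤ) m → Q (n : ZI) (m : ZI) = 1 := by
  induction n, hn using nat_ind with
  | h1 =>
    intro m _
    rw [Nat.cast_one, Q_unit_left (by decide)]
  | hp q n hq h2 hn ih =>
    intro m hm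
    push_cast at hm ⊢
    have ho : q % 2 = 1 := by
      rcases hq.eq_two_or_odd with h | h
      · exact absurd h h2
      · exact h
    rw [Q_mul_left (od_nat ho).ne (od_nat hn).ne, ih hm.of_mul_left_right, Q_rat_prime hq h2, mul_one]
    exact ((Nat.prime_iff_prime_int.1 hq).coprime_iff_not_dvd).1 hm.of_mul_left_left

lemma Q_natAbs (n : ℤ) (a : ZI) : Q (n : ZI) a = Q ((n.natAbs : ℕ) : ZI) a := by
  rcases Int.natAbs_eq n with h | h
  · conv_lhs => rw [h]
    rw [Int.cast_natCast]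
  · conv_lhs => rw [h]
    rw [Int.cast_neg, Int.cast_natCast, Q_neg_left]

lemma Q_rat {n m : ℤ} (hn : n % 2 = 1) (h : IsCoprime n m) : Q (n : ZI) (m : ZI) = 1 := by
  rw [Q_natAbs]
  apply Q_rat_nat (by omega)
  rcases Int.natAbs_eq n with h1 | h1
  · rwa [← h1]
  · have : (n.natAbs : ℤ) = -n := by omega
    rw [this]
    exact h.neg_left

end Pool.Agent.R441.Q4
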