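import Pool.Agent.R441.Q4.C

/-!
Quartic reciprocity: a rational integer against a Gaussian integer.
-/

set_option autoImplicit false

namespace Pool.Agent.R441.Q4

open UniqueFactorizationMonoid

/-- odd norm and even imaginary part -/
structure Ev (β : ZI) : Prop where
  od : Od β
  im : β.im % 2 = 0

lemma Ev.re {β : ZI} (h : Ev β) : β.re % 2 = 1 := by
  have h1 := h.od
  unfold Od at h1
  rw [norm_def'] at h1
  obtain ⟨b, hb⟩ : ∃ b, β.im = 2 * b := ⟨β.im / 2, by have := h.im; omega⟩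
  rcases Int.emod_two_eq_zero_or_one β.re with h2 | h2
  · exfalso
    obtain ⟨a, ha⟩ : ∃ a, β.re = 2 * a := ⟨β.re / 2, by omega⟩
    rw [ha, hb] at h1
    ring_nf at h1
    omega
  · exact h2

lemma ev_of {β : ZI} (h1 : β.re % 2 = 1) (h2 : β.im % 2 = 0) : Ev β := by
  refine ⟨?_, h2⟩
  unfold Od
  rw [norm_def']
  obtain ⟨a, ha⟩ : ∃ a, β.re = 2 * a + 1 := ⟨β.re / 2, by omega⟩
  obtain ⟨b, hb⟩ : ∃ b, β.im = 2 * b := ⟨β.im / 2, by omega⟩
  rw [ha, hb]
  ring_nf
  omega

lemma Ev.mul {β γ : ZI} (h : Ev β) (h' : Ev γ) : Ev (β * γ) := by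
  refine ⟨od_mul.2 ⟨h.od, h'.od⟩, ?_⟩
  rw [Zsqrtd.im_mul]
  have h1 := h.im
  have h2 := h'.im
  obtain ⟨b, hb⟩ : ∃ b, β.im = 2 * b := ⟨β.im / 2, by omega⟩
  obtain ⟨c, hc⟩ : ∃ c, γ.im = 2 * c := ⟨γ.im / 2, by omega⟩
  rw [hb, hc]
  have : β.re * (2 * c) + 2 * b * γ.re = 2 * (β.re * c + b * γ.re) := by ring
  omega

lemma Ev.cancel {β γ : ZI} (h : Ev β) (h' : Ev (β * γ)) : Ev γ := by
  refine ⟨(od_mul.1 h'.od).2, ?_⟩
  have h1 := h'.im
  rw [Zsqrtd.im_mul] at h1
  have h2 := h.im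
  have h3 := h.re
  obtain ⟨b, hb⟩ : ∃ b, β.im = 2 * b := ⟨β.im / 2, by omega⟩
  obtain ⟨a, ha⟩ : ∃ a, β.re = 2 * a + 1 := ⟨β.re / 2, by omega⟩
  rw [hb, ha] at h1
  have : (2 * a + 1) * γ.im + 2 * b * γ.re = 2 * (a * γ.im + b * γ.re) + γ.im := by ring
  omega

lemma Ev.star {β : ZI} (h : Ev β) : Ev (star β) := by
  refine ⟨h.od.star, ?_⟩
  rw [Zsqrtd.im_star]
  have := h.im
  omega

lemma Ev.neg {β : ZI} (h : Ev β) : Ev (-β) := by
  refine ⟨h.od.neg, ?_⟩
  rw [Zsqrtd.im_neg]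
  have := h.im
  omega

lemma ev_one : Ev (1 : ZI) := ⟨by unfold Od; decide, by decide⟩

lemma ev_int {n : ℤ} (h : n % 2 = 1) : Ev (n : ZI) :=
  ⟨od_int.2 h, by rw [Zsqrtd.im_intCast]; rfl⟩

lemma exists_ev {β : ZI} (h : Od β) : ∃ w : ZI, w.norm = 1 ∧ Ev (w * β) := by
  rcases Int.emod_two_eq_zero_or_one β.im with h1 | h1
  · exact ⟨1, by decide, by rw [one_mul]; exact ⟨h, h1⟩⟩
  · refine ⟨im1, by decide, od_mul.2 ⟨od_unit (by decide), h⟩, ?_⟩
    rw [Zsqrtd.im_mul]
    simp only [im1]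
    unfold Od at h
    rw [norm_def'] at h
    obtain ⟨b, hb⟩ : ∃ b, β.im = 2 * b + 1 := ⟨β.im / 2, by omega⟩
    rcases Int.emod_two_eq_zero_or_one β.re with h2 | h2
    · omega
    · exfalso
      obtain ⟨a, ha⟩ : ∃ a, β.re = 2 * a + 1 := ⟨β.re / 2, by omega⟩
      rw [ha, hb] at h
      ring_nf at h
      omega

/-- induction over products of primes with even imaginary part -/
theorem Ev.induction {P : (β : ZI) → Ev β → Prop} (h1 : P 1 ev_one) (hn : P (-1) ev_one.neg)
    (hp : ∀ (π β : ZI) (_ : OP π) (he : Ev π) (hβ : Ev β), P β hβ → P (π * β) (he.mul hβ))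
    (β : ZI) (h : Ev β) : P β h := by
  have key : ∀ (γ : ZI) (_ : Od γ) (u : ZI) (_ : u.norm = 1) (h : Ev (u * γ)), P (u * γ) h := by
    intro γ hγ
    induction γ, hγ using Od.induction with
    | hu w hw =>
      intro u hu h
      have h2 : (u * w).norm = 1 := by rw [Zsqrtd.norm_mul, hu, hw]; rfl
      rcases unit_cases h2 with h3 | h3 | h3 | h3
      · simp only [h3]; exact h1
      · exfalso
        have := h.im
        rw [h3] at this
        exact absurd this (by decide)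
      · simp only [h3]; exact hn
      · exfalso
        have := h.im
        rw [h3] at this
        exact absurd this (by decide)
    | hp π γ hπ hγ ih =>
      intro u hu h
      obtain ⟨w, hw, he⟩ := exists_ev hπ.odd
      have e1 : u * (π * γ) = (w * π) * ((u * Star.star w) * γ) := by
        have := unit_star_mul hw
        linear_combination -(u * π * γ) * this
      have h3 : (u * Star.star w).norm = 1 := by
        rw [Zsqrtd.norm_mul, hu, Zsqrtd.norm_conj, hw]; rfl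
      have h4 : Ev ((u * Star.star w) * γ) := he.cancel (by rw [← e1]; exact h)
      have h5 : OP (w * π) := by
        refine ⟨?_, he.od⟩
        have hwu : IsUnit w := isUnit_iff_norm.2 hw
        exact (associated_unit_mul_left π w hwu).symm.prime hπ.pr
      simp only [e1]
      exact hp _ _ h5 he h4 (ih _ h3 h4)
  have := key β h.od 1 (by decide) (by rw [one_mul]; exact h)
  simp only [one_mul] at this
  exact this

/-! ### the rational prime below -/

lemma OP.ratp {π : ZI} (h : OP π) : ∃ p : ℕ, p.Prime ∧ p ≠ 2 ∧ π ∣ (p : ZI) := by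
  have key : ∀ n : ℕ, n ≠ 0 → π ∣ (n : ZI) → ∃ p : ℕ, p.Prime ∧ π ∣ (p : ZI) := by
    intro n
    induction n using Nat.recOnMul with
    | zero => intro h; exact absurd rfl h
    | one => intro _ h'; exact absurd (isUnit_of_dvd_one (by simpa using h')) h.pr.not_isUnit
    | prime p hp => intro _ h'; exact ⟨p, hp, h'⟩
    | mul a b iha ihb =>
      intro h0 h'
      push_cast at h'
      rcases h.pr.dvd_or_dvd h' with h4 | h4
      · exact iha (fun h => h0 (by rw [h, zero_mul])) h4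
      · exact ihb (fun h => h0 (by rw [h, mul_zero])) h4
  have h1 : ((nrm π : ℕ) : ZI) = π * Star.star π := by
    rw [← Zsqrtd.norm_eq_mul_conj, ← nrm_cast, Int.cast_natCast]
  have hn : nrm π ≠ 0 := by
    have := h.nrm_mod
    omega
  obtain ⟨p, hp, hpp⟩ := key _ hn (by rw [h1]; exact dvd_mul_right _ _)
  refine ⟨p, hp, ?_, hpp⟩
  rintro rfl
  exact h.not_dvd_two (by exact_mod_cast hpp)

lemma OP.cases {π : ZI} (h : OP π) : (∃ p : ℕ, p.Prime ∧ p % 4 = 1 ∧ π.norm = p) ∨
    (∃ q : ℕ, q.Prime ∧ q % 4 = 3 ∧ Associated π (q : ZI)) := by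
  obtain ⟨p, hp, h2, hd⟩ := h.ratp
  rcases (show p % 4 = 1 ∨ p % 4 = 3 by
    rcases hp.eq_two_or_odd with h | h
    · exact absurd h h2
    · omega) with h1 | h3
  · left
    obtain ⟨x, hx, hxx, hn⟩ := split_exists hp h1
    refine ⟨p, hp, h1, ?_⟩
    rw [← hxx] at hd
    rcases h.pr.dvd_or_dvd hd with h4 | h4
    · rw [norm_assoc (h.pr.associated_of_dvd hx.pr h4), hn]
    · rw [norm_assoc (h.pr.associated_of_dvd hx.star.pr h4), Zsqrtd.norm_conj, hn]
  · right
    exact ⟨p, hp, h3, h.pr.associated_of_dvd (inert_op hp h3).pr hd⟩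

/-- the sign making a number congruent to one modulo four -/
def s4 (n : ℤ) : ℤ := if n % 4 = 1 then 1 else -1

lemma s4_mul {m n : ℤ} (hm : m % 2 = 1) (hn : n % 2 = 1) : s4 (m * n) = s4 m * s4 n := by
  unfold s4
  have h1 : m % 4 = 1 ∨ m % 4 = 3 := by omega
  have h2 : n % 4 = 1 ∨ n % 4 = 3 := by omega
  rw [Int.mul_emod]
  rcases h1 with h1 | h1 <;> rcases h2 with h2 | h2 <;> rw [h1, h2] <;> rfl

theorem rec_pq {π : ZI} (h : OP π) (him : Ev π) {q : ℕ} (hq : q.Prime) (h2 : q ≠ 2)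
    (hd : ¬ π ∣ (q : ZI)) : q4 π (((s4 q * q : ℤ)) : ZI) = Q (q : ZI) π := by
  classical
  obtain ⟨p, hp, hp2, hpd⟩ := h.ratp
  have hpq : p ≠ q := by
    rintro rfl
    exact hd hpd
  obtain ⟨F, i1, i2, ρ, hR⟩ := h.res
  rcases (show q % 4 = 1 ∨ q % 4 = 3 by
    rcases hq.eq_two_or_odd with h | h
    · exact absurd h h2
    · omega) with h1 | h3
  · obtain ⟨x, hx, hxx, hn⟩ := split_exists hq h1
    rw [Q_split hq hx hxx]
    have e0 : s4 q = 1 := by unfold s4; rw [if_pos (by omega)]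
    obtain ⟨F₂, j1, j2, ρ₂, h₂⟩ := hx.res
    have hxq : x ∣ (q : ZI) := ⟨star x, hxx.symm⟩
    have k1 := hR.recA him.im h₂ (by
      rw [hR.char_eq hp hpd, h₂.char_eq hq hxq]
      exact hpq.symm)
    have hnx : nrm x = q := by
      have := nrm_cast x
      rw [hn] at this
      exact_mod_cast this
    have hxl : ¬ x ∣ π := by
      intro h'
      exact hd ((h.pr.associated_of_dvd hx.pr ((hx.pr.associated_of_dvd h.pr h').symm.dvd)).dvd.trans hxq)
    have hxl' : ¬ x ∣ star π := by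
      intro h'
      have h5 := star_dvd h'
      rw [star_star] at h5
      have h6 : star x ∣ (q : ZI) := ⟨x, by rw [mul_comm]; exact hxx.symm⟩
      exact hd (((hx.star.pr.associated_of_dvd h.pr h5).symm.dvd).trans h6)
    rw [hnx, q4_mul hx, q4_pow hx] at k1
    have k2 := q4_star hx (star π)
    rw [star_star] at k2
    rw [e0, k2, one_mul]
    have k3 := unit_four (q4_norm hx hxl)
    have k4 := unit_star_mul (q4_norm hx hxl')
    push_cast
    linear_combination (q4 x π * star (q4 x (star π))) * k1 -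
      q4 π (q : ZI) * q4 x π ^ 4 * k4 - q4 π (q : ZI) * k3
  · have hP := inert_op hq h3
    rw [Q_prime hP.pr]
    have e0 : s4 q = -1 := by unfold s4; rw [if_neg (by omega)]
    obtain ⟨F₂, j1, j2, ρ₂, h₂⟩ := hP.neg.res
    have k1 := hR.recB him.im hq h3 h₂ (by
      rw [hR.char_eq hp hpd, h₂.char_eq hq (neg_dvd.2 dvd_rfl)]
      exact hpq.symm) (h₂.char_eq hq (neg_dvd.2 dvd_rfl))
    rw [q4_assoc (Associated.refl (q : ZI)).neg_left] at k1
    rw [e0, ← k1]
    push_cast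
    congr 1
    ring

/-- composite rational, prime -/
theorem rec_np {π : ZI} (h : OP π) (him : Ev π) {n : ℕ} (hn : n % 2 = 1) :
    ¬ π ∣ (n : ZI) → q4 π (((s4 n * n : ℤ)) : ZI) = Q (n : ZI) π := by
  induction n, hn using nat_ind with
  | h1 =>
    intro _
    rw [Nat.cast_one, Q_unit_left (by decide)]
    have e : s4 1 = 1 := by simp [s4]
    rw [e, mul_one, Int.cast_one, q4_one h]
  | hp q n hq h2 hn ih =>
    intro hd
    push_cast at hd
    have ho : q % 2 = 1 := by
      rcases hq.eq_two_or_odd with h | h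
      · exact absurd h h2
      · exact h
    have e1 : s4 (((q * n : ℕ)) : ℤ) = s4 q * s4 n := by
      push_cast
      exact s4_mul (by omega) (by omega)
    have e2 : ((s4 (((q * n : ℕ)) : ℤ) * ((q * n : ℕ) : ℤ) : ℤ) : ZI) =
        ((s4 q * q : ℤ) : ZI) * ((s4 n * n : ℤ) : ZI) := by
      rw [e1]
      push_cast
      ring
    rw [e2, q4_mul h, rec_pq h him hq h2 (fun h' => hd (h'.mul_right _)),
      ih (fun h' => hd (h'.mul_left _)), Nat.cast_mul, Q_mul_left (od_nat ho).ne (od_nat hn).ne]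

lemma s4_natAbs {m : ℤ} (hm : m % 2 = 1) : s4 (m.natAbs : ℤ) * (m.natAbs : ℤ) = s4 m * m := by
  unfold s4
  rcases Int.natAbs_eq m with h3 | h3
  · rw [← h3]
  · have h4 : (m.natAbs : ℤ) = -m := by omega
    rw [h4]
    rcases (by omega : m % 4 = 1 ∨ m % 4 = 3) with h5 | h5
    · rw [if_neg (by omega), if_pos h5]; ring
    · rw [if_pos (by omega), if_neg (by omega)]; ring

/-- **quartic reciprocity** for a rational integer and a Gaussian integer -/
theorem rec_rat {n : ℤ} (hn : n % 2 = 1) {β : ZI} (hβ : Ev β) :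
    IsCoprime (n : ZI) β → Q β (((s4 n * n : ℤ)) : ZI) = Q (n : ZI) β := by
  rw [Q_natAbs, ← s4_natAbs hn]
  have hn' : n.natAbs % 2 = 1 := by omega
  induction β, hβ using Ev.induction with
  | h1 => intro _; rw [Q_unit_left (by decide), Q_one (od_nat hn')]
  | hn =>
    intro _
    rw [Q_unit_left (by decide)]
    have := Q_rat_nat hn' (m := -1) isCoprime_one_right.neg_right
    push_cast at this
    exact this.symm
  | hp π β hπ he hβ ih =>
    intro hc
    have hd : ¬ π ∣ ((n.natAbs : ℕ) : ZI) := by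
      intro h'
      have h2 : π ∣ (n : ZI) := by
        rcases Int.natAbs_eq n with h3 | h3
        · rw [h3, Int.cast_natCast]; exact h'
        · rw [h3, Int.cast_neg, Int.cast_natCast]; exact h'.neg_right
      exact hπ.pr.not_isUnit (hc.of_mul_right_left.isUnit_of_dvd' h2 dvd_rfl)
    rw [Q_mul_left hπ.ne hβ.od.ne, Q_prime hπ.pr, rec_np hπ he hn' hd, ih hc.of_mul_right_right,
      Q_mul (od_nat hn')]

/-- the character of `-1` -/
lemma nrm_quarter_parity {β : ZI} (h : Ev β) : (nrm β / 4) % 2 = 0 ↔ β.im % 4 = 0 := by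
  have h1 := h.re
  have h2 := h.im
  have h3 := nrm_cast β
  obtain ⟨a, ha⟩ : ∃ a, β.re = 2 * a + 1 := ⟨β.re / 2, by omega⟩
  obtain ⟨b, hb⟩ : ∃ b, β.im = 2 * b := ⟨β.im / 2, by omega⟩
  have h4 : (nrm β : ℤ) = 4 * (a * (a + 1)) + 4 * b ^ 2 + 1 := by
    rw [h3, norm_def', ha, hb]; ring
  have h5 : (a * (a + 1)) % 2 = 0 := Int.even_iff.1 (Int.even_mul_succ_self a)
  rcases Int.emod_two_eq_zero_or_one b with h6 | h6
  · have h7 : b ^ 2 % 2 = 0 := by rw [sq, Int.mul_emod, h6]; rfl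
    constructor
    · intro _; omega
    · intro _; omega
  · have h7 : b ^ 2 % 2 = 1 := by rw [sq, Int.mul_emod, h6]; rfl
    constructor
    · intro _; omega
    · intro _; omega

lemma Q_neg_one {β : ZI} (h : Ev β) : Q β (-1) = if β.im % 4 = 0 then 1 else -1 := by
  rw [Q_unit h.od (by decide)]
  split_ifs with h1
  · rw [Even.neg_one_pow]
    rw [Nat.even_iff]
    exact (nrm_quarter_parity h).2 h1
  · rw [Odd.neg_one_pow]
    rw [Nat.odd_iff]
    have := (nrm_quarter_parity h)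
    omega

theorem rec_rat' {n : ℤ} (hn : n % 2 = 1) {β : ZI} (hβ : Ev β) (hc : IsCoprime (n : ZI) β) :
    Q β (n : ZI) = Q (n : ZI) β * if n % 4 = 1 ∨ β.im % 4 = 0 then 1 else -1 := by
  rw [← rec_rat hn hβ hc]
  unfold s4
  by_cases h : n % 4 = 1
  · rw [if_pos h, if_pos (Or.inl h), one_mul, mul_one]
  · rw [if_neg h]
    have e : ((-1 * n : ℤ) : ZI) = (-1) * (n : ZI) := by push_cast; rfl
    rw [e, Q_mul hβ.od, Q_neg_one hβ]
    by_cases h2 : β.im % 4 = 0
    · rw [if_pos h2, if_pos (Or.inr h2)]; ring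
    · rw [if_neg h2, if_neg (by tauto)]; ring

end Pool.Agent.R441.Q4
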