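import Pool.Agent.R441.Q4.D

/-!
Quartic reciprocity in general, quadratic symbols as Jacobi symbols.
-/

set_option autoImplicit false
set_option linter.unusedSimpArgs false

namespace Pool.Agent.R441.Q4

lemma cop_int {m k : ℤ} (h : IsCoprime (m : ZI) (k : ZI)) : IsCoprime m k := by
  obtain ⟨u, v, huv⟩ := h
  refine ⟨u.re, v.re, ?_⟩
  have := congrArg Zsqrtd.re huv
  rw [Zsqrtd.re_add, Zsqrtd.re_mul, Zsqrtd.re_mul, Zsqrtd.re_intCast, Zsqrtd.im_intCast,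
    Zsqrtd.re_intCast, Zsqrtd.im_intCast, Zsqrtd.re_one] at this
  linarith

lemma eq_re_im (β : ZI) : β = (β.re : ZI) + (β.im : ZI) * im1 := by
  ext
  · simp [im1]
  · simp [im1]

lemma im1_unit : IsUnit im1 := isUnit_iff_norm.2 im1_norm

lemma cop_re {β : ZI} (h : IsCoprime β.re β.im) : IsCoprime ((β.re : ℤ) : ZI) β := by
  have h1 : IsCoprime ((β.re : ℤ) : ZI) ((β.im : ZI) * im1) :=
    (isCoprime_mul_unit_right_right im1_unit _ _).2 (int_cop h)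
  have h2 := IsCoprime.add_mul_left_right h1 1
  rw [mul_one] at h2
  have h3 : (β.im : ZI) * im1 + (β.re : ZI) = β := by
    conv_rhs => rw [eq_re_im β]
    ring
  rwa [h3] at h2

/-- the second supplementary sign -/
def e8 (n : ℤ) : ℤ := if n % 8 = 1 ∨ n % 8 = 7 then 1 else -1

lemma e8_sq (n : ℤ) : e8 n * e8 n = 1 := by unfold e8; split_ifs <;> norm_num

lemma e8_mul {m n : ℤ} (hm : m % 2 = 1) (hn : n % 2 = 1) : e8 (m * n) = e8 m * e8 n := by
  unfold e8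
  have h1 : m % 8 = 1 ∨ m % 8 = 3 ∨ m % 8 = 5 ∨ m % 8 = 7 := by omega
  have h2 : n % 8 = 1 ∨ n % 8 = 3 ∨ n % 8 = 5 ∨ n % 8 = 7 := by omega
  rw [Int.mul_emod]
  rcases h1 with h1 | h1 | h1 | h1 <;> rcases h2 with h2 | h2 | h2 | h2 <;> rw [h1, h2] <;> rfl

lemma Q_im_int {n : ℤ} (hn : n % 2 = 1) : Q (n : ZI) im1 = ((e8 n : ℤ) : ZI) := by
  have hod : Od (n : ZI) := od_int.2 hn
  rw [Q_unit hod im1_norm]
  have h1 : (nrm (n : ZI) : ℤ) = n * n := by rw [nrm_cast, Zsqrtd.norm_intCast]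
  obtain ⟨k, hk⟩ : ∃ k, n = 2 * k + 1 := ⟨n / 2, by omega⟩
  have h2 : (nrm (n : ZI) : ℤ) = 4 * (k * (k + 1)) + 1 := by rw [h1, hk]; ring
  have h3 : (k * (k + 1)) % 2 = 0 := Int.even_iff.1 (Int.even_mul_succ_self k)
  obtain ⟨j, hj⟩ : ∃ j : ℕ, nrm (n : ZI) / 4 = 2 * j := ⟨nrm (n : ZI) / 8, by omega⟩
  rw [hj, pow_mul, im1_sq]
  have h4 : ((2 * j : ℕ) : ℤ) = k * (k + 1) := by omega
  unfold e8
  have h5 : k % 4 = 0 ∨ k % 4 = 1 ∨ k % 4 = 2 ∨ k % 4 = 3 := by omega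
  have h6 : (k * (k + 1)) % 4 = (k % 4) * ((k + 1) % 4) % 4 := Int.mul_emod _ _ _
  rcases h5 with h5 | h5 | h5 | h5
  · have h7 : (k + 1) % 4 = 1 := by omega
    rw [h5, h7] at h6
    rw [if_pos (by omega), Even.neg_one_pow (by rw [Nat.even_iff]; omega)]; simp
  · have h7 : (k + 1) % 4 = 2 := by omega
    rw [h5, h7] at h6
    rw [if_neg (by omega), Odd.neg_one_pow (by rw [Nat.odd_iff]; omega)]; simp
  · have h7 : (k + 1) % 4 = 3 := by omega
    rw [h5, h7] at h6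
    rw [if_neg (by omega), Odd.neg_one_pow (by rw [Nat.odd_iff]; omega)]; simp
  · have h7 : (k + 1) % 4 = 0 := by omega
    rw [h5, h7] at h6
    rw [if_pos (by omega), Even.neg_one_pow (by rw [Nat.even_iff]; omega)]; simp

/-- the sign of a rational reciprocity -/
def s2 (n d : ℤ) : ℤ := if n % 4 = 1 ∨ d % 4 = 0 then 1 else -1

lemma rec_s2 {n : ℤ} (hn : n % 2 = 1) {β : ZI} (hβ : Ev β) (hc : IsCoprime (n : ZI) β) :
    Q β (n : ZI) = Q (n : ZI) β * ((s2 n β.im : ℤ) : ZI) := by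
  rw [rec_rat' hn hβ hc]
  unfold s2
  split_ifs <;> simp

lemma s2_sq (n d : ℤ) : s2 n d * s2 n d = 1 := by unfold s2; split_ifs <;> norm_num

/-- first sign exponent -/
def a0 (β : ZI) : ℕ := if (β.re + β.im) % 4 = 1 then 0 else 1
/-- second sign exponent -/
def a1 (β : ZI) : ℕ := if β.im % 4 = 0 then 0 else 1

/-- the reciprocity sign -/
def sg (α β : ZI) : ℤ := (-1) ^ (a0 α * a1 β + a1 α * a0 β + a1 α * a1 β)

lemma sg_sq (α β : ZI) : sg α β * sg α β = 1 := by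
  unfold sg
  rw [← mul_pow]; norm_num

lemma sg_comm (α β : ZI) : sg α β = sg β α := by
  unfold sg
  congr 1
  ring

lemma a0_mul {α β : ZI} (hα : Ev α) (hβ : Ev β) : a0 (α * β) % 2 = (a0 α + a0 β) % 2 := by
  have h1 := hα.re
  have h2 := hα.im
  have h3 := hβ.re
  have h4 := hβ.im
  unfold a0
  rw [Zsqrtd.re_mul, Zsqrtd.im_mul]
  obtain ⟨b, hb⟩ : ∃ b, α.im = 2 * b := ⟨α.im / 2, by omega⟩
  obtain ⟨d, hd⟩ : ∃ d, β.im = 2 * d := ⟨β.im / 2, by omega⟩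
  obtain ⟨s, hs⟩ : ∃ s, s = α.re + α.im := ⟨_, rfl⟩
  obtain ⟨t, ht⟩ : ∃ t, t = β.re + β.im := ⟨_, rfl⟩
  have e : α.re * β.re + -1 * α.im * β.im + (α.re * β.im + α.im * β.re) = s * t - 8 * (b * d) := by
    rw [hs, ht, hb, hd]; ring
  rw [e, ← hs, ← ht]
  have h5 : s % 4 = 1 ∨ s % 4 = 3 := by omega
  have h6 : t % 4 = 1 ∨ t % 4 = 3 := by omega
  have h7 : (s * t) % 4 = (s % 4) * (t % 4) % 4 := Int.mul_emod _ _ _
  rcases h5 with h5 | h5 <;> rcases h6 with h6 | h6 <;> rw [h5, h6] at h7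
  · rw [if_pos (by omega), if_pos h5, if_pos h6]
  · rw [if_neg (by omega), if_pos h5, if_neg (by omega)]
  · rw [if_neg (by omega), if_neg (by omega), if_pos h6]
  · rw [if_pos (by omega), if_neg (by omega), if_neg (by omega)]

lemma a1_mul {α β : ZI} (hα : Ev α) (hβ : Ev β) : a1 (α * β) % 2 = (a1 α + a1 β) % 2 := by
  have h1 := hα.re
  have h2 := hα.im
  have h3 := hβ.re
  have h4 := hβ.im
  unfold a1
  rw [Zsqrtd.im_mul]
  obtain ⟨b, hb⟩ : ∃ b, α.im = 2 * b := ⟨α.im / 2, by omega⟩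
  obtain ⟨d, hd⟩ : ∃ d, β.im = 2 * d := ⟨β.im / 2, by omega⟩
  obtain ⟨a, ha⟩ : ∃ a, α.re = 2 * a + 1 := ⟨α.re / 2, by omega⟩
  obtain ⟨c, hc⟩ : ∃ c, β.re = 2 * c + 1 := ⟨β.re / 2, by omega⟩
  have e : α.re * β.im + α.im * β.re = 4 * (a * d + b * c) + 2 * d + 2 * b := by
    rw [ha, hb, hc, hd]; ring
  rw [e, hb, hd]
  rcases Int.emod_two_eq_zero_or_one b with h5 | h5 <;>
    rcases Int.emod_two_eq_zero_or_one d with h6 | h6
  · rw [if_pos (by omega), if_pos (by omega), if_pos (by omega)]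
  · rw [if_neg (by omega), if_pos (by omega), if_neg (by omega)]
  · rw [if_neg (by omega), if_neg (by omega), if_pos (by omega)]
  · rw [if_pos (by omega), if_neg (by omega), if_neg (by omega)]

lemma neg_one_pow_congr {m n : ℕ} (h : m % 2 = n % 2) : ((-1 : ℤ)) ^ m = (-1) ^ n := by
  rw [neg_one_pow_eq_pow_mod_two, h, ← neg_one_pow_eq_pow_mod_two]

lemma sg_mul_left {α β γ : ZI} (hα : Ev α) (hβ : Ev β) : sg (α * β) γ = sg α γ * sg β γ := by
  unfold sg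
  rw [← pow_add]
  apply neg_one_pow_congr
  have h1 := a0_mul hα hβ
  have h2 := a1_mul hα hβ
  have e : ∀ x y z w v u : ℕ, x % 2 = (y + z) % 2 → w % 2 = (v + u) % 2 →
      (x * a1 γ + w * a0 γ + w * a1 γ) % 2 =
      (y * a1 γ + v * a0 γ + v * a1 γ + (z * a1 γ + u * a0 γ + u * a1 γ)) % 2 := by
    intro x y z w v u h h'
    have e1 : y * a1 γ + v * a0 γ + v * a1 γ + (z * a1 γ + u * a0 γ + u * a1 γ) =
      (y + z) * a1 γ + (v + u) * a0 γ + (v + u) * a1 γ := by ring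
    rw [e1]
    have k1 : (x * a1 γ) % 2 = ((y + z) * a1 γ) % 2 := by rw [Nat.mul_mod, h, ← Nat.mul_mod]
    have k2 : (w * a0 γ) % 2 = ((v + u) * a0 γ) % 2 := by rw [Nat.mul_mod, h', ← Nat.mul_mod]
    have k3 : (w * a1 γ) % 2 = ((v + u) * a1 γ) % 2 := by rw [Nat.mul_mod, h', ← Nat.mul_mod]
    omega
  exact e _ _ _ _ _ _ h1 h2

lemma sg_mul_right {α β γ : ZI} (hα : Ev α) (hβ : Ev β) : sg γ (α * β) = sg γ α * sg γ β := by
  rw [sg_comm, sg_mul_left hα hβ, sg_comm α, sg_comm β]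

lemma sg_int {n : ℤ} (β : ZI) : sg (n : ZI) β = s2 n β.im := by
  unfold sg s2 a0 a1
  rw [Zsqrtd.re_intCast, Zsqrtd.im_intCast]
  simp only [add_zero]
  by_cases h : n % 4 = 1 <;> by_cases h' : β.im % 4 = 0 <;> simp [h, h']

lemma rec_aux {a b c d : ℤ} (ha : a % 2 = 1) (hb : b % 2 = 0) (hc : c % 2 = 1) (hd : d % 2 = 0) :
    s2 c d * e8 c * (s2 a b * e8 a) * (s2 (a * c + b * d) d * s2 (a * c + b * d) b) *
      e8 (a * c + b * d) = (-1) ^ ((if (a + b) % 4 = 1 then 0 else 1) * (if d % 4 = 0 then 0 else 1) +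
        (if b % 4 = 0 then 0 else 1) * (if (c + d) % 4 = 1 then 0 else 1) +
        (if b % 4 = 0 then 0 else 1) * (if d % 4 = 0 then 0 else 1)) := by
  unfold e8 s2
  have hbd : (b * d) % 8 = if b % 4 = 0 ∨ d % 4 = 0 then 0 else 4 := by
    obtain ⟨b', hb'⟩ : ∃ b', b = 2 * b' := ⟨b / 2, by omega⟩
    obtain ⟨d', hd'⟩ : ∃ d', d = 2 * d' := ⟨d / 2, by omega⟩
    have e1 : b * d = 4 * (b' * d') := by rw [hb', hd']; ring
    rw [e1]
    have e2 := Int.mul_emod b' d' 2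
    rcases Int.emod_two_eq_zero_or_one b' with h | h <;> rcases Int.emod_two_eq_zero_or_one d' with h' | h' <;>
      rw [h, h'] at e2
    · rw [if_pos (by omega)]; omega
    · rw [if_pos (by omega)]; omega
    · rw [if_pos (by omega)]; omega
    · rw [if_neg (by omega)]; omega
  have hac := Int.mul_emod a c 8
  have hn8 : (a * c + b * d) % 8 = ((a * c) % 8 + (b * d) % 8) % 8 := Int.add_emod _ _ _
  have hn4 : (a * c + b * d) % 4 = ((a * c + b * d) % 8) % 4 := by omega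
  have ha4 : a % 4 = (a % 8) % 4 := by omega
  have hc4 : c % 4 = (c % 8) % 4 := by omega
  have hab : (a + b) % 4 = (a % 8 + b % 4) % 4 := by omega
  have hcd : (c + d) % 4 = (c % 8 + d % 4) % 4 := by omega
  have h1 : a % 8 = 1 ∨ a % 8 = 3 ∨ a % 8 = 5 ∨ a % 8 = 7 := by omega
  have h2 : c % 8 = 1 ∨ c % 8 = 3 ∨ c % 8 = 5 ∨ c % 8 = 7 := by omega
  have h3 : b % 4 = 0 ∨ b % 4 = 2 := by omega
  have h4 : d % 4 = 0 ∨ d % 4 = 2 := by omega
  rw [hn4, hn8, hac, hbd, ha4, hc4, hab, hcd]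
  rcases h1 with h1 | h1 | h1 | h1 <;> rcases h2 with h2 | h2 | h2 | h2 <;>
    rcases h3 with h3 | h3 <;> rcases h4 with h4 | h4 <;> rw [h1, h2, h3, h4] <;> decide

lemma cop_congr {m a b : ZI} (h : m ∣ a - b) (hc : IsCoprime m a) : IsCoprime m b := by
  obtain ⟨k, hk⟩ := h
  have : b = a + m * (-k) := by linear_combination -hk
  rw [this]
  exact (IsCoprime.add_mul_left_right_iff).2 hc

lemma one_of_sq {x : ℤ} (h : x * x = 1) : (x : ZI) * (x : ZI) = 1 := by exact_mod_cast h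

/-- reciprocity for primitive numbers -/
theorem rec_prim {α β : ZI} (hα : Ev α) (hβ : Ev β) (pα : IsCoprime α.re α.im)
    (pβ : IsCoprime β.re β.im) (hc : IsCoprime α β) :
    Q β α = Q α β * ((sg α β : ℤ) : ZI) := by
  have a1' := hα.re
  have a2' := hα.im
  have a3' := hβ.re
  have a4' := hβ.im
  have na := cop_re pα
  have nc := cop_re pβ
  obtain ⟨a, ha⟩ : ∃ a, a = α.re := ⟨_, rfl⟩
  obtain ⟨b, hbdef⟩ : ∃ b, b = α.im := ⟨_, rfl⟩
  obtain ⟨c, hc'⟩ : ∃ c, c = β.re := ⟨_, rfl⟩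
  obtain ⟨d, hddef⟩ : ∃ d, d = β.im := ⟨_, rfl⟩
  obtain ⟨n, hn⟩ : ∃ n, n = a * c + b * d := ⟨_, rfl⟩
  rw [← ha] at a1' na pα
  rw [← hbdef] at a2' pα
  rw [← hc'] at a3' nc pβ
  rw [← hddef] at a4' pβ
  have e1 : (c : ZI) * α - (n : ZI) = β * ((b : ZI) * im1) := by
    ext
    · simp only [Zsqrtd.re_sub, Zsqrtd.re_mul, Zsqrtd.im_mul, Zsqrtd.re_intCast, Zsqrtd.im_intCast]
      simp only [im1, hn, ha, hbdef, hc', hddef]; ring
    · simp only [Zsqrtd.im_sub, Zsqrtd.re_mul, Zsqrtd.im_mul, Zsqrtd.re_intCast, Zsqrtd.im_intCast]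
      simp only [im1, hn, ha, hbdef, hc', hddef]; ring
  have e2 : (a : ZI) * β - (n : ZI) = α * ((d : ZI) * im1) := by
    ext
    · simp only [Zsqrtd.re_sub, Zsqrtd.re_mul, Zsqrtd.im_mul, Zsqrtd.re_intCast, Zsqrtd.im_intCast]
      simp only [im1, hn, ha, hbdef, hc', hddef]; ring
    · simp only [Zsqrtd.im_sub, Zsqrtd.re_mul, Zsqrtd.im_mul, Zsqrtd.re_intCast, Zsqrtd.im_intCast]
      simp only [im1, hn, ha, hbdef, hc', hddef]; ring
  have nβn : IsCoprime β (n : ZI) :=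
    cop_congr (a := (c : ZI) * α) ⟨_, e1⟩ (IsCoprime.mul_right nc.symm hc.symm)
  have nαn : IsCoprime α (n : ZI) :=
    cop_congr (a := (a : ZI) * β) ⟨_, e2⟩ (IsCoprime.mul_right na.symm hc)
  have no : n % 2 = 1 := by
    obtain ⟨a', ha'⟩ : ∃ a', a = 2 * a' + 1 := ⟨a / 2, by omega⟩
    obtain ⟨c', hc'⟩ : ∃ c', c = 2 * c' + 1 := ⟨c / 2, by omega⟩
    obtain ⟨b', hb'⟩ : ∃ b', b = 2 * b' := ⟨b / 2, by omega⟩
    have : n = 2 * (2 * (a' * c') + a' + c' + b' * d) + 1 := by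
      rw [hn, ha', hc', hb']; ring
    omega
  have p1 : Q β (c : ZI) * Q β α = Q β (n : ZI) := by
    rw [← Q_mul hβ.od]
    exact Q_per hβ.od ⟨_, e1⟩
  have p2 : Q α (a : ZI) * Q α β = Q α (n : ZI) := by
    rw [← Q_mul hα.od]
    exact Q_per hα.od ⟨_, e2⟩
  rw [rec_s2 a3' hβ nc, rec_s2 no hβ nβn.symm, ← hddef] at p1
  rw [rec_s2 a1' hα na, rec_s2 no hα nαn.symm, ← hbdef] at p2
  -- the values of the rational symbols
  have od_c : Od (c : ZI) := od_int.2 a3'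
  have od_a : Od (a : ZI) := od_int.2 a1'
  have od_n : Od (n : ZI) := od_int.2 no
  have r1 : Q (c : ZI) β = ((e8 c : ℤ) : ZI) := by
    have h1 : Q (c : ZI) β = Q (c : ZI) ((d : ZI) * im1) := by
      apply Q_per od_c
      refine ⟨1, ?_⟩
      conv_lhs => rw [eq_re_im β]
      rw [← hc', ← hddef]; ring
    rw [h1, Q_mul od_c, Q_im_int a3', Q_rat a3' pβ, one_mul]
  have r2 : Q (a : ZI) α = ((e8 a : ℤ) : ZI) := by
    have h1 : Q (a : ZI) α = Q (a : ZI) ((b : ZI) * im1) := by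
      apply Q_per od_a
      refine ⟨1, ?_⟩
      conv_lhs => rw [eq_re_im α]
      rw [← ha, ← hbdef]; ring
    rw [h1, Q_mul od_a, Q_im_int a1', Q_rat a1' pα, one_mul]
  have r3 : Q (n : ZI) β * star (Q (n : ZI) α) = ((e8 n : ℤ) : ZI) := by
    have h2 : β * star α - ((a * d - b * c : ℤ) : ZI) * im1 = (n : ZI) := by
      ext
      · simp only [Zsqrtd.re_sub, Zsqrtd.re_mul, Zsqrtd.im_mul, Zsqrtd.re_intCast, Zsqrtd.im_intCast,
          Zsqrtd.re_star, Zsqrtd.im_star]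
        simp only [im1, ha, hbdef, hc', hddef, hn]; ring
      · simp only [Zsqrtd.im_sub, Zsqrtd.re_mul, Zsqrtd.im_mul, Zsqrtd.re_intCast, Zsqrtd.im_intCast,
          Zsqrtd.re_star, Zsqrtd.im_star]
        simp only [im1, ha, hbdef, hc', hddef, hn]; ring
    have h1 : Q (n : ZI) (β * star α) = Q (n : ZI) (((a * d - b * c : ℤ) : ZI) * im1) := by
      apply Q_per od_n
      rw [h2]
    have h3 : Q (n : ZI) (star α) = star (Q (n : ZI) α) := by
      rw [← Q_star od_n, star_intCast]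
    have h4 : IsCoprime (n : ZI) (star α) := by
      have := nαn.map (starRingEnd ZI)
      simp only [starRingEnd_apply, star_intCast] at this
      exact this.symm
    have h5 : IsCoprime (n : ZI) (((a * d - b * c : ℤ) : ZI) * im1) :=
      cop_congr (a := β * star α) (by rw [h2]) (IsCoprime.mul_right nβn.symm h4)
    have h6 : IsCoprime n (a * d - b * c) := cop_int h5.of_mul_right_left
    rw [← h3, ← Q_mul od_n, h1, Q_mul od_n, Q_im_int no, Q_rat no h6, one_mul]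
  rw [r1] at p1
  rw [r2] at p2
  have key := rec_aux a1' a2' a3' a4'
  rw [← hn] at key
  have key2 : sg α β = s2 c d * e8 c * (s2 a b * e8 a) * (s2 n d * s2 n b) * e8 n := by
    rw [key]
    unfold sg a0 a1
    rw [← ha, ← hbdef, ← hc', ← hddef]
  rw [key2]
  have hX1 := one_of_sq (s2_sq c d)
  have hX2 := one_of_sq (e8_sq c)
  have hX3 := one_of_sq (s2_sq a b)
  have hX4 := one_of_sq (e8_sq a)
  have hX5 := one_of_sq (s2_sq n d)
  have hX6 := one_of_sq (s2_sq n b)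
  have hX7 := one_of_sq (e8_sq n)
  have hu := Q_mul_star od_n nαn.symm
  have hv := Q_mul_star hα.od hc
  have q1 : Q β α = (s2 c d : ZI) * (e8 c : ZI) * (Q (n : ZI) β * (s2 n d : ZI)) := by
    rw [← p1]
    linear_combination -(Q β α * (e8 c : ZI) * (e8 c : ZI)) * hX1 - Q β α * hX2
  have q2 : Q α β = (s2 a b : ZI) * (e8 a : ZI) * (Q (n : ZI) α * (s2 n b : ZI)) := by
    rw [← p2]
    linear_combination -(Q α β * (e8 a : ZI) * (e8 a : ZI)) * hX3 - Q α β * hX4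
  have q3 : Q (n : ZI) β = (e8 n : ZI) * Q (n : ZI) α := by
    rw [← r3]
    linear_combination -(Q (n : ZI) β) * hu
  rw [q1, q2, q3]
  push_cast
  linear_combination -((s2 c d : ZI) * (e8 c : ZI) * (e8 n : ZI) * Q (n : ZI) α * (s2 n d : ZI)) *
    ((e8 a : ZI) ^ 2 * (s2 n b : ZI) ^ 2 * hX3 + (s2 n b : ZI) ^ 2 * hX4 + hX6)

lemma prim_decomp {α : ZI} (h : α ≠ 0) : ∃ (g : ℤ) (α' : ZI), α = (g : ZI) * α' ∧
    IsCoprime α'.re α'.im := by
  have h0 : 0 < Int.gcd α.re α.im := by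
    rw [Nat.pos_iff_ne_zero, Ne, Int.gcd_eq_zero_iff]
    rintro ⟨h1, h2⟩
    exact h (Zsqrtd.ext h1 h2)
  obtain ⟨m', n', h1, h2, h3⟩ := Int.exists_gcd_one h0
  refine ⟨Int.gcd α.re α.im, ⟨m', n'⟩, ?_, Int.isCoprime_iff_gcd_eq_one.2 h1⟩
  ext
  · rw [Zsqrtd.re_mul, Zsqrtd.re_intCast, Zsqrtd.im_intCast]
    show α.re = _ * m' + _
    linarith
  · rw [Zsqrtd.im_mul, Zsqrtd.re_intCast, Zsqrtd.im_intCast]
    show α.im = _ * n' + _
    linarith

lemma ev_decomp {α : ZI} (h : Ev α) : ∃ (g : ℤ) (α' : ZI), α = (g : ZI) * α' ∧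
    IsCoprime α'.re α'.im ∧ g % 2 = 1 ∧ Ev α' := by
  obtain ⟨g, α', h1, h2⟩ := prim_decomp h.od.ne
  have h3 : g % 2 = 1 := od_int.1 (od_of_dvd h.od ⟨_, h1⟩)
  exact ⟨g, α', h1, h2, h3, (ev_int h3).cancel (by rw [← h1]; exact h)⟩

/-- **the quartic reciprocity law** -/
theorem rec_gen {α β : ZI} (hα : Ev α) (hβ : Ev β) (hc : IsCoprime α β) :
    Q β α = Q α β * ((sg α β : ℤ) : ZI) := by
  obtain ⟨g, α', rfl, pα, hg, hα'⟩ := ev_decomp hα
  obtain ⟨k, β', rfl, pβ, hk, hβ'⟩ := ev_decomp hβ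
  have c1 : IsCoprime (g : ZI) ((k : ZI) * β') := hc.of_mul_left_left
  have c2 : IsCoprime α' (k : ZI) := hc.of_mul_left_right.of_mul_right_left
  have c3 : IsCoprime α' β' := hc.of_mul_left_right.of_mul_right_right
  have hkβ : Ev ((k : ZI) * β') := (ev_int hk).mul hβ'
  rw [Q_mul hkβ.od, rec_s2 hg hkβ c1, Q_mul_left (ev_int hk).od.ne hβ'.od.ne α',
    rec_prim hα' hβ' pα pβ c3, Q_mul_left (ev_int hg).od.ne hα'.od.ne,
    sg_mul_left (ev_int hg) hα', sg_int, sg_mul_right (ev_int hk) hβ', Q_mul hα'.od,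
    rec_s2 hk hα' c2.symm, sg_comm α' k, sg_int]
  have h1 := one_of_sq (s2_sq k α'.im)
  push_cast
  linear_combination -(Q (g : ZI) ((k : ZI) * β') * (s2 g ((k : ZI) * β').im : ZI) *
    Q (k : ZI) α' * Q α' β' * (sg α' β' : ZI)) * h1

/-- the quadratic reciprocity law -/
theorem rec_quad {α β : ZI} (hα : Ev α) (hβ : Ev β) (hc : IsCoprime α β) :
    Q β α ^ 2 = Q α β ^ 2 := by
  rw [rec_gen hα hβ hc, mul_pow]
  have := one_of_sq (sg_sq α β)
  linear_combination Q α β ^ 2 * this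

end Pool.Agent.R441.Q4
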