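import Pool.Agent.R441.Q4.E

/-!
Quadratic symbols as Jacobi symbols, the symbols of `1 + i`.
-/

set_option autoImplicit false
set_option linter.unusedSimpArgs false

namespace Pool.Agent.R441.Q4

lemma Q_sq_val {β : ZI} (h : Od β) (a : ZI) : Val4 (Q β a ^ 2) := (Q_val β h a).pow 2

lemma val_int {x : ℤ} (hx : x = 0 ∨ x = 1 ∨ x = -1) : Val4 (x : ZI) := by
  rcases hx with h | h | h <;> rw [h]
  · left; simp
  · right; decide
  · right; decide

lemma jac_cases (a : ℤ) (n : ℕ) : jacobiSym a n = 0 ∨ jacobiSym a n = 1 ∨ jacobiSym a n = -1 :=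
  jacobiSym.trichotomy a n

lemma leg_dvd {p : ℕ} (hp : p.Prime) (m : ℤ) : (p : ℤ) ∣ m ^ (p / 2) - jacobiSym m p := by
  have := Fact.mk hp
  rw [← jacobiSym.legendreSym.to_jacobiSym, ← ZMod.intCast_zmod_eq_zero_iff_dvd]
  push_cast
  rw [legendreSym.eq_pow, sub_self]

lemma sq_rat_split {π : ZI} (h : OP π) {p : ℕ} (hp : p.Prime) (hn : π.norm = p) (m : ℤ) :
    q4 π (m : ZI) ^ 2 = ((jacobiSym m p : ℤ) : ZI) := by
  apply h.eq_val ((q4_val _ _).pow 2) (val_int (jac_cases m p))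
  have hnn : nrm π = p := by
    have := nrm_cast π
    rw [hn] at this
    exact_mod_cast this
  have h1 := q4_dvd h (m : ZI)
  have h2 : π ∣ ((m : ZI) ^ (nrm π / 4)) ^ 2 - q4 π (m : ZI) ^ 2 := h1.trans (sub_dvd_pow_sub_pow _ _ 2)
  have h3 := h.nrm_mod
  have e1 : nrm π / 4 * 2 = p / 2 := by omega
  rw [← pow_mul, e1] at h2
  have hpd : π ∣ (p : ZI) := by
    refine ⟨star π, ?_⟩
    rw [← Zsqrtd.norm_eq_mul_conj, hn]; simp
  have h4 := dvd_int_of_dvd hpd (leg_dvd hp m)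
  push_cast at h4
  have h5 := dvd_sub h4 h2
  have e : (m : ZI) ^ (p / 2) - (jacobiSym m p : ZI) - ((m : ZI) ^ (p / 2) - q4 π (m : ZI) ^ 2) =
    q4 π (m : ZI) ^ 2 - (jacobiSym m p : ZI) := by ring
  rwa [e] at h5

/-- the quadratic symbol of a rational integer -/
theorem sq_rat {β : ZI} (h : Od β) (m : ℤ) : Q β (m : ZI) ^ 2 = ((jacobiSym m (nrm β) : ℤ) : ZI) := by
  induction β, h using Od.induction with
  | hu u hu =>
    have : nrm u = 1 := by unfold nrm; rw [hu]; rfl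
    rw [Q_unit_left hu, this, jacobiSym.one_right]; simp
  | hp π β hπ hβ ih =>
    have h1 := hπ.nrm_mod
    have h2 := hβ.nrm_mod
    rw [Q_mul_left hπ.ne hβ.ne, nrm_mul, jacobiSym.mul_right' _ (by omega) (by omega), mul_pow, ih,
      Q_prime hπ.pr]
    push_cast
    congr 1
    rcases hπ.cases with ⟨p, hp, h4, hn⟩ | ⟨q, hq, h4, ha⟩
    · have hnn : nrm π = p := by
        have := nrm_cast π
        rw [hn] at this
        exact_mod_cast this
      rw [hnn, sq_rat_split hπ hp hn]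
    · rw [nrm_assoc ha, nrm_natCast, jacobiSym.mul_right' _ (by omega) (by omega), q4_assoc ha]
      by_cases hm : (q : ℤ) ∣ m
      · rw [q4_zero (dvd_int_of_dvd dvd_rfl hm)]
        have : jacobiSym m q = 0 := by
          rw [jacobiSym.eq_zero_iff]
          refine ⟨by omega, ?_⟩
          intro hc
          have h8 := (Int.isCoprime_iff_gcd_eq_one.2 hc).isUnit_of_dvd' hm dvd_rfl
          have h9 := Int.isUnit_iff.1 h8
          have := hq.one_lt
          omega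
        rw [this]; simp
      · have h6 := Q_rat_prime hq (by omega) hm
        rw [Q_prime (inert_op hq h4).pr] at h6
        rw [h6]
        have h7 : jacobiSym m q = 1 ∨ jacobiSym m q = -1 := by
          apply jacobiSym.eq_one_or_neg_one
          have : IsCoprime (q : ℤ) m := ((Nat.prime_iff_prime_int.1 hq).coprime_iff_not_dvd).2 hm
          exact Int.isCoprime_iff_gcd_eq_one.1 this.symm
        rcases h7 with h7 | h7 <;> rw [h7] <;> simp

lemma star_sq_q4 {π : ZI} (a : ZI) : star (q4 π a ^ 2) = q4 π a ^ 2 := by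
  rcases (q4_val π a).list with h | h | h | h | h <;> rw [h] <;> decide

/-- the quadratic symbol over a rational integer, prime case -/
lemma sq_norm_prime {q : ℕ} (hq : q.Prime) (h2 : q ≠ 2) (α : ZI) :
    Q (q : ZI) α ^ 2 = ((jacobiSym α.norm q : ℤ) : ZI) := by
  rcases (show q % 4 = 1 ∨ q % 4 = 3 by
    rcases hq.eq_two_or_odd with h | h
    · exact absurd h h2
    · omega) with h1 | h3
  · obtain ⟨x, hx, hxx, hn⟩ := split_exists hq h1
    rw [Q_split hq hx hxx, mul_pow]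
    have e1 : q4 (star x) α ^ 2 = q4 x (star α) ^ 2 := by
      have := q4_star hx (star α)
      rw [star_star] at this
      rw [this, ← star_pow, star_sq_q4]
    rw [e1, ← mul_pow, ← q4_mul hx, ← Zsqrtd.norm_eq_mul_conj, sq_rat_split hx hq hn]
  · have hP := inert_op hq h3
    rw [Q_prime hP.pr]
    apply hP.eq_val ((q4_val _ _).pow 2) (val_int (jac_cases _ q))
    obtain ⟨F, i1, i2, ρ, hR⟩ := hP.res
    have hcq : ringChar F = q := hR.char_eq hq dvd_rfl
    have hrc : CharP F q := by rw [← hcq]; exact ringChar.charP F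
    rw [← hR.ker, map_sub, map_pow, hR.rho_q4, nrm_natCast, sub_eq_zero, map_intCast]
    have h4 := leg_dvd hq α.norm
    have h5 := (CharP.intCast_eq_zero_iff F q _).2 h4
    push_cast at h5
    rw [sub_eq_zero] at h5
    rw [← h5]
    have h6 : ((α.norm : ℤ) : F) = ρ α ^ (q + 1) := by
      have e2 : ρ ((α.norm : ℤ) : ZI) = ((α.norm : ℤ) : F) := map_intCast ρ _
      rw [← e2, Zsqrtd.norm_eq_mul_conj, map_mul, inert_frob hq h3 ρ α]
      ring
    rw [h6, ← pow_mul, ← pow_mul]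
    congr 1
    obtain ⟨k, hk, hk2⟩ := inert_quarter h3
    rw [hk2, hk]
    have : (4 * k + 3) / 2 = 2 * k + 1 := by omega
    rw [this]
    ring

/-- the quadratic symbol over a rational integer -/
theorem sq_norm_nat {n : ℕ} (hn : n % 2 = 1) (α : ZI) :
    Q (n : ZI) α ^ 2 = ((jacobiSym α.norm n : ℤ) : ZI) := by
  induction n, hn using nat_ind with
  | h1 => rw [Nat.cast_one, Q_unit_left (by decide), jacobiSym.one_right]; simp
  | hp q n hq h2 hn ih =>
    have ho : q % 2 = 1 := by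
      rcases hq.eq_two_or_odd with h | h
      · exact absurd h h2
      · exact h
    push_cast
    rw [Q_mul_left (od_nat ho).ne (od_nat hn).ne, mul_pow, ih, sq_norm_prime hq h2,
      jacobiSym.mul_right' _ (by omega) (by omega)]
    push_cast
    rfl

theorem sq_norm {n : ℤ} (hn : n % 2 = 1) (α : ZI) :
    Q (n : ZI) α ^ 2 = ((jacobiSym α.norm n.natAbs : ℤ) : ZI) := by
  rw [Q_natAbs, sq_norm_nat (by omega)]

/-! ### the symbol of `1 + i` -/

/-- `1 + i` -/
def oi : ZI := ⟨1, 1⟩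

lemma oi_sq : oi ^ 2 = 2 * im1 := by decide

lemma e8_natAbs (n : ℤ) : e8 (n.natAbs : ℤ) = e8 n := by
  unfold e8
  rcases Int.natAbs_eq n with h | h
  · rw [← h]
  · have : (n.natAbs : ℤ) = -n := by omega
    rw [this]
    by_cases h1 : n % 8 = 1 ∨ n % 8 = 7
    · rw [if_pos h1, if_pos (by omega)]
    · rw [if_neg h1, if_neg (by omega)]

lemma jac_two {n : ℕ} (hn : n % 2 = 1) : jacobiSym 2 n = e8 n := by
  rw [jacobiSym.at_two (Nat.odd_iff.2 hn)]
  unfold e8
  have h1 : n % 8 = 1 ∨ n % 8 = 3 ∨ n % 8 = 5 ∨ n % 8 = 7 := by omega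
  have h2 : ((n : ℕ) : ZMod 8) = ((n % 8 : ℕ) : ZMod 8) := by simp
  rw [h2]
  rcases h1 with h | h | h | h <;> rw [h]
  · rw [if_pos (by omega)]; decide
  · rw [if_neg (by omega)]; decide
  · rw [if_neg (by omega)]; decide
  · rw [if_pos (by omega)]; decide

lemma sq_oi_int {n : ℤ} (hn : n % 2 = 1) : Q (n : ZI) oi ^ 2 = ((e8 n : ℤ) : ZI) := by
  rw [sq_norm hn]
  have : oi.norm = 2 := by decide
  rw [this, jac_two (by omega), e8_natAbs]

lemma od_sub_pr {β : ZI} (hβ : Ev β) : (β.re + β.im) % 2 = 1 := by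
  have h1 := hβ.re
  have h2 := hβ.im
  omega

lemma sq_oi_prim {β : ZI} (hβ : Ev β) (pβ : IsCoprime β.re β.im) :
    Q β oi ^ 2 = ((e8 (β.re + β.im) : ℤ) : ZI) := by
  obtain ⟨c, hc⟩ : ∃ c, c = β.re := ⟨_, rfl⟩
  obtain ⟨d, hd⟩ : ∃ d, d = β.im := ⟨_, rfl⟩
  have hco := hβ.re
  have hde := hβ.im
  have nc := cop_re pβ
  rw [← hc] at nc hco pβ
  rw [← hd] at hde pβ
  have e1 : (c : ZI) * oi - ((c + d : ℤ) : ZI) = β * im1 := by
    ext
    · simp only [Zsqrtd.re_sub, Zsqrtd.re_mul, Zsqrtd.im_mul, Zsqrtd.re_intCast, Zsqrtd.im_intCast]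
      simp only [im1, oi, hc, hd]; ring
    · simp only [Zsqrtd.im_sub, Zsqrtd.re_mul, Zsqrtd.im_mul, Zsqrtd.re_intCast, Zsqrtd.im_intCast]
      simp only [im1, oi, hc, hd]; ring
  have hm : (c + d) % 2 = 1 := by omega
  have od_m : Od ((c + d : ℤ) : ZI) := od_int.2 hm
  have od_c : Od (c : ZI) := od_int.2 hco
  have pm : IsCoprime (c + d) d := by
    have := (IsCoprime.add_mul_left_left_iff (x := c) (y := d) (z := 1)).2 pβ
    rwa [mul_one] at this
  have e2 : β - (d : ZI) * (im1 * oi) = ((c + d : ℤ) : ZI) := by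
    ext
    · simp only [Zsqrtd.re_sub, Zsqrtd.re_mul, Zsqrtd.im_mul, Zsqrtd.re_intCast, Zsqrtd.im_intCast]
      simp only [im1, oi, hc, hd]; ring
    · simp only [Zsqrtd.im_sub, Zsqrtd.re_mul, Zsqrtd.im_mul, Zsqrtd.re_intCast, Zsqrtd.im_intCast]
      simp only [im1, oi, hc, hd]; ring
  have p1 : Q β (c : ZI) * Q β oi = Q β ((c + d : ℤ) : ZI) := by
    rw [← Q_mul hβ.od]
    exact Q_per hβ.od ⟨_, e1⟩
  have ncop : IsCoprime ((c + d : ℤ) : ZI) β := by
    have hc2 : IsCoprime ((c + d : ℤ) : ZI) oi := by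
      obtain ⟨k, hk⟩ : ∃ k, c + d = 2 * k + 1 := ⟨(c + d) / 2, by omega⟩
      refine ⟨1, -(k : ZI) * (1 - im1), ?_⟩
      rw [hk]
      have : (1 - im1) * oi = 2 := by decide
      push_cast
      linear_combination -(k : ZI) * this
    have h1 : IsCoprime ((c + d : ℤ) : ZI) ((d : ZI) * (im1 * oi)) :=
      IsCoprime.mul_right (int_cop pm)
        (IsCoprime.mul_right ⟨0, -im1, by rw [zero_mul, zero_add]; decide⟩ hc2)
    apply cop_congr (a := (d : ZI) * (im1 * oi)) ?_ h1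
    refine ⟨-1, ?_⟩
    rw [← e2]; ring
  have h3 := rec_s2 hm hβ ncop
  have h4 := rec_s2 hco hβ nc
  have h5 : Q (c : ZI) β = ((e8 c : ℤ) : ZI) := by
    have h1 : Q (c : ZI) β = Q (c : ZI) ((d : ZI) * im1) := by
      apply Q_per od_c
      refine ⟨1, ?_⟩
      conv_lhs => rw [eq_re_im β]
      rw [← hc, ← hd]; ring
    rw [h1, Q_mul od_c, Q_im_int hco, Q_rat hco pβ, one_mul]
  have h6 : Q ((c + d : ℤ) : ZI) β = ((e8 (c + d) : ℤ) : ZI) * Q ((c + d : ℤ) : ZI) oi := by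
    have h1 : Q ((c + d : ℤ) : ZI) β = Q ((c + d : ℤ) : ZI) ((d : ZI) * (im1 * oi)) := by
      apply Q_per od_m
      rw [e2]
    rw [h1, Q_mul od_m, Q_mul od_m, Q_im_int hm, Q_rat hm pm, one_mul]
  have h7 := sq_oi_int hm
  rw [h3, h4, h5, h6] at p1
  have p2 := congrArg (fun t => t ^ 2) p1
  simp only [mul_pow] at p2
  have k1 := one_of_sq (e8_sq c)
  have k2 := one_of_sq (s2_sq c β.im)
  have k3 := one_of_sq (e8_sq (c + d))
  have k4 := one_of_sq (s2_sq (c + d) β.im)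
  rw [← sq] at k1 k2 k3 k4
  rw [h7, k1, k2, k3, k4, one_mul, one_mul, one_mul, mul_one] at p2
  rw [p2, hc, hd]

theorem sq_oi {β : ZI} (hβ : Ev β) : Q β oi ^ 2 = ((e8 (β.re + β.im) : ℤ) : ZI) := by
  obtain ⟨g, β', rfl, pβ, hg, hβ'⟩ := ev_decomp hβ
  rw [Q_mul_left (ev_int hg).od.ne hβ'.od.ne, mul_pow, sq_oi_int hg, sq_oi_prim hβ' pβ]
  have e : ((g : ZI) * β').re + ((g : ZI) * β').im = g * (β'.re + β'.im) := by
    simp only [Zsqrtd.re_mul, Zsqrtd.im_mul, Zsqrtd.re_intCast, Zsqrtd.im_intCast]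
    ring
  rw [e, e8_mul hg (od_sub_pr hβ')]
  push_cast
  rfl

end Pool.Agent.R441.Q4
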