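import Pool.Agent.R441.Q4.F

/-!
The quartic residue symbol in additive notation; the master formula.
-/

set_option autoImplicit false
set_option linter.unusedSimpArgs false

namespace Pool.Agent.R441.Q4

/-- the logarithm of a unit to the base `i` -/
def lg (u : ZI) : ZMod 4 := if u = 1 then 0 else if u = im1 then 1 else if u = -1 then 2 else 3

lemma lg_mul {u v : ZI} (hu : u.norm = 1) (hv : v.norm = 1) : lg (u * v) = lg u + lg v := by
  rcases unit_cases hu with h | h | h | h <;> rcases unit_cases hv with h' | h' | h' | h' <;>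
    rw [h, h'] <;> decide

lemma lg_one : lg 1 = 0 := by decide
lemma lg_im1 : lg im1 = 1 := by decide
lemma lg_neg_one : lg (-1) = 2 := by decide

lemma lg_inj {u v : ZI} (hu : u.norm = 1) (hv : v.norm = 1) (h : lg u = lg v) : u = v := by
  rcases unit_cases hu with h1 | h1 | h1 | h1 <;> rcases unit_cases hv with h' | h' | h' | h' <;>
    rw [h1, h'] at h ⊢ <;> revert h <;> decide

lemma lg_pow {u : ZI} (hu : u.norm = 1) (n : ℕ) : lg (u ^ n) = n * lg u := by
  induction n with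
  | zero => rw [pow_zero, lg_one]; simp
  | succ n ih =>
    have : (u ^ n).norm = 1 := by
      rw [← isUnit_iff_norm] at hu ⊢
      exact hu.pow n
    rw [pow_succ, lg_mul this hu, ih]
    push_cast
    ring

lemma four_zero : (4 : ZMod 4) = 0 := by decide

/-- the symbol in additive notation -/
noncomputable def L (β a : ZI) : ZMod 4 := lg (Q β a)

lemma L_mul {β a b : ZI} (h : Od β) (ha : IsCoprime β a) (hb : IsCoprime β b) :
    L β (a * b) = L β a + L β b := by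
  unfold L
  rw [Q_mul h, lg_mul (Q_norm h ha) (Q_norm h hb)]

lemma L_mul_left {β γ a : ZI} (hβ : Od β) (hγ : Od γ) (ha : IsCoprime β a) (hb : IsCoprime γ a) :
    L (β * γ) a = L β a + L γ a := by
  unfold L
  rw [Q_mul_left hβ.ne hγ.ne, lg_mul (Q_norm hβ ha) (Q_norm hγ hb)]

lemma L_per {β a b : ZI} (h : Od β) (hab : β ∣ a - b) : L β a = L β b := by
  unfold L; rw [Q_per h hab]

lemma L_pow {β a : ZI} (h : Od β) (ha : IsCoprime β a) (n : ℕ) : L β (a ^ n) = n * L β a := by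
  unfold L
  rw [Q_pow h, lg_pow (Q_norm h ha)]

lemma L_one {β : ZI} (h : Od β) : L β 1 = 0 := by unfold L; rw [Q_one h, lg_one]

lemma two_L_of_sq {u v : ZI} (hu : u.norm = 1) (hv : v.norm = 1) (h : u ^ 2 = v ^ 2) :
    2 * lg u = 2 * lg v := by
  have h1 := congrArg lg h
  rw [lg_pow hu, lg_pow hv] at h1
  exact_mod_cast h1

lemma L_quad {α β : ZI} (hα : Ev α) (hβ : Ev β) (hc : IsCoprime α β) :
    2 * L β α = 2 * L α β :=
  two_L_of_sq (Q_norm hβ.od hc.symm) (Q_norm hα.od hc) (rec_quad hα hβ hc)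

/-- the exponent of a sign -/
def ls (s : ℤ) : ZMod 4 := if s = 1 then 0 else 2

lemma lg_sign {u : ZI} (hu : u.norm = 1) {s : ℤ} (hs : s = 1 ∨ s = -1) :
    lg (u * (s : ZI)) = lg u + ls s := by
  rcases hs with h | h
  · rw [h, Int.cast_one, mul_one]; unfold ls; simp
  · rw [h]
    have e : ((-1 : ℤ) : ZI) = -1 := by simp
    rw [e, lg_mul hu (by decide), lg_neg_one]
    rfl

lemma sg_cases (α β : ZI) : sg α β = 1 ∨ sg α β = -1 := neg_one_pow_eq_or ℤ _

lemma s2_cases (n d : ℤ) : s2 n d = 1 ∨ s2 n d = -1 := by unfold s2; split_ifs <;> simp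

lemma L_rec {α β : ZI} (hα : Ev α) (hβ : Ev β) (hc : IsCoprime α β) :
    L β α = L α β + ls (sg α β) := by
  unfold L
  rw [rec_gen hα hβ hc, lg_sign (Q_norm hα.od hc) (sg_cases _ _)]

lemma L_rec_int {n : ℤ} (hn : n % 2 = 1) {β : ZI} (hβ : Ev β) (hc : IsCoprime (n : ZI) β) :
    L β (n : ZI) = L (n : ZI) β + ls (s2 n β.im) := by
  unfold L
  rw [rec_s2 hn hβ hc, lg_sign (Q_norm (od_int.2 hn) hc) (s2_cases _ _)]

lemma L_rat {n m : ℤ} (hn : n % 2 = 1) (h : IsCoprime n m) : L (n : ZI) (m : ZI) = 0 := by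
  unfold L; rw [Q_rat hn h, lg_one]

lemma two_ls (s : ℤ) : 2 * ls s = 0 := by unfold ls; split_ifs <;> decide

lemma L_im {β : ZI} (h : Od β) : L β im1 = ((nrm β / 4 : ℕ) : ZMod 4) := by
  unfold L
  rw [Q_unit h im1_norm, lg_pow im1_norm, lg_im1, mul_one]

lemma cop_unit {u : ZI} (h : u.norm = 1) (β : ZI) : IsCoprime β u :=
  ⟨0, star u, by rw [zero_mul, zero_add, mul_comm]; exact unit_star_mul h⟩

lemma cop_oi {β : ZI} (h : Od β) : IsCoprime β oi := by
  have h1 : IsCoprime ((β.norm : ℤ) : ZI) oi := by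
    obtain ⟨k, hk⟩ : ∃ k, β.norm = 2 * k + 1 := ⟨β.norm / 2, by unfold Od at h; omega⟩
    refine ⟨1, -(k : ZI) * (1 - im1), ?_⟩
    rw [hk]
    have : (1 - im1) * oi = 2 := by decide
    push_cast
    linear_combination -(k : ZI) * this
  rw [Zsqrtd.norm_eq_mul_conj] at h1
  exact h1.of_mul_left_left

lemma cop_two {β : ZI} (h : Od β) : IsCoprime β 2 := by
  have e : (2 : ZI) = -im1 * (oi * oi) := by decide
  rw [e]
  exact IsCoprime.mul_right (cop_unit (by decide) β) (IsCoprime.mul_right (cop_oi h) (cop_oi h))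

lemma cop_two_pow {β : ZI} (h : Od β) (e : ℕ) : IsCoprime β (2 ^ e) := (cop_two h).pow_right

/-- the master formula -/
theorem master {π θ w' θs w T1 τ : ZI} {x y n n0 : ℤ} {e : ℕ}
    (hπ : Ev π) (hθ : θ = w' * θs) (hθs : Ev θs)
    (hp : π.norm = x ^ 2 + θ.norm * y ^ 2)
    (hn : n = (π * τ ^ 4).re + x * τ.norm ^ 2)
    (hn0 : n = 2 ^ e * n0) (hno : n0 % 2 = 1)
    (hT : im1 * π * τ ^ 2 + star τ ^ 2 * ((y : ZI) * θ + (x : ZI) * im1) = w * T1) (hT1 : Ev T1)
    (c1 : IsCoprime n0 (y * θ.im * θ.norm * τ.norm))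
    (c2 : IsCoprime π.norm (y * θ.im * θ.norm * τ.norm))
    (c3 : ∀ β : ZI, Od β → IsCoprime β w) (c4 : ∀ β : ZI, Od β → IsCoprime β w') :
    L π (((θ.re * y : ℤ) : ZI) + (x : ZI) * im1) = L π (θ.im : ZI) + L π (y : ZI) +
      (2 * L π (y : ZI) + ls (sg θs π) + ls (s2 n0 θs.im) - L π (2 * (θ.im : ZI)) - L π w'
        - L (n0 : ZI) w' + L θs (-2 ^ (e + 1)) + 2 * (L π w + L θs w + L (n0 : ZI) w)
        + 2 * L T1 (-(2 ^ e * (θ.im : ZI) * w' * im1))) := by
  obtain ⟨a, ha⟩ : ∃ a, a = θ.re := ⟨_, rfl⟩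
  obtain ⟨h, hh⟩ : ∃ h, h = θ.im := ⟨_, rfl⟩
  obtain ⟨D, hD⟩ : ∃ D, D = θ.norm := ⟨_, rfl⟩
  have hDa : D = a ^ 2 + h ^ 2 := by rw [hD, norm_def', ha, hh]
  rw [← hh, ← hD] at c1 c2
  rw [← hD] at hp
  rw [← ha, ← hh]
  have hθe : θ = (a : ZI) + (h : ZI) * im1 := by rw [ha, hh]; exact eq_re_im θ
  have hθn : θ * star θ = (D : ZI) := by rw [hD, Zsqrtd.norm_eq_mul_conj]
  have hθt : θ + star θ = 2 * (a : ZI) := by
    rw [hθe]
    have : star im1 = -im1 := by decide
    rw [star_add, star_mul, star_intCast, star_intCast, this]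
    ring
  have hπn : π * star π = ((x ^ 2 + D * y ^ 2 : ℤ) : ZI) := by
    rw [← hp, Zsqrtd.norm_eq_mul_conj]
  -- the numbers
  obtain ⟨N, hN⟩ : ∃ N, N = τ.norm := ⟨_, rfl⟩
  have hτn : τ * star τ = (N : ZI) := by rw [hN, Zsqrtd.norm_eq_mul_conj]
  rw [← hN] at hn c1 c2
  obtain ⟨s, hs⟩ : ∃ s, s = star τ ^ 2 := ⟨_, rfl⟩
  obtain ⟨T, hTd⟩ : ∃ T, T = w * T1 := ⟨_, rfl⟩
  rw [← hTd, ← hs] at hT
  obtain ⟨κ, hκ⟩ : ∃ κ, κ = ((a * y : ℤ) : ZI) + (x : ZI) * im1 := ⟨_, rfl⟩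
  obtain ⟨μ, hμ⟩ : ∃ μ, μ = (y : ZI) * θ + (x : ZI) * im1 := ⟨_, rfl⟩
  rw [← hμ] at hT
  rw [← hκ]
  have him2 := im1_sq
  -- S1
  have S1 : μ ^ 2 + π * star π = 2 * (y : ZI) * θ * κ := by
    rw [hπn, hμ, hκ]
    push_cast
    linear_combination (x : ZI) ^ 2 * him2 - (y : ZI) ^ 2 * hθn + (y : ZI) ^ 2 * θ * hθt
  -- S2
  have S2 : T - s * μ = π * (im1 * τ ^ 2) := by rw [← hT]; ring
  -- the number n
  have hnn : (π * τ ^ 4) + star (π * τ ^ 4) + 2 * ((x * N ^ 2 : ℤ) : ZI) = 2 * (n : ZI) := by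
    have e1 : ∀ z : ZI, z + star z = 2 * ((z.re : ℤ) : ZI) := by
      intro z
      conv_lhs => rw [eq_re_im z]
      have : star im1 = -im1 := by decide
      rw [star_add, star_mul, star_intCast, star_intCast, this]
      ring
    rw [e1, hn]
    push_cast
    ring
  rw [star_mul, star_pow] at hnn
  have S3 : T ^ 2 = -2 * (n : ZI) * π + 2 * (y : ZI) * θ * s * (T - (h : ZI) * (y : ZI) * s * im1) := by
    have hss : s ^ 2 = star τ ^ 4 := by rw [hs]; ring
    have hμ2 : μ ^ 2 = 2 * (y : ZI) * θ * κ - π * star π := by linear_combination S1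
    have hns : (N : ZI) ^ 2 = τ ^ 2 * s := by rw [← hτn, hs]; ring
    have hn2 : 2 * (n : ZI) * π = π ^ 2 * τ ^ 4 + π * (s ^ 2 * star π) + 2 * π * ((x : ZI) * (τ ^ 2 * s)) := by
      rw [← hns, hss]
      push_cast at hnn
      linear_combination -π * hnn
    have hμκ : μ = κ + (y : ZI) * ((h : ZI) * im1) := by
      rw [hμ, hκ, hθe]; push_cast; ring
    have hTT : T = im1 * π * τ ^ 2 + s * μ := hT.symm
    have e1 : T ^ 2 = -π ^ 2 * τ ^ 4 + 2 * im1 * π * τ ^ 2 * s * μ + s ^ 2 * μ ^ 2 := by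
      rw [hTT]
      linear_combination (π ^ 2 * τ ^ 4) * him2
    have e2 : T - (h : ZI) * (y : ZI) * s * im1 = im1 * π * τ ^ 2 + s * κ := by
      rw [hTT, hμκ]; ring
    rw [e2, e1, hμ2, hμ]
    linear_combination hn2 + 2 * π * τ ^ 2 * s * (x : ZI) * him2
  -- coprimality
  have cπ : IsCoprime π (((y * h * D * N : ℤ)) : ZI) := by
    have := int_cop c2
    rw [Zsqrtd.norm_eq_mul_conj] at this
    exact this.of_mul_left_left
  push_cast at cπ
  have cπN := cπ.of_mul_right_right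
  have cπD := cπ.of_mul_right_left.of_mul_right_right
  have cπh := cπ.of_mul_right_left.of_mul_right_left.of_mul_right_right
  have cπy := cπ.of_mul_right_left.of_mul_right_left.of_mul_right_left
  have cπ2 := cop_two hπ.od
  have cπθ : IsCoprime π θ := by rw [← hθn] at cπD; exact cπD.of_mul_right_left
  have cπw' : IsCoprime π w' := c4 π hπ.od
  have cπθs : IsCoprime π θs := by rw [hθ] at cπθ; exact cπθ.of_mul_right_right
  have cπs : IsCoprime π s := by
    rw [← hτn] at cπN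
    rw [hs]
    exact cπN.of_mul_right_right.pow_right
  have hκn : κ * star κ = π * star π - ((h * y : ℤ) : ZI) ^ 2 := by
    rw [hπn, hκ, hDa]
    have : star im1 = -im1 := by decide
    rw [star_add, star_mul, star_intCast, star_intCast, this]
    push_cast
    linear_combination -(x : ZI) ^ 2 * him2
  have cπκ : IsCoprime π κ := by
    have h1 : IsCoprime π (κ * star κ) := by
      rw [hκn]
      have h2 : IsCoprime π (-((h * y : ℤ) : ZI) ^ 2) := by
        push_cast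
        exact ((cπh.mul_right cπy).pow_right).neg_right
      have h3 := IsCoprime.add_mul_left_right h2 (star π)
      have e : -((h * y : ℤ) : ZI) ^ 2 + π * star π = π * star π - ((h * y : ℤ) : ZI) ^ 2 := by ring
      rwa [e] at h3
    exact h1.of_mul_right_left
  have cπμ : IsCoprime π μ := by
    have h1 : IsCoprime π (μ ^ 2) := by
      have h2 : IsCoprime π (2 * (y : ZI) * θ * κ) :=
        ((cπ2.mul_right cπy).mul_right cπθ).mul_right cπκ
      refine cop_congr (a := 2 * (y : ZI) * θ * κ) ⟨star π, ?_⟩ h2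
      rw [← S1]; ring
    rw [sq] at h1
    exact h1.of_mul_right_left
  have cπT : IsCoprime π T := by
    refine cop_congr (a := s * μ) ⟨-(im1 * τ ^ 2), ?_⟩ (cπs.mul_right cπμ)
    linear_combination -S2
  have cπw : IsCoprime π w := c3 π hπ.od
  have cπT1 : IsCoprime π T1 := by rw [hTd] at cπT; exact cπT.of_mul_right_right
  -- n0
  have odn : Od (n0 : ZI) := od_int.2 hno
  have cn : IsCoprime (n0 : ZI) (((y * h * D * N : ℤ)) : ZI) := int_cop c1
  push_cast at cn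
  have cnN := cn.of_mul_right_right
  have cnD := cn.of_mul_right_left.of_mul_right_right
  have cnh := cn.of_mul_right_left.of_mul_right_left.of_mul_right_right
  have cny := cn.of_mul_right_left.of_mul_right_left.of_mul_right_left
  have cn2 := cop_two odn
  have cnθ : IsCoprime (n0 : ZI) θ := by rw [← hθn] at cnD; exact cnD.of_mul_right_left
  have cnθs : IsCoprime (n0 : ZI) θs := by rw [hθ] at cnθ; exact cnθ.of_mul_right_right
  have cnw' : IsCoprime (n0 : ZI) w' := c4 _ odn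
  have cnw : IsCoprime (n0 : ZI) w := c3 _ odn
  have cnτ : IsCoprime (n0 : ZI) τ := by rw [← hτn] at cnN; exact cnN.of_mul_right_left
  -- components
  obtain ⟨C, hC⟩ : ∃ C, C = (π * τ ^ 4).re := ⟨_, rfl⟩
  obtain ⟨G, hG⟩ : ∃ G, G = (π * τ ^ 4).im := ⟨_, rfl⟩
  have hPi : π * τ ^ 4 = (C : ZI) + (G : ZI) * im1 := by rw [hC, hG]; exact eq_re_im _
  rw [← hC] at hn
  have hCG : C ^ 2 + G ^ 2 = (x * N ^ 2) ^ 2 + D * (y * N ^ 2) ^ 2 := by
    have h1 : (π * τ ^ 4).norm = C ^ 2 + G ^ 2 := by rw [norm_def', hC, hG]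
    rw [← h1, Zsqrtd.norm_mul, hp]
    have h2 : (τ ^ 4).norm = N ^ 4 := by
      have e : τ ^ 4 = τ * τ * τ * τ := by ring
      rw [e, Zsqrtd.norm_mul, Zsqrtd.norm_mul, Zsqrtd.norm_mul, hN]
      ring
    rw [h2]
    ring
  have hG2 : G ^ 2 - D * (y * N ^ 2) ^ 2 = n * (x * N ^ 2 - C) := by
    rw [hn]; linear_combination hCG
  -- congruences modulo n
  have ndvd : (n0 : ZI) ∣ (n : ZI) := by rw [hn0]; push_cast; exact dvd_mul_left _ _
  obtain ⟨Y, hY⟩ : ∃ Y, Y = y * N ^ 2 := ⟨_, rfl⟩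
  rw [← hY] at hG2
  have cnY : IsCoprime (n0 : ZI) (Y : ZI) := by
    rw [hY]; push_cast; exact cny.mul_right cnN.pow_right
  have hN2 : (N : ZI) ^ 2 = τ ^ 2 * s := by rw [← hτn, hs]; ring
  have U1 : τ ^ 2 * T - ((Y : ZI) * θ - (G : ZI)) = (n : ZI) * im1 := by
    rw [← hT, hμ, hn, hY]
    push_cast
    linear_combination im1 * hPi + (G : ZI) * him2 - ((y : ZI) * θ + (x : ZI) * im1) * hN2
  have hGz : (G : ZI) ^ 2 - (D : ZI) * (Y : ZI) ^ 2 = (n : ZI) * ((x * N ^ 2 - C : ℤ) : ZI) := by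
    have := congrArg (Int.cast : ℤ → ZI) hG2
    push_cast at this ⊢
    exact this
  have U2 : ((Y : ZI) * θ + (G : ZI)) ^ 2 - 2 * (Y : ZI) * ((a * Y + G : ℤ) : ZI) * θ =
      (n : ZI) * ((x * N ^ 2 - C : ℤ) : ZI) := by
    rw [← hGz, ← hθn]
    push_cast
    linear_combination (Y : ZI) ^ 2 * θ * hθt
  have U3 : ((Y : ZI) * θ + (G : ZI)) * ((Y : ZI) * θ - (G : ZI)) -
      (2 * (h : ZI) * im1) * ((Y : ZI) ^ 2 * θ) = (n : ZI) * (-((x * N ^ 2 - C : ℤ) : ZI)) := by
    have : θ - star θ = 2 * ((h : ZI) * im1) := by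
      rw [hθe]
      have : star im1 = -im1 := by decide
      rw [star_add, star_mul, star_intCast, star_intCast, this]
      ring
    rw [mul_neg, ← hGz, ← hθn]
    linear_combination (Y : ZI) ^ 2 * θ * this
  have cni : IsCoprime (n0 : ZI) im1 := cop_unit im1_norm _
  have V3 : IsCoprime (n0 : ZI) (((Y : ZI) * θ + (G : ZI)) * ((Y : ZI) * θ - (G : ZI))) := by
    refine cop_congr (a := (2 * (h : ZI) * im1) * ((Y : ZI) ^ 2 * θ)) ?_
      (((cn2.mul_right cnh).mul_right cni).mul_right (cnY.pow_right.mul_right cnθ))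
    rw [dvd_sub_comm, U3]
    exact ndvd.mul_right _
  have V1 := V3.of_mul_right_left
  have V2 := V3.of_mul_right_right
  have cnT : IsCoprime (n0 : ZI) T := by
    have h1 : IsCoprime (n0 : ZI) (τ ^ 2 * T) := by
      refine cop_congr (a := (Y : ZI) * θ - (G : ZI)) ?_ V2
      rw [dvd_sub_comm, U1]
      exact ndvd.mul_right _
    exact h1.of_mul_right_right
  have cnT1 : IsCoprime (n0 : ZI) T1 := by rw [hTd] at cnT; exact cnT.of_mul_right_right
  have V4 : IsCoprime (n0 : ZI) (2 * (Y : ZI) * ((a * Y + G : ℤ) : ZI) * θ) := by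
    refine cop_congr (a := ((Y : ZI) * θ + (G : ZI)) ^ 2) ?_ V1.pow_right
    rw [U2]
    exact ndvd.mul_right _
  -- S4
  have S4 : L (n0 : ZI) θ = 2 * L (n0 : ZI) T := by
    have k1 : L (n0 : ZI) (((Y : ZI) * θ + (G : ZI)) ^ 2) =
        L (n0 : ZI) (2 * (Y : ZI) * ((a * Y + G : ℤ) : ZI) * θ) := by
      apply L_per odn
      rw [U2]
      exact ndvd.mul_right _
    have k2 : L (n0 : ZI) (2 * (Y : ZI) * ((a * Y + G : ℤ) : ZI)) = 0 := by
      have e : 2 * (Y : ZI) * ((a * Y + G : ℤ) : ZI) = ((2 * Y * (a * Y + G) : ℤ) : ZI) := by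
        push_cast; ring
      rw [e]
      apply L_rat hno
      apply cop_int
      rw [← e]
      exact V4.of_mul_right_left
    rw [L_pow odn V1, L_mul odn V4.of_mul_right_left cnθ, k2, zero_add] at k1
    have k3 : L (n0 : ZI) (((Y : ZI) * θ + (G : ZI)) * ((Y : ZI) * θ - (G : ZI))) =
        L (n0 : ZI) ((2 * (h : ZI) * im1) * ((Y : ZI) ^ 2 * θ)) := by
      apply L_per odn
      rw [U3]
      exact ndvd.mul_right _
    have k4 : L (n0 : ZI) (2 * (h : ZI)) = 0 := by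
      have e : 2 * (h : ZI) = ((2 * h : ℤ) : ZI) := by push_cast; ring
      rw [e]
      apply L_rat hno
      apply cop_int
      rw [← e]
      exact cn2.mul_right cnh
    have k5 : 2 * L (n0 : ZI) im1 = 0 := by
      unfold L
      rw [Q_im_int hno]
      unfold e8
      split_ifs <;> simp [lg_one, lg_neg_one, four_zero] <;> decide
    rw [L_mul odn V1 V2, L_mul odn ((cn2.mul_right cnh).mul_right cni) (cnY.pow_right.mul_right cnθ),
      L_mul odn (cn2.mul_right cnh) cni, L_mul odn cnY.pow_right cnθ, L_pow odn cnY, k4, zero_add] at k3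
    have k6 : L (n0 : ZI) (τ ^ 2 * T) = L (n0 : ZI) ((Y : ZI) * θ - (G : ZI)) := by
      apply L_per odn
      rw [U1]
      exact ndvd.mul_right _
    rw [L_mul odn cnτ.pow_right cnT, L_pow odn cnτ] at k6
    push_cast at k1 k3 k6
    have f4 := four_zero
    linear_combination -2 * k6 - 2 * k3 + k1 - k5 +
      (L (n0 : ZI) τ - L (n0 : ZI) (Y : ZI)) * f4
  -- modulo θs
  have odθ := hθs.od
  have dθs : θs ∣ θ := by rw [hθ]; exact dvd_mul_left _ _
  have h2e : (n : ZI) = 2 ^ e * (n0 : ZI) := by rw [hn0]; push_cast; ring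
  have cθn : IsCoprime θs (-2 ^ (e + 1) * (n0 : ZI)) :=
    IsCoprime.mul_right ((cop_two_pow odθ _).neg_right) cnθs.symm
  have cθT2 : IsCoprime θs (T ^ 2) := by
    refine cop_congr (a := -2 ^ (e + 1) * (n0 : ZI) * π) ?_ (cθn.mul_right cπθs.symm)
    rw [dvd_sub_comm, S3, h2e]
    have e1 : -2 * (2 ^ e * (n0 : ZI)) * π + 2 * (y : ZI) * θ * s *
        (T - (h : ZI) * (y : ZI) * s * im1) - -2 ^ (e + 1) * (n0 : ZI) * π =
        θ * (2 * (y : ZI) * s * (T - (h : ZI) * (y : ZI) * s * im1)) := by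
      rw [pow_succ]; ring
    rw [e1]
    exact dθs.mul_right _
  have cθT : IsCoprime θs T := by rw [sq] at cθT2; exact cθT2.of_mul_right_left
  have cθT1 : IsCoprime θs T1 := by rw [hTd] at cθT; exact cθT.of_mul_right_right
  have cθw : IsCoprime θs w := c3 _ odθ
  have S5 : 2 * L θs T = L θs (-2 ^ (e + 1)) + L θs (n0 : ZI) + L θs π := by
    have k1 : L θs (T ^ 2) = L θs (-2 ^ (e + 1) * (n0 : ZI) * π) := by
      apply L_per odθ
      rw [S3, h2e]
      have e1 : -2 * (2 ^ e * (n0 : ZI)) * π + 2 * (y : ZI) * θ * s *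
          (T - (h : ZI) * (y : ZI) * s * im1) - -2 ^ (e + 1) * (n0 : ZI) * π =
          θ * (2 * (y : ZI) * s * (T - (h : ZI) * (y : ZI) * s * im1)) := by
        rw [pow_succ]; ring
      rw [e1]
      exact dθs.mul_right _
    rw [L_pow odθ cθT, L_mul odθ cθn cπθs.symm, L_mul odθ ((cop_two_pow odθ _).neg_right) cnθs.symm] at k1
    exact_mod_cast k1
  -- modulo π
  have odπ := hπ.od
  have S6 : 2 * L π T = L π 2 + L π (y : ZI) + (L π w' + L π θs) + L π κ := by
    have k1 : L π (T ^ 2) = L π ((s * μ) ^ 2) := by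
      apply L_per odπ
      exact (show π ∣ T - s * μ from ⟨_, S2⟩).trans (sub_dvd_pow_sub_pow _ _ 2)
    have k2 : L π (μ ^ 2) = L π (2 * (y : ZI) * θ * κ) := by
      apply L_per odπ
      refine ⟨-star π, ?_⟩
      rw [← S1]; ring
    have cs : IsCoprime π (star τ) := by rw [hs, sq] at cπs; exact cπs.of_mul_right_left
    rw [L_pow odπ cπT, mul_pow, L_mul odπ cπs.pow_right cπμ.pow_right, hs, ← pow_mul,
      L_pow odπ cs, k2, L_mul odπ ((cπ2.mul_right cπy).mul_right cπθ) cπκ,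
      L_mul odπ (cπ2.mul_right cπy) cπθ, L_mul odπ cπ2 cπy, hθ, L_mul odπ cπw' cπθs] at k1
    push_cast at k1
    linear_combination k1 + L π (star τ) * four_zero
  -- modulo T1
  have odT := hT1.od
  have dT : T1 ∣ T := by rw [hTd]; exact dvd_mul_left _ _
  have cT2 := cop_two odT
  have d1 : T1 ∣ (2 ^ e * w') * ((n0 : ZI) * π * θs) - (-(h : ZI) * im1) * ((y : ZI) * s * θ) ^ 2 := by
    have h1 : T1 ∣ 2 * ((2 ^ e * w') * ((n0 : ZI) * π * θs) - (-(h : ZI) * im1) * ((y : ZI) * s * θ) ^ 2) := by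
      have e1 : 2 * ((2 ^ e * w') * ((n0 : ZI) * π * θs) - (-(h : ZI) * im1) * ((y : ZI) * s * θ) ^ 2) =
          T * (-θ * T + 2 * (y : ZI) * θ ^ 2 * s) := by
        have e2 : (2 ^ e * w') * ((n0 : ZI) * π * θs) = (n : ZI) * π * θ := by rw [h2e, hθ]; ring
        rw [e2]
        linear_combination θ * S3
      rw [e1]
      exact dT.mul_right _
    exact (cT2.dvd_of_dvd_mul_left h1)
  have cTe : IsCoprime T1 (2 ^ e * w') := (cop_two_pow odT e).mul_right (c4 _ odT)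
  have cTp : IsCoprime T1 ((n0 : ZI) * π * θs) := (cnT1.symm.mul_right cπT1.symm).mul_right cθT1.symm
  have cTr : IsCoprime T1 ((-(h : ZI) * im1) * ((y : ZI) * s * θ) ^ 2) :=
    cop_congr d1 (cTe.mul_right cTp)
  have cTh := cTr.of_mul_right_left
  have cTs : IsCoprime T1 ((y : ZI) * s * θ) := by
    have := cTr.of_mul_right_right
    rw [sq] at this
    exact this.of_mul_right_left
  have S7 : L T1 (2 ^ e * w') + L T1 ((n0 : ZI) * π * θs) =
      L T1 (-(h : ZI) * im1) + 2 * L T1 ((y : ZI) * s * θ) := by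
    have k1 := L_per odT d1
    rw [L_mul odT cTe cTp, L_mul odT cTh cTs.pow_right, L_pow odT cTs] at k1
    exact_mod_cast k1
  have S8 : L T1 ((n0 : ZI) * π * θs) = L T1 (n0 : ZI) + L T1 π + L T1 θs := by
    rw [L_mul odT (cnT1.symm.mul_right cπT1.symm) cθT1.symm, L_mul odT cnT1.symm cπT1.symm]
  have S9 : L T1 (-(2 ^ e * (h : ZI) * w' * im1)) = L T1 (2 ^ e * w') + L T1 (-(h : ZI) * im1) := by
    rw [← L_mul odT cTe cTh]
    congr 1
    ring
  have q1 := L_quad hT1 hπ cπT1.symm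
  have q2 := L_quad hT1 hθs cθT1.symm
  have q3 := L_quad hT1 (ev_int hno) cnT1.symm
  have q4 := L_rec hθs hπ cπθs.symm
  have q5 := L_rec_int hno hθs cnθs
  have q6 : L (n0 : ZI) θ = L (n0 : ZI) w' + L (n0 : ZI) θs := by
    rw [hθ, L_mul odn cnw' cnθs]
  have q7 : L π T = L π w + L π T1 := by rw [hTd, L_mul odπ cπw cπT1]
  have q8 : L θs T = L θs w + L θs T1 := by rw [hTd, L_mul odθ cθw cθT1]
  have q9 : L (n0 : ZI) T = L (n0 : ZI) w + L (n0 : ZI) T1 := by rw [hTd, L_mul odn cnw cnT1]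
  have q10 : L π (2 * (h : ZI)) = L π 2 + L π (h : ZI) := L_mul odπ cπ2 cπh
  have t1 := two_ls (sg θs π)
  have f4 := four_zero
  rw [q7] at S6
  rw [q8] at S5
  rw [q9, q6] at S4
  rw [q10, S9]
  linear_combination -S6 - q4 + S5 + q5 + S4 + q1 - q2 + q3 - 2 * S8 + 2 * S7 - t1 -
    (L T1 (2 ^ e * w') - L T1 ((y : ZI) * s * θ) + L T1 θs + L π (y : ZI) + L θs w) * f4

end Pool.Agent.R441.Q4
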