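import Pool.Agent.R441.Q4.G

/-!
The auxiliary number `τ`, evaluation lemmas, Lucas sequences.
-/

set_option autoImplicit false
set_option linter.unusedSimpArgs false

namespace Pool.Agent.R441.Q4

/-! ### coprimality -/

lemma cop_of_primes {m k : ℤ} (hm : m % 2 = 1)
    (h : ∀ q : ℕ, q.Prime → q ≠ 2 → (q : ℤ) ∣ m → ¬ (q : ℤ) ∣ k) : IsCoprime m k := by
  rw [Int.isCoprime_iff_gcd_eq_one]
  by_contra hc
  obtain ⟨q, hq, hd⟩ := Nat.exists_prime_and_dvd hc
  have h1 : (q : ℤ) ∣ m := (Int.natCast_dvd_natCast.2 hd).trans (Int.gcd_dvd_left _ _)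
  have h2 : (q : ℤ) ∣ k := (Int.natCast_dvd_natCast.2 hd).trans (Int.gcd_dvd_right _ _)
  refine h q hq ?_ h1 h2
  rintro rfl
  have : (2 : ℤ) ∣ m := by exact_mod_cast h1
  omega

lemma prime_dvd_prime {p q : ℕ} (hp : p.Prime) (hq : q.Prime) (h : (q : ℤ) ∣ (p : ℤ)) : q = p :=
  (Nat.prime_dvd_prime_iff_eq hq hp).1 (Int.natCast_dvd_natCast.1 h)

theorem exists_tau {p : ℕ} (hp : p.Prime) (h2 : p ≠ 2) {c d x y D : ℤ} (hcd : c ^ 2 + d ^ 2 = p)
    (hxy : x ^ 2 + D * y ^ 2 = p) (hD : 0 < D) (hDp : D ≠ p) :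
    ∃ v : ℤ, 16 ∣ v ∧ IsCoprime (p : ℤ) (y * D * (1 + v ^ 2)) ∧
      ∀ q : ℕ, q.Prime → q ≠ 2 → (q : ℤ) ∣ y * D * (1 + v ^ 2) →
        ¬ (q : ℤ) ∣ c * (1 - 6 * v ^ 2 + v ^ 4) - 4 * d * v * (1 - v ^ 2) + x * (1 + v ^ 2) ^ 2 := by
  have hpi : Prime (p : ℤ) := Nat.prime_iff_prime_int.1 hp
  have hp0 : (0 : ℤ) < p := by exact_mod_cast hp.pos
  have hy0 : y ≠ 0 := by
    rintro rfl
    have h3 : x ^ 2 = p := by linarith
    exact hpi.irreducible.not_isSquare ⟨x, by rw [← h3, sq]⟩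
  have hy2 : 0 < y ^ 2 := by positivity
  have hyle : D * y ^ 2 ≤ p := by nlinarith [sq_nonneg x]
  have hpy : ¬ (p : ℤ) ∣ y := by
    intro hd
    obtain ⟨k, rfl⟩ := hd
    have hk : k ≠ 0 := by rintro rfl; simp at hy0
    have hk2 : 1 ≤ k ^ 2 := by
      have : 0 < k ^ 2 := by positivity
      omega
    have h3 : (2 : ℤ) ≤ p := by exact_mod_cast hp.two_le
    nlinarith [mul_pos hD hy2, mul_le_mul_of_nonneg_left hk2 (sq_nonneg (p : ℤ))]
  have hpD : ¬ (p : ℤ) ∣ D := by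
    intro hd
    have h3 := Int.le_of_dvd hD hd
    have h4 : D ≤ p := by nlinarith
    exact hDp (le_antisymm h4 h3)
  have hpyD : ¬ (p : ℤ) ∣ y * D := by
    intro hd
    rcases hpi.dvd_or_dvd hd with h | h
    · exact hpy h
    · exact hpD h
  classical
  set S : Finset ℕ := (y * D).natAbs.primeFactors.filter (· ≠ 2) with hS
  have hyD : y * D ≠ 0 := mul_ne_zero hy0 hD.ne'
  have memS : ∀ q : ℕ, q.Prime → q ≠ 2 → (q : ℤ) ∣ y * D → q ∈ S := by
    intro q hq hq2 hd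
    rw [hS, Finset.mem_filter, Nat.mem_primeFactors]
    exact ⟨⟨hq, Int.natCast_dvd.1 hd, by simpa using hyD⟩, hq2⟩
  have Sprime : ∀ q ∈ S, q.Prime ∧ q ≠ 2 ∧ (q : ℤ) ∣ y * D := by
    intro q hq
    rw [hS, Finset.mem_filter, Nat.mem_primeFactors] at hq
    exact ⟨hq.1.1, hq.2, Int.natCast_dvd.2 hq.1.2.1⟩
  set A : ℤ := ∏ q ∈ S.filter (fun q : ℕ => ¬ (q : ℤ) ∣ c + x), (q : ℤ) with hA
  set B : ℤ := ∏ q ∈ S.filter (fun q : ℕ => (q : ℤ) ∣ c + x), (q : ℤ) with hB
  have hcop : IsCoprime (16 * p * A) B := by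
    rw [hB]
    apply IsCoprime.prod_right
    intro q hq
    obtain ⟨hq1, hq2⟩ := Finset.mem_filter.1 hq
    obtain ⟨hqp, hqne, hqd⟩ := Sprime q hq1
    have hqi : Prime (q : ℤ) := Nat.prime_iff_prime_int.1 hqp
    have key : ∀ m : ℤ, ¬ (q : ℤ) ∣ m → IsCoprime m (q : ℤ) := fun m hm =>
      ((hqi.coprime_iff_not_dvd).2 hm).symm
    refine IsCoprime.mul_left (IsCoprime.mul_left (key _ ?_) (key _ ?_)) ?_
    · intro h16
      have h3 : (q : ℤ) ∣ 2 ^ 4 := by norm_num; exact h16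
      have h4 := hqi.dvd_of_dvd_pow h3
      have h5 : q ∣ 2 := by exact_mod_cast h4
      exact hqne ((Nat.prime_dvd_prime_iff_eq hqp Nat.prime_two).1 h5)
    · intro hqp'
      have h3 := prime_dvd_prime hp hqp hqp'
      rw [h3] at hqd
      exact hpyD hqd
    · rw [hA]
      apply IsCoprime.prod_left
      intro r hr
      obtain ⟨hr1, hr2⟩ := Finset.mem_filter.1 hr
      apply key
      intro hd
      have h3 := prime_dvd_prime (Sprime r hr1).1 hqp hd
      rw [h3] at hq2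
      exact hr2 hq2
  obtain ⟨u, w, huw⟩ := hcop
  set v : ℤ := u * (16 * p * A) with hv
  have hv16 : (16 : ℤ) ∣ v := ⟨u * p * A, by rw [hv]; ring⟩
  have hvp : (p : ℤ) ∣ v := ⟨u * 16 * A, by rw [hv]; ring⟩
  have hpN : ¬ (p : ℤ) ∣ 1 + v ^ 2 := by
    intro hd
    have h3 : (p : ℤ) ∣ 1 := by
      have h4 : (p : ℤ) ∣ v ^ 2 := dvd_pow hvp two_ne_zero
      have := dvd_sub hd h4
      rwa [add_sub_cancel_right] at this
    exact hpi.not_unit (isUnit_of_dvd_one h3)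
  refine ⟨v, hv16, ?_, ?_⟩
  · rw [hpi.coprime_iff_not_dvd]
    intro hd
    rcases hpi.dvd_or_dvd hd with h | h
    · exact hpyD h
    · exact hpN h
  · intro q hq hq2 hqd hqn
    have hqi : Prime (q : ℤ) := Nat.prime_iff_prime_int.1 hq
    have hq8 : ∀ m : ℤ, (q : ℤ) ∣ 8 * m → (q : ℤ) ∣ m := by
      intro m hm
      rcases hqi.dvd_or_dvd hm with h | h
      · exfalso
        have h3 : (q : ℤ) ∣ 2 ^ 3 := by norm_num; exact h
        have h4 := hqi.dvd_of_dvd_pow h3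
        have h5 : q ∣ 2 := by exact_mod_cast h4
        exact hq2 ((Nat.prime_dvd_prime_iff_eq hq Nat.prime_two).1 h5)
      · exact h
    rcases hqi.dvd_or_dvd hqd with h | h
    · have hqS := memS q hq hq2 h
      by_cases hcx : (q : ℤ) ∣ c + x
      · have hqB : (q : ℤ) ∣ B := by
          rw [hB]
          exact Finset.dvd_prod_of_mem (fun q : ℕ => (q : ℤ)) (Finset.mem_filter.2 ⟨hqS, hcx⟩)
        have hv1 : (q : ℤ) ∣ v - 1 := by
          have : v - 1 = -(w * B) := by rw [hv]; linear_combination huw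
          rw [this]
          exact (hqB.mul_left _).neg_right
        have h3 : (q : ℤ) ∣ 8 * c := by
          have e1 : 8 * c = (v - 1) * ((v + 1) * (4 * d * v - 8 * c)) + (c + x) * (1 + v ^ 2) ^ 2 -
              (c * (1 - 6 * v ^ 2 + v ^ 4) - 4 * d * v * (1 - v ^ 2) + x * (1 + v ^ 2) ^ 2) := by ring
          rw [e1]
          exact dvd_sub (dvd_add (hv1.mul_right _) (hcx.mul_right _)) hqn
        have h4 := hq8 c h3
        have h5 : (q : ℤ) ∣ x := by
          have := dvd_sub hcx h4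
          rwa [add_sub_cancel_left] at this
        have h6 : (q : ℤ) ∣ p := by
          rw [← hxy]
          refine dvd_add (dvd_pow h5 two_ne_zero) ?_
          have : D * y ^ 2 = (y * D) * y := by ring
          rw [this]
          exact h.mul_right _
        have h7 := prime_dvd_prime hp hq h6
        rw [h7] at h
        exact hpyD h
      · have hqA : (q : ℤ) ∣ A := by
          rw [hA]
          exact Finset.dvd_prod_of_mem (fun q : ℕ => (q : ℤ)) (Finset.mem_filter.2 ⟨hqS, hcx⟩)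
        have hv0 : (q : ℤ) ∣ v := by rw [hv]; exact (hqA.mul_left _).mul_left _
        apply hcx
        have e1 : c * (1 - 6 * v ^ 2 + v ^ 4) - 4 * d * v * (1 - v ^ 2) + x * (1 + v ^ 2) ^ 2 =
            (c + x) + v * (c * (-6 * v + v ^ 3) - 4 * d * (1 - v ^ 2) + x * (2 * v + v ^ 3)) := by ring
        rw [e1] at hqn
        have := dvd_sub hqn (hv0.mul_right (c * (-6 * v + v ^ 3) - 4 * d * (1 - v ^ 2) + x * (2 * v + v ^ 3)))
        rwa [add_sub_cancel_right] at this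
    · -- q divides 1 + v^2
      have e1 : c * (1 - 6 * v ^ 2 + v ^ 4) - 4 * d * v * (1 - v ^ 2) + x * (1 + v ^ 2) ^ 2 =
          8 * (c - d * v) + (1 + v ^ 2) * (c * (v ^ 2 - 7) + 4 * d * v + x * (1 + v ^ 2)) := by ring
      rw [e1] at hqn
      have h3 := dvd_sub hqn (h.mul_right (c * (v ^ 2 - 7) + 4 * d * v + x * (1 + v ^ 2)))
      rw [add_sub_cancel_right] at h3
      have h4 := hq8 _ h3
      have h5 : (q : ℤ) ∣ p := by
        rw [← hcd]
        have : c ^ 2 + d ^ 2 = (c - d * v) * (c + d * v) + (1 + v ^ 2) * d ^ 2 := by ring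
        rw [this]
        exact dvd_add (h4.mul_right _) (h.mul_right _)
      have h7 := prime_dvd_prime hp hq h5
      rw [h7] at h
      exact hpN h

end Pool.Agent.R441.Q4
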