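import Pool.Agent.R441.Q4.H

/-!
The master formula for a prime, evaluation lemmas.
-/

set_option autoImplicit false
set_option linter.unusedSimpArgs false

namespace Pool.Agent.R441.Q4

lemma re_im_mul (a b c d : ℤ) : (⟨a, b⟩ : ZI) * ⟨c, d⟩ = ⟨a * c - b * d, a * d + b * c⟩ := by
  ext
  · rw [Zsqrtd.re_mul]; ring
  · rw [Zsqrtd.im_mul]

/-- the master formula for a prime -/
theorem master_p {p : ℕ} (hp : p.Prime) (h2 : p ≠ 2) {c d x y a h : ℤ} (hh : h = 1 ∨ h = 2)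
    (hc : c % 2 = 1) (hd : d % 2 = 0) (hcd : c ^ 2 + d ^ 2 = p)
    (hxy : x ^ 2 + (a ^ 2 + h ^ 2) * y ^ 2 = p) (hDp : a ^ 2 + h ^ 2 ≠ p) :
    ∃ n Tr Ti : ℤ, n % 16 = (c + x) % 16 ∧ Tr % 16 = (a * y - d) % 16 ∧
      Ti % 16 = (c + x + h * y) % 16 ∧
      ∀ (e : ℕ) (n0 : ℤ) (w' θs w T1 : ZI), n = 2 ^ e * n0 → n0 % 2 = 1 →
        (⟨a, h⟩ : ZI) = w' * θs → Ev θs → (⟨Tr, Ti⟩ : ZI) = w * T1 → Ev T1 →
        (∀ β : ZI, Od β → IsCoprime β w) → (∀ β : ZI, Od β → IsCoprime β w') →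
        L ⟨c, d⟩ (((a * y : ℤ) : ZI) + (x : ZI) * im1) =
          L ⟨c, d⟩ (h : ZI) + L ⟨c, d⟩ (y : ZI) +
          (2 * L ⟨c, d⟩ (y : ZI) + ls (sg θs ⟨c, d⟩) + ls (s2 n0 θs.im) - L ⟨c, d⟩ (2 * (h : ZI)) -
            L ⟨c, d⟩ w' - L (n0 : ZI) w' + L θs (-2 ^ (e + 1)) +
            2 * (L ⟨c, d⟩ w + L θs w + L (n0 : ZI) w) +
            2 * L T1 (-(2 ^ e * (h : ZI) * w' * im1))) := by
  have hDpos : 0 < a ^ 2 + h ^ 2 := by
    rcases hh with rfl | rfl <;> nlinarith [sq_nonneg a]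
  obtain ⟨v, hv16, hvp, hvq⟩ := exists_tau hp h2 hcd hxy hDpos hDp
  have hπn : (⟨c, d⟩ : ZI).norm = p := by rw [norm_def']; exact hcd
  have hθn : (⟨a, h⟩ : ZI).norm = a ^ 2 + h ^ 2 := norm_def' _
  have hτn : (⟨1, v⟩ : ZI).norm = 1 + v ^ 2 := by rw [norm_def']; ring
  have hτ2 : (⟨1, v⟩ : ZI) ^ 2 = ⟨1 - v ^ 2, 2 * v⟩ := by
    rw [sq, re_im_mul]
    ext <;> simp only <;> ring
  have hτ4 : (⟨1, v⟩ : ZI) ^ 4 = ⟨1 - 6 * v ^ 2 + v ^ 4, 4 * v * (1 - v ^ 2)⟩ := by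
    have : (⟨1, v⟩ : ZI) ^ 4 = (⟨1, v⟩ : ZI) ^ 2 * (⟨1, v⟩ : ZI) ^ 2 := by ring
    rw [this, hτ2, re_im_mul]
    ext <;> simp only <;> ring
  have hsτ : star (⟨1, v⟩ : ZI) ^ 2 = ⟨1 - v ^ 2, -(2 * v)⟩ := by
    have : star (⟨1, v⟩ : ZI) = ⟨1, -v⟩ := rfl
    rw [this, sq, re_im_mul]
    ext <;> simp only <;> ring
  have hyθ : ((y : ZI) * (⟨a, h⟩ : ZI) + (x : ZI) * im1) = ⟨a * y, h * y + x⟩ := by
    ext
    · simp only [Zsqrtd.re_add, Zsqrtd.re_mul, Zsqrtd.im_mul, Zsqrtd.re_intCast, Zsqrtd.im_intCast,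
        im1]; ring
    · simp only [Zsqrtd.im_add, Zsqrtd.re_mul, Zsqrtd.im_mul, Zsqrtd.re_intCast, Zsqrtd.im_intCast,
        im1]; ring
  have hT : im1 * (⟨c, d⟩ : ZI) * (⟨1, v⟩ : ZI) ^ 2 + star (⟨1, v⟩ : ZI) ^ 2 *
      ((y : ZI) * (⟨a, h⟩ : ZI) + (x : ZI) * im1) =
      ⟨-(d * (1 - v ^ 2)) - 2 * v * c + (1 - v ^ 2) * (a * y) + 2 * v * (h * y + x),
        c * (1 - v ^ 2) - d * (2 * v) + (1 - v ^ 2) * (h * y + x) - 2 * v * (a * y)⟩ := by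
    rw [hsτ, hτ2, hyθ, re_im_mul]
    have : im1 * (⟨c, d⟩ : ZI) = ⟨-d, c⟩ := by
      unfold im1
      rw [re_im_mul]
      ext <;> simp only <;> ring
    rw [this, re_im_mul]
    ext
    · rw [Zsqrtd.re_add]; ring
    · rw [Zsqrtd.im_add]; ring
  obtain ⟨k, hk⟩ := hv16
  refine ⟨((⟨c, d⟩ : ZI) * (⟨1, v⟩ : ZI) ^ 4).re + x * (⟨1, v⟩ : ZI).norm ^ 2,
    -(d * (1 - v ^ 2)) - 2 * v * c + (1 - v ^ 2) * (a * y) + 2 * v * (h * y + x),
    c * (1 - v ^ 2) - d * (2 * v) + (1 - v ^ 2) * (h * y + x) - 2 * v * (a * y), ?_, ?_, ?_, ?_⟩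
  rotate_right
  · intro e n0 w' θs w T1 hn hn0 hw' hθs hw hT1 c3 c4
    have hre : (⟨a, h⟩ : ZI).re = a := rfl
    have him : (⟨a, h⟩ : ZI).im = h := rfl
    have hnv : n0 ∣ c * (1 - 6 * v ^ 2 + v ^ 4) - 4 * d * v * (1 - v ^ 2) + x * (1 + v ^ 2) ^ 2 := by
      have e1 : ((⟨c, d⟩ : ZI) * (⟨1, v⟩ : ZI) ^ 4).re + x * (⟨1, v⟩ : ZI).norm ^ 2 =
          c * (1 - 6 * v ^ 2 + v ^ 4) - 4 * d * v * (1 - v ^ 2) + x * (1 + v ^ 2) ^ 2 := by
        rw [hτ4, re_im_mul, hτn]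
        ring
      rw [← e1, hn]
      exact dvd_mul_left _ _
    have hh' : ∀ q : ℕ, q.Prime → q ≠ 2 → ¬ (q : ℤ) ∣ h := by
      intro q hq hq2 hd
      have h3 : (q : ℤ) ∣ 2 := by
        rcases hh with rfl | rfl
        · exact hd.trans (one_dvd _)
        · exact hd
      have h4 : q ∣ 2 := by exact_mod_cast h3
      exact hq2 ((Nat.prime_dvd_prime_iff_eq hq Nat.prime_two).1 h4)
    have hpi : Prime (p : ℤ) := Nat.prime_iff_prime_int.1 hp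
    have := master (π := ⟨c, d⟩) (θ := ⟨a, h⟩) (w' := w') (θs := θs) (w := w) (T1 := T1)
      (τ := ⟨1, v⟩) (x := x) (y := y) (n0 := n0) (e := e) (ev_of hc hd) hw' hθs
      (by rw [hπn, hθn, hxy]) rfl hn hn0 (by rw [hT]; exact hw) hT1 ?_ ?_ c3 c4
    · rw [hre, him] at this
      exact this
    · rw [him, hθn, hτn]
      apply cop_of_primes hn0
      intro q hq hq2 hqn hqd
      have e2 : y * h * (a ^ 2 + h ^ 2) * (1 + v ^ 2) = h * (y * (a ^ 2 + h ^ 2) * (1 + v ^ 2)) := by ring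
      rw [e2] at hqd
      rcases (Nat.prime_iff_prime_int.1 hq).dvd_or_dvd hqd with h5 | h5
      · exact hh' q hq hq2 h5
      · exact hvq q hq hq2 h5 (hqn.trans hnv)
    · rw [him, hθn, hτn, hπn]
      have e2 : y * h * (a ^ 2 + h ^ 2) * (1 + v ^ 2) = h * (y * (a ^ 2 + h ^ 2) * (1 + v ^ 2)) := by ring
      rw [e2]
      exact IsCoprime.mul_right ((hpi.coprime_iff_not_dvd).2 (hh' p hp h2)) hvp
  · rw [hτ4, re_im_mul, hτn, hk]
    ring_nf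
    omega
  · rw [hk]
    ring_nf
    omega
  · rw [hk]
    ring_nf
    omega

/-! ### evaluation -/

lemma two_L_im {β : ZI} (h : Ev β) : 2 * L β im1 = if β.im % 4 = 0 then 0 else 2 := by
  rw [L_im h.od]
  have h1 := nrm_quarter_parity h
  obtain ⟨k, hk⟩ : ∃ k, nrm β / 4 = k := ⟨_, rfl⟩
  rw [hk] at h1 ⊢
  split_ifs with h2
  · obtain ⟨j, hj⟩ : ∃ j, k = 2 * j := ⟨k / 2, by have := h1.2 h2; omega⟩
    rw [hj]
    push_cast
    linear_combination (j : ZMod 4) * four_zero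
  · obtain ⟨j, hj⟩ : ∃ j, k = 2 * j + 1 := ⟨k / 2, by
      have : ¬ k % 2 = 0 := fun h' => h2 (h1.1 h')
      omega⟩
    rw [hj]
    push_cast
    linear_combination (j : ZMod 4) * four_zero

lemma ls_e8 (n : ℤ) : ls (e8 n) = if n % 8 = 1 ∨ n % 8 = 7 then 0 else 2 := by
  unfold ls e8
  split_ifs with h1 h2 h3 <;> simp_all

lemma ls_s2 (n d : ℤ) : ls (s2 n d) = if n % 4 = 1 ∨ d % 4 = 0 then 0 else 2 := by
  unfold ls s2
  split_ifs with h1 h2 h3 <;> simp_all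

lemma e8_cases (n : ℤ) : e8 n = 1 ∨ e8 n = -1 := by unfold e8; split_ifs <;> simp

lemma lg_int_sign {s : ℤ} (hs : s = 1 ∨ s = -1) : lg (s : ZI) = ls s := by
  rcases hs with h | h <;> rw [h]
  · simp [lg_one, ls]
  · have e : ((-1 : ℤ) : ZI) = -1 := by simp
    rw [e, lg_neg_one]; rfl

lemma two_L_oi {β : ZI} (h : Ev β) : 2 * L β oi = if (β.re + β.im) % 8 = 1 ∨ (β.re + β.im) % 8 = 7
    then 0 else 2 := by
  rw [← ls_e8, ← lg_int_sign (e8_cases _), ← sq_oi h, lg_pow (Q_norm h.od (cop_oi h.od))]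
  rfl

lemma cop_oi' {β : ZI} (h : Od β) : IsCoprime β (star oi) := by
  have e : star oi = -im1 * oi := by decide
  rw [e]
  exact (cop_unit (by decide) β).mul_right (cop_oi h)

lemma two_L_oi' {β : ZI} (h : Ev β) : 2 * L β (star oi) =
    if (β.re - β.im) % 8 = 1 ∨ (β.re - β.im) % 8 = 7 then 0 else 2 := by
  have h1 := sq_oi h.star
  have h2 := Q_star h.star.od oi
  rw [star_star] at h2
  have h3 : Q β (star oi) ^ 2 = ((e8 (β.re - β.im) : ℤ) : ZI) := by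
    rw [h2, ← star_pow, h1, Zsqrtd.re_star, Zsqrtd.im_star, star_intCast]
    congr 2
  rw [← ls_e8, ← lg_int_sign (e8_cases _), ← h3, lg_pow (Q_norm h.od (cop_oi' h.od))]
  rfl

lemma L_two {β : ZI} (h : Od β) : L β 2 = 3 * L β im1 + 2 * L β oi := by
  have e : (2 : ZI) = im1 ^ 3 * oi ^ 2 := by decide
  have c1 := cop_unit im1_norm β
  rw [e, L_mul h c1.pow_right (cop_oi h).pow_right, L_pow h c1, L_pow h (cop_oi h)]
  norm_num

lemma two_L_two {β : ZI} (h : Od β) : 2 * L β 2 = 2 * L β im1 := by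
  rw [L_two h]
  linear_combination (L β im1 + L β oi) * four_zero

lemma L_neg_four {β : ZI} (h : Od β) : L β (-2 ^ (1 + 1)) = 0 := by
  have e : (-2 ^ (1 + 1) : ZI) = oi ^ 4 := by decide
  rw [e, L_pow h (cop_oi h)]
  have := four_zero
  push_cast
  rw [this, zero_mul]

lemma L_neg_two {β : ZI} (h : Od β) : L β (-2 ^ (0 + 1)) = L β im1 + 2 * L β oi := by
  have e : (-2 ^ (0 + 1) : ZI) = im1 * oi ^ 2 := by decide
  rw [e, L_mul h (cop_unit im1_norm β) (cop_oi h).pow_right, L_pow h (cop_oi h)]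
  norm_num

lemma L_int_im {n : ℤ} (hn : n % 2 = 1) : L (n : ZI) im1 = if n % 8 = 1 ∨ n % 8 = 7 then 0 else 2 := by
  unfold L
  rw [Q_im_int hn, lg_int_sign (e8_cases _), ls_e8]

lemma ls_sg (α β : ZI) : ls (sg α β) =
    2 * (((a0 α * a1 β + a1 α * a0 β + a1 α * a1 β : ℕ)) : ZMod 4) := by
  unfold sg
  obtain ⟨k, hk⟩ : ∃ k, a0 α * a1 β + a1 α * a0 β + a1 α * a1 β = k := ⟨_, rfl⟩
  rw [hk]
  unfold ls
  rcases Nat.even_or_odd' k with ⟨j, rfl | rfl⟩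
  · rw [pow_mul]
    norm_num
    linear_combination -(j : ZMod 4) * four_zero
  · rw [pow_succ, pow_mul]
    norm_num
    linear_combination -(j : ZMod 4) * four_zero

/-- the Legendre symbol `(y/p)` -/
lemma two_L_odd {p : ℕ} (hp : p.Prime) {c d x y0 k D : ℤ} (hc : c % 2 = 1) (hd : d % 2 = 0)
    (hcd : c ^ 2 + d ^ 2 = p) (hxy : x ^ 2 + D * (k * y0) ^ 2 = p) (hy0 : y0 % 2 = 1) :
    IsCoprime (⟨c, d⟩ : ZI) (y0 : ZI) → 2 * L (⟨c, d⟩ : ZI) (y0 : ZI) = 0 := by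
  intro hcop
  have hπ : Ev (⟨c, d⟩ : ZI) := ev_of hc hd
  rw [L_rec_int hy0 hπ hcop.symm, mul_add, two_ls, add_zero]
  have h1 := sq_norm hy0 (⟨c, d⟩ : ZI)
  have h2 : (⟨c, d⟩ : ZI).norm = x ^ 2 + y0 * (D * k ^ 2 * y0) := by
    rw [norm_def']
    show c ^ 2 + d ^ 2 = _
    rw [hcd, ← hxy]; ring
  have hgcd : IsCoprime x y0 := by
    have h3 : IsCoprime (p : ℤ) y0 := by
      have h4 := (Nat.prime_iff_prime_int.1 hp)
      rw [h4.coprime_iff_not_dvd]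
      intro hdv
      have h5 : (⟨c, d⟩ : ZI) ∣ ((p : ℤ) : ZI) := by
        refine ⟨star ⟨c, d⟩, ?_⟩
        rw [← Zsqrtd.norm_eq_mul_conj, norm_def']
        show _ = ((c ^ 2 + d ^ 2 : ℤ) : ZI)
        rw [hcd]
      have h6 : (⟨c, d⟩ : ZI) ∣ (y0 : ZI) := h5.trans (Int.cast_dvd_cast _ _ hdv)
      have h7 := hcop.isUnit_of_dvd' dvd_rfl h6
      rw [isUnit_iff_norm, norm_def'] at h7
      have h8 : c ^ 2 + d ^ 2 = 1 := h7
      rw [hcd] at h8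
      have := hp.one_lt
      omega
    have h4 : (p : ℤ) = x ^ 2 + y0 * (D * k ^ 2 * y0) := by rw [← hxy]; ring
    rw [h4] at h3
    have h5 : IsCoprime (x ^ 2) y0 := (IsCoprime.add_mul_left_left_iff).1 h3
    rw [sq] at h5
    exact h5.of_mul_left_left
  have h3 : jacobiSym (⟨c, d⟩ : ZI).norm y0.natAbs = 1 := by
    rw [h2]
    have e1 : (x ^ 2 + y0 * (D * k ^ 2 * y0)) % (y0.natAbs : ℤ) = x ^ 2 % (y0.natAbs : ℤ) := by
      exact Int.ModEq.symm ((Int.modEq_iff_dvd).2 (by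
        rw [add_sub_cancel_left]
        exact (Int.natAbs_dvd.2 dvd_rfl).mul_right _))
    rw [jacobiSym.mod_left, e1, ← jacobiSym.mod_left]
    apply jacobiSym.sq_one'
    have h5 : Int.gcd x (y0.natAbs : ℤ) = Int.gcd x y0 := by
      show Nat.gcd x.natAbs ((y0.natAbs : ℤ)).natAbs = Nat.gcd x.natAbs y0.natAbs
      rw [Int.natAbs_natCast]
    rw [h5]
    exact Int.isCoprime_iff_gcd_eq_one.1 hgcd
  have hod : Od (y0 : ZI) := od_int.2 hy0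
  rw [h3, Int.cast_one] at h1
  have h4 := congrArg lg h1
  rw [lg_pow (Q_norm hod hcop.symm), lg_one] at h4
  exact_mod_cast h4

end Pool.Agent.R441.Q4
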