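import Pool.Agent.R441.Q4.I

/-!
The quartic symbol of the unit `(b + √(b²+4))/2`, `b` odd.
-/

set_option autoImplicit false
set_option linter.unusedSimpArgs false

namespace Pool.Agent.R441.Q4

lemma two_L_sq {β a : ZI} (h : Od β) (ha : IsCoprime β a) (n : ℕ) : 2 * L β (a ^ (2 * n)) = 0 := by
  rw [L_pow h ha]
  push_cast
  linear_combination ((n : ZMod 4) * L β a) * four_zero

lemma cop_py {p : ℕ} (hp : p.Prime) {x y D : ℤ} (hxy : x ^ 2 + D * y ^ 2 = p) (hD : 0 < D) :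
    IsCoprime (p : ℤ) y := by
  have hpi : Prime (p : ℤ) := Nat.prime_iff_prime_int.1 hp
  have hp0 : (0 : ℤ) < p := by exact_mod_cast hp.pos
  have hy0 : y ≠ 0 := by
    rintro rfl
    have h3 : x ^ 2 = p := by linarith
    exact hpi.irreducible.not_isSquare ⟨x, by rw [← h3, sq]⟩
  have hy2 : 0 < y ^ 2 := by positivity
  have hyle : D * y ^ 2 ≤ p := by nlinarith [sq_nonneg x]
  rw [hpi.coprime_iff_not_dvd]
  intro hd
  obtain ⟨k, rfl⟩ := hd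
  have hk : k ≠ 0 := by rintro rfl; simp at hy0
  have hk2 : 1 ≤ k ^ 2 := by
    have : 0 < k ^ 2 := by positivity
    omega
  have h3 : (2 : ℤ) ≤ p := by exact_mod_cast hp.two_le
  nlinarith [mul_pos hD hy2, mul_le_mul_of_nonneg_left hk2 (sq_nonneg (p : ℤ))]

lemma cop_pi_int {p : ℕ} {c d m : ℤ} (hcd : c ^ 2 + d ^ 2 = p) (h : IsCoprime (p : ℤ) m) :
    IsCoprime (⟨c, d⟩ : ZI) (m : ZI) := by
  have h1 := int_cop h
  have h2 : ((p : ℤ) : ZI) = ⟨c, d⟩ * star ⟨c, d⟩ := by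
    rw [← Zsqrtd.norm_eq_mul_conj, norm_def']
    show _ = ((c ^ 2 + d ^ 2 : ℤ) : ZI)
    rw [hcd]
  rw [h2] at h1
  exact h1.of_mul_left_left

lemma int_two_pow {y : ℤ} (hy : y ≠ 0) : ∃ (k : ℕ) (y0 : ℤ), y = 2 ^ k * y0 ∧ y0 % 2 = 1 := by
  obtain ⟨k, m, hm, h⟩ := Nat.exists_eq_two_pow_mul_odd (n := y.natAbs) (by omega)
  have hm2 := Nat.odd_iff.1 hm
  rcases Int.natAbs_eq y with h1 | h1
  · exact ⟨k, m, by rw [h1, h]; push_cast; rfl, by omega⟩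
  · exact ⟨k, -m, by rw [h1, h]; push_cast; ring, by omega⟩

/-- the Legendre symbol `(y/p)` -/
lemma two_L_y {p : ℕ} (hp : p.Prime) {c d x y D : ℤ} (hc : c % 2 = 1) (hd : d % 2 = 0)
    (hcd : c ^ 2 + d ^ 2 = p) (hxy : x ^ 2 + D * y ^ 2 = p) (hD : 0 < D) {k : ℕ} {y0 : ℤ}
    (hy : y = 2 ^ k * y0) (hy0 : y0 % 2 = 1) :
    2 * L (⟨c, d⟩ : ZI) (y : ZI) = k * (if d % 4 = 0 then 0 else 2) := by
  have h1 := cop_pi_int hcd (cop_py hp hxy hD)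
  have hπ : Ev (⟨c, d⟩ : ZI) := ev_of hc hd
  have h2 : IsCoprime (⟨c, d⟩ : ZI) (y0 : ZI) := by
    rw [hy] at h1
    push_cast at h1
    exact h1.of_mul_right_right
  have h3 := two_L_odd hp (k := 2 ^ k) hc hd hcd (by rw [hy] at hxy; exact hxy) hy0 h2
  have e : (y : ZI) = 2 ^ k * (y0 : ZI) := by rw [hy]; push_cast; ring
  have h4 := two_L_im hπ
  have h5 := two_L_two hπ.od
  rw [e, L_mul hπ.od (cop_two_pow hπ.od k) h2, L_pow hπ.od (cop_two hπ.od), mul_add, h3, add_zero]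
  have e2 : (2 : ZMod 4) * (k * L (⟨c, d⟩ : ZI) 2) = k * (2 * L (⟨c, d⟩ : ZI) 2) := by ring
  rw [e2, h5, h4]

lemma ls_sg' (a b c d : ℤ) : ls (sg ⟨a, b⟩ ⟨c, d⟩) =
    (if (a + b) % 4 = 1 then 0 else if d % 4 = 0 then 0 else 2) +
    (if b % 4 = 0 then 0 else if (c + d) % 4 = 1 then 0 else 2) +
    (if b % 4 = 0 then 0 else if d % 4 = 0 then 0 else 2) := by
  rw [ls_sg]
  unfold a0 a1
  simp only
  split_ifs <;> decide

lemma two_im {a b : ℤ} (ha : a % 2 = 1) (hb : b % 2 = 0) :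
    2 * L (⟨a, b⟩ : ZI) im1 = if b % 4 = 0 then 0 else 2 := two_L_im (ev_of ha hb)

lemma two_oi {a b : ℤ} (ha : a % 2 = 1) (hb : b % 2 = 0) :
    2 * L (⟨a, b⟩ : ZI) oi = if (a + b) % 8 = 1 ∨ (a + b) % 8 = 7 then 0 else 2 :=
  two_L_oi (ev_of ha hb)

lemma two_oi' {a b : ℤ} (ha : a % 2 = 1) (hb : b % 2 = 0) :
    2 * L (⟨a, b⟩ : ZI) (star oi) = if (a - b) % 8 = 1 ∨ (a - b) % 8 = 7 then 0 else 2 :=
  two_L_oi' (ev_of ha hb)

lemma sgnA {b b1 y y1 d d1 c z m Tr : ℤ} (hb : b = 2 * b1 + 1) (hc : c % 4 = 1) (hy : y = 2 * y1)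
    (hd : d = 2 * d1) (hpar : y1 % 2 = d1 % 2) (hz0 : y1 % 2 = 0 → z % 2 = 0)
    (hz1 : y1 % 2 = 1 → z % 2 = b1 % 2) (hTr : Tr % 16 = (4 * z + 2 * y1 - d) % 16) (hm : m % 4 = 1)
    (hyd : y % 4 = 2 → y % 8 = 2) (hdd : d % 4 = 2 → d % 8 = 2) :
    ((if (b + 2) % 4 = 1 then 0 else if d % 4 = 0 then 0 else 2) +
    (if (2 : ℤ) % 4 = 0 then 0 else if (c + d) % 4 = 1 then 0 else 2) +
    (if (2 : ℤ) % 4 = 0 then 0 else if d % 4 = 0 then 0 else 2)) +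
    (if m % 4 = 1 ∨ (2 : ℤ) % 4 = 0 then 0 else 2) + (if (-(Tr / 2)) % 4 = 0 then 0 else 2) =
      (if y % 4 = 2 then (2 : ZMod 4) else if (d + y) % 8 = 0 then 0 else 2) := by
  subst hb hy hd
  rw [if_neg (show ¬ (2 : ℤ) % 4 = 0 by norm_num), if_neg (show ¬ (2 : ℤ) % 4 = 0 by norm_num),
    if_pos (show m % 4 = 1 ∨ (2 : ℤ) % 4 = 0 from Or.inl hm)]
  rcases Int.emod_two_eq_zero_or_one y1 with h | h
  · have hz := hz0 h
    rw [if_pos (show (2 * d1) % 4 = 0 by omega), if_pos (show (c + 2 * d1) % 4 = 1 by omega),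
      if_neg (show ¬ (2 * y1) % 4 = 2 by omega)]
    by_cases h8 : (2 * d1 + 2 * y1) % 8 = 0
    · rw [if_pos (show (-(Tr / 2)) % 4 = 0 by omega), if_pos h8]
      split_ifs <;> decide
    · rw [if_neg (show ¬ (-(Tr / 2)) % 4 = 0 by omega), if_neg h8]
      split_ifs <;> decide
  · have hz := hz1 h
    rw [if_neg (show ¬ (2 * d1) % 4 = 0 by omega), if_neg (show ¬ (c + 2 * d1) % 4 = 1 by omega),
      if_pos (show (2 * y1) % 4 = 2 by omega)]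
    have h1 := hyd (by omega)
    have h2 := hdd (by omega)
    rcases Int.emod_two_eq_zero_or_one b1 with h' | h'
    · rw [if_neg (show ¬ (2 * b1 + 1 + 2) % 4 = 1 by omega), if_pos (show (-(Tr / 2)) % 4 = 0 by omega)]
      decide
    · rw [if_pos (show (2 * b1 + 1 + 2) % 4 = 1 by omega), if_neg (show ¬ (-(Tr / 2)) % 4 = 0 by omega)]
      decide

lemma mul_par {a b : ℤ} : (b % 2 = 0 → (a * b) % 2 = 0) ∧ (b % 2 = 1 → (a * b) % 2 = a % 2) := by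
  constructor <;> intro h <;> rw [Int.mul_emod, h] <;> simp

/-- `b` odd, `x` odd -/
theorem chi_odd_A {p : ℕ} (hp : p.Prime) (h2 : p ≠ 2) {b c d x y : ℤ} (hb : b % 2 = 1)
    (hc : c % 4 = 1) (hd : d % 2 = 0) (hx : x % 4 = 1) (hy : y % 2 = 0)
    (hyd : y % 4 = 2 → y % 8 = 2) (hdd : d % 4 = 2 → d % 8 = 2)
    (hcd : c ^ 2 + d ^ 2 = p)
    (hxy : x ^ 2 + (b ^ 2 + 4) * y ^ 2 = p) (hDp : b ^ 2 + 4 ≠ p) :
    L ⟨c, d⟩ (((b * y : ℤ) : ZI) + (x : ZI) * im1) = L ⟨c, d⟩ ((2 : ℤ) : ZI) + L ⟨c, d⟩ (y : ZI) +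
      (if y % 4 = 2 then 2 else if (d + y) % 8 = 0 then 0 else 2) := by
  have hc2 : c % 2 = 1 := by omega
  obtain ⟨n, Tr, Ti, hn, hTr, hTi, H⟩ := master_p hp h2 (a := b) (h := 2) (Or.inr rfl) hc2 hd hcd
    (by rw [show b ^ 2 + 2 ^ 2 = b ^ 2 + 4 by ring]; exact hxy)
    (by rw [show b ^ 2 + 2 ^ 2 = b ^ 2 + 4 by ring]; exact hDp)
  obtain ⟨b1, hb1⟩ : ∃ b1, b = 2 * b1 + 1 := ⟨b / 2, by omega⟩
  obtain ⟨c1, hc1⟩ : ∃ c1, c = 4 * c1 + 1 := ⟨c / 4, by omega⟩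
  obtain ⟨x1, hx1⟩ : ∃ x1, x = 4 * x1 + 1 := ⟨x / 4, by omega⟩
  obtain ⟨y1, hy1⟩ : ∃ y1, y = 2 * y1 := ⟨y / 2, by omega⟩
  obtain ⟨d1, hd1⟩ : ∃ d1, d = 2 * d1 := ⟨d / 2, by omega⟩
  obtain ⟨z, hz⟩ : ∃ z, z = b1 * y1 := ⟨_, rfl⟩
  have hby : b * y = 4 * z + 2 * y1 := by rw [hb1, hy1, hz]; ring
  -- the parity of `y1` is that of `d1`
  obtain ⟨t, ht⟩ : ∃ t, b1 * (b1 + 1) = 2 * t := ⟨b1 * (b1 + 1) / 2, by
    have := Int.even_iff.1 (Int.even_mul_succ_self b1)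
    omega⟩
  obtain ⟨s, hs⟩ : ∃ s, s = y1 ^ 2 := ⟨_, rfl⟩
  obtain ⟨r, hr⟩ : ∃ r, r = d1 ^ 2 := ⟨_, rfl⟩
  obtain ⟨u, hu⟩ : ∃ u, u = c1 ^ 2 - x1 ^ 2 := ⟨_, rfl⟩
  have e1 : 16 * u + 8 * (c1 - x1) + 4 * r = 4 * ((8 * t + 5) * s) := by
    have h3 : b ^ 2 = 8 * t + 1 := by rw [hb1]; linear_combination 4 * ht
    rw [h3] at hxy
    rw [hc1, hd1] at hcd
    rw [hx1, hy1] at hxy
    rw [hu, hs, hr]
    linear_combination hcd - hxy
  obtain ⟨q, hq⟩ : ∃ q, q = t * s := ⟨_, rfl⟩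
  have e2 : 16 * u + 8 * (c1 - x1) + 4 * r = 32 * q + 20 * s := by rw [hq]; linear_combination e1
  have hs4 : s % 4 = if y1 % 2 = 0 then 0 else 1 := by
    rw [hs]
    split_ifs with h
    · obtain ⟨m, hm⟩ : ∃ m, y1 = 2 * m := ⟨y1 / 2, by omega⟩
      rw [hm]; ring_nf; omega
    · obtain ⟨m, hm⟩ : ∃ m, y1 = 2 * m + 1 := ⟨y1 / 2, by omega⟩
      rw [hm]; ring_nf; omega
  have hr4 : r % 4 = if d1 % 2 = 0 then 0 else 1 := by
    rw [hr]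
    split_ifs with h
    · obtain ⟨m, hm⟩ : ∃ m, d1 = 2 * m := ⟨d1 / 2, by omega⟩
      rw [hm]; ring_nf; omega
    · obtain ⟨m, hm⟩ : ∃ m, d1 = 2 * m + 1 := ⟨d1 / 2, by omega⟩
      rw [hm]; ring_nf; omega
  have hpar : y1 % 2 = d1 % 2 := by
    split_ifs at hs4 hr4 <;> omega
  have hcx : (c1 - x1) % 2 = 0 := by
    split_ifs at hs4 hr4 <;> omega
  rw [hby] at hTr
  have hn0 : (n / 2) % 4 = 1 := by omega
  have hTr4 : Tr % 4 = 0 := by omega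
  have hTi4 : Ti % 4 = 2 := by omega
  have hπ : Ev (⟨c, d⟩ : ZI) := ev_of hc2 hd
  have hθ : Ev (⟨b, 2⟩ : ZI) := ev_of hb rfl
  have hT1 : Ev (⟨Ti / 2, -(Tr / 2)⟩ : ZI) := ev_of (by show Ti / 2 % 2 = 1; omega)
    (by show -(Tr / 2) % 2 = 0; omega)
  have cw : ∀ β : ZI, Od β → IsCoprime β (2 * im1) := fun β hβ =>
    (cop_two hβ).mul_right (cop_unit im1_norm β)
  have c1' : ∀ β : ZI, Od β → IsCoprime β 1 := fun β _ => isCoprime_one_right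
  have F := H 1 (n / 2) 1 ⟨b, 2⟩ (2 * im1) ⟨Ti / 2, -(Tr / 2)⟩ (by omega) (by omega)
    (by rw [one_mul]) hθ (by
      have : (2 : ZI) * im1 = ⟨0, 2⟩ := by decide
      rw [this, re_im_mul]
      ext
      · show Tr = _; simp only; omega
      · show Ti = _; simp only; omega) hT1 cw c1'
  have odn : Od ((n / 2 : ℤ) : ZI) := od_int.2 (by omega)
  -- y = 2^k y0
  have hy0 : y ≠ 0 := by
    rintro rfl
    have h3 : x ^ 2 = p := by linarith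
    exact (Nat.prime_iff_prime_int.1 hp).irreducible.not_isSquare ⟨x, by rw [← h3, sq]⟩
  have e2i : (2 : ZI) * im1 = oi ^ (2 * 1) := by decide
  have w1 := two_L_sq hπ.od (cop_oi hπ.od) 1
  have w2 := two_L_sq hθ.od (cop_oi hθ.od) 1
  have w3 := two_L_sq odn (cop_oi odn) 1
  have e4 : (-(2 ^ 1 * ((2 : ℤ) : ZI) * 1 * im1) : ZI) = im1 * oi ^ (2 * 2) := by decide
  have w4 := two_L_sq hT1.od (cop_oi hT1.od) 2
  have k1 := two_im (a := Ti / 2) (b := -(Tr / 2)) (by omega) (by omega)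
  have k2 := two_im hc2 hd
  have k3 := two_L_two hπ.od
  have e5 : (2 * ((2 : ℤ) : ZI) : ZI) = 2 ^ 2 := by decide
  rw [L_neg_four hθ.od, L_one hπ.od, L_one odn, e2i, e4, L_mul hT1.od (cop_unit im1_norm _)
    (cop_oi hT1.od).pow_right, e5, L_pow hπ.od (cop_two hπ.od)] at F
  rw [F]
  have hDpos : 0 < b ^ 2 + 4 := by positivity
  have hLy : 2 * L (⟨c, d⟩ : ZI) (y : ZI) + (if d % 4 = 0 then 0 else 2) = 0 := by
    by_cases hd4 : d % 4 = 0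
    · obtain ⟨k, y0, hk, hk2⟩ := int_two_pow hy0
      rw [two_L_y hp hc2 hd hcd hxy hDpos hk hk2, if_pos hd4, mul_zero, add_zero]
    · rw [two_L_y hp hc2 hd hcd hxy hDpos (k := 1) (y0 := y / 2) (by omega) (by omega), if_neg hd4]
      decide
  have f4 := four_zero
  have key : ls (sg ⟨b, 2⟩ ⟨c, d⟩) + ls (s2 (n / 2) (⟨b, 2⟩ : ZI).im) +
      2 * L (⟨Ti / 2, -(Tr / 2)⟩ : ZI) im1 =
      (if y % 4 = 2 then 2 else if (d + y) % 8 = 0 then 0 else 2) := by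
    rw [ls_sg', ls_s2, k1]
    have hmp := mul_par (a := b1) (b := y1)
    rw [← hz] at hmp
    exact sgnA hb1 hc hy1 hd1 hpar hmp.1 hmp.2 hTr hn0 hyd hdd
  push_cast
  linear_combination key + hLy + w1 + w2 + w3 + w4 + k2 - k3 - L (⟨c, d⟩ : ZI) im1 * f4

end Pool.Agent.R441.Q4
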