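import Pool.Agent.R441.Q4.J

/-!
The quartic symbol of the unit `(b + √(b²+4))/2`, `b` odd, `x` even.
-/

set_option autoImplicit false
set_option linter.unusedSimpArgs false

namespace Pool.Agent.R441.Q4

lemma L_theta_im {b : ℤ} (hb : b % 2 = 1) :
    L (⟨b, 2⟩ : ZI) im1 = if b % 8 = 1 ∨ b % 8 = 7 then 1 else 3 := by
  have hθ : Ev (⟨b, 2⟩ : ZI) := ev_of hb rfl
  rw [L_im hθ.od]
  have h1 : ((nrm (⟨b, 2⟩ : ZI) : ℕ) : ℤ) = b ^ 2 + 4 := by
    unfold nrm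
    have h2 : (⟨b, 2⟩ : ZI).norm = b ^ 2 + 4 := by rw [norm_def']; ring
    rw [h2]
    exact Int.natAbs_of_nonneg (by positivity)
  obtain ⟨k, hk⟩ : ∃ k, nrm (⟨b, 2⟩ : ZI) / 4 = k := ⟨_, rfl⟩
  rw [hk]
  obtain ⟨q, hq⟩ : ∃ q, q = b / 8 := ⟨_, rfl⟩
  have h3 : b % 8 = 1 ∨ b % 8 = 3 ∨ b % 8 = 5 ∨ b % 8 = 7 := by omega
  have key : (b % 8 = 1 ∨ b % 8 = 7) ∧ k % 4 = 1 ∨ (b % 8 = 3 ∨ b % 8 = 5) ∧ k % 4 = 3 := by
    rcases h3 with h | h | h | h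
    · left
      refine ⟨Or.inl h, ?_⟩
      have e : b ^ 2 = 64 * q ^ 2 + 16 * q + 1 := by
        have : b = 8 * q + 1 := by omega
        rw [this]; ring
      rw [e] at h1
      obtain ⟨s, hs⟩ : ∃ s, s = q ^ 2 := ⟨_, rfl⟩
      rw [← hs] at h1
      omega
    · right
      refine ⟨Or.inl h, ?_⟩
      have e : b ^ 2 = 64 * q ^ 2 + 48 * q + 9 := by
        have : b = 8 * q + 3 := by omega
        rw [this]; ring
      rw [e] at h1
      obtain ⟨s, hs⟩ : ∃ s, s = q ^ 2 := ⟨_, rfl⟩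
      rw [← hs] at h1
      omega
    · right
      refine ⟨Or.inr h, ?_⟩
      have e : b ^ 2 = 64 * q ^ 2 + 80 * q + 25 := by
        have : b = 8 * q + 5 := by omega
        rw [this]; ring
      rw [e] at h1
      obtain ⟨s, hs⟩ : ∃ s, s = q ^ 2 := ⟨_, rfl⟩
      rw [← hs] at h1
      omega
    · left
      refine ⟨Or.inr h, ?_⟩
      have e : b ^ 2 = 64 * q ^ 2 + 112 * q + 49 := by
        have : b = 8 * q + 7 := by omega
        rw [this]; ring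
      rw [e] at h1
      obtain ⟨s, hs⟩ : ∃ s, s = q ^ 2 := ⟨_, rfl⟩
      rw [← hs] at h1
      omega
  rcases key with ⟨h, h'⟩ | ⟨h, h'⟩
  · rw [if_pos h]
    obtain ⟨j, hj⟩ : ∃ j, k = 4 * j + 1 := ⟨k / 4, by omega⟩
    rw [hj]; push_cast
    linear_combination (j : ZMod 4) * four_zero
  · rw [if_neg (by omega)]
    obtain ⟨j, hj⟩ : ∃ j, k = 4 * j + 3 := ⟨k / 4, by omega⟩
    rw [hj]; push_cast
    linear_combination (j : ZMod 4) * four_zero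

/-- `b` odd, `x` even, `b ≡ 1 (mod 4)` -/
theorem chi_odd_B1 {p : ℕ} (hp : p.Prime) (h2 : p ≠ 2) {b c d x y : ℤ} (hb : b % 4 = 1)
    (hc : c % 4 = 1) (hd : d % 2 = 0) (hx : x % 2 = 0) (hy : y % 4 = 1) (hxd : (x + d) % 4 = 2)
    (hcd : c ^ 2 + d ^ 2 = p)
    (hxy : x ^ 2 + (b ^ 2 + 4) * y ^ 2 = p) (hDp : b ^ 2 + 4 ≠ p) :
    L ⟨c, d⟩ (((b * y : ℤ) : ZI) + (x : ZI) * im1) = L ⟨c, d⟩ ((2 : ℤ) : ZI) + L ⟨c, d⟩ (y : ZI) +
      (ls (sg ⟨b, 2⟩ ⟨c, d⟩) + (if (c + x) % 4 = 1 then 0 else 2) - (if d % 4 = 0 then 0 else 2) +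
        (if b % 8 = 1 ∨ b % 8 = 7 then 1 else 3) +
        (if (c + d) % 8 = 1 ∨ (c + d) % 8 = 7 then 0 else 2) +
        (if (c + x) % 8 = 1 ∨ (c + x) % 8 = 7 then 0 else 2)) := by
  have hc2 : c % 2 = 1 := by omega
  have hb2 : b % 2 = 1 := by omega
  obtain ⟨n, Tr, Ti, hn, hTr, hTi, H⟩ := master_p hp h2 (a := b) (h := 2) (Or.inr rfl) hc2 hd hcd
    (by rw [show b ^ 2 + 2 ^ 2 = b ^ 2 + 4 by ring]; exact hxy)
    (by rw [show b ^ 2 + 2 ^ 2 = b ^ 2 + 4 by ring]; exact hDp)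
  obtain ⟨z, hz⟩ : ∃ z, b * y = 4 * z + 1 := by
    obtain ⟨b1, hb1⟩ : ∃ b1, b = 4 * b1 + 1 := ⟨b / 4, by omega⟩
    obtain ⟨y1, hy1⟩ : ∃ y1, y = 4 * y1 + 1 := ⟨y / 4, by omega⟩
    exact ⟨4 * b1 * y1 + b1 + y1, by rw [hb1, hy1]; ring⟩
  rw [hz] at hTr
  have hπ : Ev (⟨c, d⟩ : ZI) := ev_of hc2 hd
  have hθ : Ev (⟨b, 2⟩ : ZI) := ev_of hb2 rfl
  have hT1 : Ev (⟨(Tr + Ti) / 2, (Ti - Tr) / 2⟩ : ZI) := by
    apply ev_of
    · show (Tr + Ti) / 2 % 2 = 1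
      clear H
      omega
    · show (Ti - Tr) / 2 % 2 = 0
      clear H
      omega
  have cw : ∀ β : ZI, Od β → IsCoprime β oi := fun β hβ => cop_oi hβ
  have c1' : ∀ β : ZI, Od β → IsCoprime β 1 := fun β _ => isCoprime_one_right
  have hn2 : n % 2 = 1 := by clear H; omega
  have F := H 0 n 1 ⟨b, 2⟩ oi ⟨(Tr + Ti) / 2, (Ti - Tr) / 2⟩ (by rw [pow_zero, one_mul]) hn2
    (by rw [one_mul]) hθ (by
      have : oi = ⟨1, 1⟩ := by decide
      rw [this, re_im_mul]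
      clear H
      ext
      · show Tr = _; simp only; omega
      · show Ti = _; simp only; omega) hT1 cw c1'
  clear H
  have odn : Od (n : ZI) := od_int.2 hn2
  have w2 := two_oi hb2 (b := 2) rfl
  have w1 := two_oi hc2 hd
  have w3 := two_L_oi (ev_int hn2)
  have e3 : ((n : ZI).re + (n : ZI).im) = n := by
    rw [Zsqrtd.re_intCast, Zsqrtd.im_intCast, add_zero]
  rw [e3] at w3
  have e4 : (-(2 ^ 0 * ((2 : ℤ) : ZI) * 1 * im1) : ZI) = (star oi) ^ (2 * 1) := by decide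
  have w4 := two_L_sq hT1.od (cop_oi' hT1.od) 1
  have k2 := two_im hc2 hd
  have k3 := two_L_two hπ.od
  have e5 : (2 * ((2 : ℤ) : ZI) : ZI) = 2 ^ 2 := by decide
  have k4 := L_theta_im hb2
  have hDpos : 0 < b ^ 2 + 4 := by positivity
  have hLy := two_L_y hp hc2 hd hcd hxy hDpos (k := 0) (y0 := y) (by ring) (by omega)
  rw [L_neg_two hθ.od, L_one hπ.od, L_one odn, e4, w4, e5, L_pow hπ.od (cop_two hπ.od), k4, ls_s2] at F
  rw [F]
  have m1 : (n % 4 = 1 ∨ (⟨b, 2⟩ : ZI).im % 4 = 0) ↔ (c + x) % 4 = 1 := by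
    have : ¬ (⟨b, 2⟩ : ZI).im % 4 = 0 := by show ¬ (2 : ℤ) % 4 = 0; norm_num
    constructor
    · rintro (h | h)
      · omega
      · exact absurd h this
    · intro h; left; omega
  have m2 : (n % 8 = 1 ∨ n % 8 = 7) ↔ ((c + x) % 8 = 1 ∨ (c + x) % 8 = 7) := by omega
  rw [if_congr m1 rfl rfl]
  rw [if_congr m2 rfl rfl] at w3
  have f4 := four_zero
  rw [Nat.cast_zero, zero_mul] at hLy
  rw [← w1, ← w3, ← k2, ← k3]
  push_cast
  linear_combination hLy + L (⟨b, 2⟩ : ZI) oi * f4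

/-- `b` odd, `x` even, `b ≡ 3 (mod 4)` -/
theorem chi_odd_B3 {p : ℕ} (hp : p.Prime) (h2 : p ≠ 2) {b c d x y : ℤ} (hb : b % 4 = 3)
    (hc : c % 4 = 1) (hd : d % 2 = 0) (hx : x % 2 = 0) (hy : y % 4 = 1) (hxd : (x + d) % 4 = 2)
    (hcd : c ^ 2 + d ^ 2 = p)
    (hxy : x ^ 2 + (b ^ 2 + 4) * y ^ 2 = p) (hDp : b ^ 2 + 4 ≠ p) :
    L ⟨c, d⟩ (((b * y : ℤ) : ZI) + (x : ZI) * im1) = L ⟨c, d⟩ ((2 : ℤ) : ZI) + L ⟨c, d⟩ (y : ZI) +
      (ls (sg ⟨b, 2⟩ ⟨c, d⟩) + (if (c + x) % 4 = 1 then 0 else 2) - (if d % 4 = 0 then 0 else 2) +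
        (if b % 8 = 1 ∨ b % 8 = 7 then 1 else 3) + 2 +
        (if (c - d) % 8 = 1 ∨ (c - d) % 8 = 7 then 0 else 2) +
        (if (c + x) % 8 = 1 ∨ (c + x) % 8 = 7 then 0 else 2)) := by
  have hc2 : c % 2 = 1 := by omega
  have hb2 : b % 2 = 1 := by omega
  obtain ⟨n, Tr, Ti, hn, hTr, hTi, H⟩ := master_p hp h2 (a := b) (h := 2) (Or.inr rfl) hc2 hd hcd
    (by rw [show b ^ 2 + 2 ^ 2 = b ^ 2 + 4 by ring]; exact hxy)
    (by rw [show b ^ 2 + 2 ^ 2 = b ^ 2 + 4 by ring]; exact hDp)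
  obtain ⟨z, hz⟩ : ∃ z, b * y = 4 * z + 3 := by
    obtain ⟨b1, hb1⟩ : ∃ b1, b = 4 * b1 + 3 := ⟨b / 4, by omega⟩
    obtain ⟨y1, hy1⟩ : ∃ y1, y = 4 * y1 + 1 := ⟨y / 4, by omega⟩
    exact ⟨4 * b1 * y1 + b1 + 3 * y1, by rw [hb1, hy1]; ring⟩
  rw [hz] at hTr
  have hπ : Ev (⟨c, d⟩ : ZI) := ev_of hc2 hd
  have hθ : Ev (⟨b, 2⟩ : ZI) := ev_of hb2 rfl
  have hT1 : Ev (⟨(Tr - Ti) / 2, (Tr + Ti) / 2⟩ : ZI) := by
    apply ev_of
    · show (Tr - Ti) / 2 % 2 = 1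
      clear H
      omega
    · show (Tr + Ti) / 2 % 2 = 0
      clear H
      omega
  have cw : ∀ β : ZI, Od β → IsCoprime β (star oi) := fun β hβ => cop_oi' hβ
  have c1' : ∀ β : ZI, Od β → IsCoprime β 1 := fun β _ => isCoprime_one_right
  have hn2 : n % 2 = 1 := by clear H; omega
  have F := H 0 n 1 ⟨b, 2⟩ (star oi) ⟨(Tr - Ti) / 2, (Tr + Ti) / 2⟩ (by rw [pow_zero, one_mul]) hn2
    (by rw [one_mul]) hθ (by
      have : star oi = ⟨1, -1⟩ := by decide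
      rw [this, re_im_mul]
      clear H
      ext
      · show Tr = _; simp only; omega
      · show Ti = _; simp only; omega) hT1 cw c1'
  clear H
  have odn : Od (n : ZI) := od_int.2 hn2
  have w2 := two_oi hb2 (b := 2) rfl
  have w2' := two_oi' hb2 (b := 2) rfl
  have w1 := two_oi' hc2 hd
  have w3 := two_L_oi' (ev_int hn2)
  have e3 : ((n : ZI).re - (n : ZI).im) = n := by
    rw [Zsqrtd.re_intCast, Zsqrtd.im_intCast, sub_zero]
  rw [e3] at w3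
  have e4 : (-(2 ^ 0 * ((2 : ℤ) : ZI) * 1 * im1) : ZI) = (star oi) ^ (2 * 1) := by decide
  have w4 := two_L_sq hT1.od (cop_oi' hT1.od) 1
  have k2 := two_im hc2 hd
  have k3 := two_L_two hπ.od
  have e5 : (2 * ((2 : ℤ) : ZI) : ZI) = 2 ^ 2 := by decide
  have k4 := L_theta_im hb2
  have hDpos : 0 < b ^ 2 + 4 := by positivity
  have hLy := two_L_y hp hc2 hd hcd hxy hDpos (k := 0) (y0 := y) (by ring) (by omega)
  rw [L_neg_two hθ.od, L_one hπ.od, L_one odn, e4, w4, e5, L_pow hπ.od (cop_two hπ.od), k4, ls_s2] at F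
  rw [F]
  have m1 : (n % 4 = 1 ∨ (⟨b, 2⟩ : ZI).im % 4 = 0) ↔ (c + x) % 4 = 1 := by
    have : ¬ (⟨b, 2⟩ : ZI).im % 4 = 0 := by show ¬ (2 : ℤ) % 4 = 0; norm_num
    constructor
    · rintro (h | h)
      · omega
      · exact absurd h this
    · intro h; left; omega
  have m2 : (n % 8 = 1 ∨ n % 8 = 7) ↔ ((c + x) % 8 = 1 ∨ (c + x) % 8 = 7) := by omega
  rw [if_congr m1 rfl rfl]
  rw [if_congr m2 rfl rfl] at w3
  have w5 : 2 * L (⟨b, 2⟩ : ZI) oi + 2 * L (⟨b, 2⟩ : ZI) (star oi) = 2 := by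
    rw [w2, w2']
    have h3 : b % 8 = 3 ∨ b % 8 = 7 := by omega
    rcases h3 with h3 | h3
    · rw [if_neg (by omega), if_pos (by omega)]; decide
    · rw [if_pos (by omega), if_neg (by omega)]; decide
  have f4 := four_zero
  rw [Nat.cast_zero, zero_mul] at hLy
  rw [← w1, ← w3, ← k2, ← k3]
  push_cast
  linear_combination hLy + w5

/-- `b` odd, `x ≡ 2 (mod 4)` -/
theorem chi_odd_C1 {p : ℕ} (hp : p.Prime) (h2 : p ≠ 2) {b c d x y : ℤ} (hb : b % 2 = 1)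
    (hc : c % 4 = 1) (hd : d % 4 = 0) (hx : x % 8 = 2) (hy : y % 4 = 1)
    (hcd : c ^ 2 + d ^ 2 = p)
    (hxy : x ^ 2 + (b ^ 2 + 4) * y ^ 2 = p) (hDp : b ^ 2 + 4 ≠ p) :
    L ⟨c, d⟩ (((b * y : ℤ) : ZI) + (x : ZI) * im1) = L ⟨c, d⟩ ((2 : ℤ) : ZI) + L ⟨c, d⟩ (y : ZI) +
      ((if b % 8 = 1 ∨ b % 8 = 3 then 1 else 3) + (if d % 8 = 0 then 0 else 2)) := by
  have hb4 : b % 4 = 1 ∨ b % 4 = 3 := by omega
  rcases hb4 with hb4 | hb4
  · rw [chi_odd_B1 hp h2 hb4 hc (by omega) (by omega) hy (by omega) hcd hxy hDp, ls_sg']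
    congr 1
    rw [if_pos (show d % 4 = 0 from hd), if_neg (show ¬ (2 : ℤ) % 4 = 0 by norm_num),
      if_pos (show (c + d) % 4 = 1 by omega), if_neg (show ¬ (2 : ℤ) % 4 = 0 by norm_num),
      if_neg (show ¬ (c + x) % 4 = 1 by omega), if_neg (show ¬ (b + 2) % 4 = 1 by omega)]
    have m1 : (b % 8 = 1 ∨ b % 8 = 7) ↔ (b % 8 = 1 ∨ b % 8 = 3) := by omega
    rw [if_congr m1 rfl rfl]
    obtain ⟨s, hs⟩ : ∃ s : ZMod 4, s = (if b % 8 = 1 ∨ b % 8 = 3 then 1 else 3) := ⟨_, rfl⟩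
    rw [← hs]
    clear hs
    by_cases hd8 : d % 8 = 0
    · rw [if_pos hd8]
      have h3 : c % 8 = 1 ∨ c % 8 = 5 := by omega
      rcases h3 with h3 | h3
      · rw [if_pos (show (c + d) % 8 = 1 ∨ (c + d) % 8 = 7 by omega),
          if_neg (show ¬ ((c + x) % 8 = 1 ∨ (c + x) % 8 = 7) by omega)]
        revert s; decide
      · rw [if_neg (show ¬ ((c + d) % 8 = 1 ∨ (c + d) % 8 = 7) by omega),
          if_pos (show ((c + x) % 8 = 1 ∨ (c + x) % 8 = 7) by omega)]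
        revert s; decide
    · rw [if_neg hd8]
      have h3 : c % 8 = 1 ∨ c % 8 = 5 := by omega
      rcases h3 with h3 | h3
      · rw [if_neg (show ¬ ((c + d) % 8 = 1 ∨ (c + d) % 8 = 7) by omega),
          if_neg (show ¬ ((c + x) % 8 = 1 ∨ (c + x) % 8 = 7) by omega)]
        revert s; decide
      · rw [if_pos (show ((c + d) % 8 = 1 ∨ (c + d) % 8 = 7) by omega),
          if_pos (show ((c + x) % 8 = 1 ∨ (c + x) % 8 = 7) by omega)]
        revert s; decide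
  · rw [chi_odd_B3 hp h2 hb4 hc (by omega) (by omega) hy (by omega) hcd hxy hDp, ls_sg']
    congr 1
    rw [if_pos (show d % 4 = 0 from hd), if_neg (show ¬ (2 : ℤ) % 4 = 0 by norm_num),
      if_pos (show (c + d) % 4 = 1 by omega), if_neg (show ¬ (2 : ℤ) % 4 = 0 by norm_num),
      if_neg (show ¬ (c + x) % 4 = 1 by omega), if_pos (show (b + 2) % 4 = 1 by omega)]
    have m1 : (if b % 8 = 1 ∨ b % 8 = 3 then (1 : ZMod 4) else 3) =
        (if b % 8 = 1 ∨ b % 8 = 7 then 1 else 3) + 2 := by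
      have h3 : b % 8 = 3 ∨ b % 8 = 7 := by omega
      rcases h3 with h3 | h3
      · rw [if_pos (by omega), if_neg (by omega)]; decide
      · rw [if_neg (by omega), if_pos (by omega)]; decide
    rw [m1]
    obtain ⟨s, hs⟩ : ∃ s : ZMod 4, s = (if b % 8 = 1 ∨ b % 8 = 7 then 1 else 3) := ⟨_, rfl⟩
    rw [← hs]
    clear hs
    by_cases hd8 : d % 8 = 0
    · rw [if_pos hd8]
      have h3 : c % 8 = 1 ∨ c % 8 = 5 := by omega
      rcases h3 with h3 | h3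
      · rw [if_pos (show (c - d) % 8 = 1 ∨ (c - d) % 8 = 7 by omega),
          if_neg (show ¬ ((c + x) % 8 = 1 ∨ (c + x) % 8 = 7) by omega)]
        revert s; decide
      · rw [if_neg (show ¬ ((c - d) % 8 = 1 ∨ (c - d) % 8 = 7) by omega),
          if_pos (show ((c + x) % 8 = 1 ∨ (c + x) % 8 = 7) by omega)]
        revert s; decide
    · rw [if_neg hd8]
      have h3 : c % 8 = 1 ∨ c % 8 = 5 := by omega
      rcases h3 with h3 | h3
      · rw [if_neg (show ¬ ((c - d) % 8 = 1 ∨ (c - d) % 8 = 7) by omega),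
          if_neg (show ¬ ((c + x) % 8 = 1 ∨ (c + x) % 8 = 7) by omega)]
        revert s; decide
      · rw [if_pos (show ((c - d) % 8 = 1 ∨ (c - d) % 8 = 7) by omega),
          if_pos (show ((c + x) % 8 = 1 ∨ (c + x) % 8 = 7) by omega)]
        revert s; decide

/-- `b` odd, `x ≡ 0 (mod 4)` -/
theorem chi_odd_C2 {p : ℕ} (hp : p.Prime) (h2 : p ≠ 2) {b c d x y : ℤ} (hb : b % 2 = 1)
    (hc : c % 4 = 1) (hd : d % 8 = 2) (hx : x % 4 = 0) (hy : y % 4 = 1)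
    (hcd : c ^ 2 + d ^ 2 = p)
    (hxy : x ^ 2 + (b ^ 2 + 4) * y ^ 2 = p) (hDp : b ^ 2 + 4 ≠ p) :
    L ⟨c, d⟩ (((b * y : ℤ) : ZI) + (x : ZI) * im1) = L ⟨c, d⟩ ((2 : ℤ) : ZI) + L ⟨c, d⟩ (y : ZI) +
      ((if b % 8 = 1 ∨ b % 8 = 3 then 3 else 1) + (if x % 8 = 0 then 0 else 2)) := by
  have hb4 : b % 4 = 1 ∨ b % 4 = 3 := by omega
  rcases hb4 with hb4 | hb4
  · rw [chi_odd_B1 hp h2 hb4 hc (by omega) (by omega) hy (by omega) hcd hxy hDp, ls_sg']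
    congr 1
    rw [if_neg (show ¬ d % 4 = 0 by omega), if_neg (show ¬ (2 : ℤ) % 4 = 0 by norm_num),
      if_neg (show ¬ (c + d) % 4 = 1 by omega), if_neg (show ¬ (2 : ℤ) % 4 = 0 by norm_num),
      if_pos (show (c + x) % 4 = 1 by omega), if_neg (show ¬ (b + 2) % 4 = 1 by omega)]
    have m1 : (if b % 8 = 1 ∨ b % 8 = 3 then (3 : ZMod 4) else 1) =
        (if b % 8 = 1 ∨ b % 8 = 7 then 1 else 3) + 2 := by
      have h3 : b % 8 = 1 ∨ b % 8 = 5 := by omega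
      rcases h3 with h3 | h3
      · rw [if_pos (by omega), if_pos (by omega)]; decide
      · rw [if_neg (by omega), if_neg (by omega)]; decide
    rw [m1]
    obtain ⟨s, hs⟩ : ∃ s : ZMod 4, s = (if b % 8 = 1 ∨ b % 8 = 7 then 1 else 3) := ⟨_, rfl⟩
    rw [← hs]
    clear hs
    by_cases hx8 : x % 8 = 0
    · rw [if_pos hx8]
      have h3 : c % 8 = 1 ∨ c % 8 = 5 := by omega
      rcases h3 with h3 | h3
      · rw [if_neg (show ¬ ((c + d) % 8 = 1 ∨ (c + d) % 8 = 7) by omega),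
          if_pos (show ((c + x) % 8 = 1 ∨ (c + x) % 8 = 7) by omega)]
        revert s; decide
      · rw [if_pos (show ((c + d) % 8 = 1 ∨ (c + d) % 8 = 7) by omega),
          if_neg (show ¬ ((c + x) % 8 = 1 ∨ (c + x) % 8 = 7) by omega)]
        revert s; decide
    · rw [if_neg hx8]
      have h3 : c % 8 = 1 ∨ c % 8 = 5 := by omega
      rcases h3 with h3 | h3
      · rw [if_neg (show ¬ ((c + d) % 8 = 1 ∨ (c + d) % 8 = 7) by omega),
          if_neg (show ¬ ((c + x) % 8 = 1 ∨ (c + x) % 8 = 7) by omega)]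
        revert s; decide
      · rw [if_pos (show ((c + d) % 8 = 1 ∨ (c + d) % 8 = 7) by omega),
          if_pos (show ((c + x) % 8 = 1 ∨ (c + x) % 8 = 7) by omega)]
        revert s; decide
  · rw [chi_odd_B3 hp h2 hb4 hc (by omega) (by omega) hy (by omega) hcd hxy hDp, ls_sg']
    congr 1
    rw [if_neg (show ¬ d % 4 = 0 by omega), if_neg (show ¬ (2 : ℤ) % 4 = 0 by norm_num),
      if_neg (show ¬ (c + d) % 4 = 1 by omega), if_neg (show ¬ (2 : ℤ) % 4 = 0 by norm_num),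
      if_pos (show (c + x) % 4 = 1 by omega), if_pos (show (b + 2) % 4 = 1 by omega)]
    have m1 : (if b % 8 = 1 ∨ b % 8 = 3 then (3 : ZMod 4) else 1) =
        (if b % 8 = 1 ∨ b % 8 = 7 then 1 else 3) := by
      have h3 : b % 8 = 3 ∨ b % 8 = 7 := by omega
      rcases h3 with h3 | h3
      · rw [if_pos (by omega), if_neg (by omega)]
      · rw [if_neg (by omega), if_pos (by omega)]
    rw [m1]
    obtain ⟨s, hs⟩ : ∃ s : ZMod 4, s = (if b % 8 = 1 ∨ b % 8 = 7 then 1 else 3) := ⟨_, rfl⟩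
    rw [← hs]
    clear hs
    by_cases hx8 : x % 8 = 0
    · rw [if_pos hx8]
      have h3 : c % 8 = 1 ∨ c % 8 = 5 := by omega
      rcases h3 with h3 | h3
      · rw [if_pos (show ((c - d) % 8 = 1 ∨ (c - d) % 8 = 7) by omega),
          if_pos (show ((c + x) % 8 = 1 ∨ (c + x) % 8 = 7) by omega)]
        revert s; decide
      · rw [if_neg (show ¬ ((c - d) % 8 = 1 ∨ (c - d) % 8 = 7) by omega),
          if_neg (show ¬ ((c + x) % 8 = 1 ∨ (c + x) % 8 = 7) by omega)]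
        revert s; decide
    · rw [if_neg hx8]
      have h3 : c % 8 = 1 ∨ c % 8 = 5 := by omega
      rcases h3 with h3 | h3
      · rw [if_pos (show ((c - d) % 8 = 1 ∨ (c - d) % 8 = 7) by omega),
          if_neg (show ¬ ((c + x) % 8 = 1 ∨ (c + x) % 8 = 7) by omega)]
        revert s; decide
      · rw [if_neg (show ¬ ((c - d) % 8 = 1 ∨ (c - d) % 8 = 7) by omega),
          if_pos (show ((c + x) % 8 = 1 ∨ (c + x) % 8 = 7) by omega)]
        revert s; decide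

end Pool.Agent.R441.Q4
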