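import Pool.Agent.R441.Q4.K

/-!
Lucas sequences modulo a prime and the quartic symbol.
-/

set_option autoImplicit false
set_option linter.unusedSimpArgs false

namespace Pool.Agent.R441.Q4

/-- the Lucas sequence `U_n(b,-1)` -/
def LU (b : ℤ) : ℕ → ℤ
  | 0 => 0
  | 1 => 1
  | (n + 2) => b * LU b (n + 1) + LU b n

/-- the Lucas sequence `V_n(b,-1)` -/
def LV (b : ℤ) : ℕ → ℤ
  | 0 => 2
  | 1 => b
  | (n + 2) => b * LV b (n + 1) + LV b n

lemma lucas_link {F : Type} [Field F] {b : ℤ} {t t' : F} (ht : t + t' = b) (htt : t * t' = -1) (n : ℕ) :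
    ((LV b n : ℤ) : F) = t ^ n + t' ^ n ∧ (t - t') * ((LU b n : ℤ) : F) = t ^ n - t' ^ n := by
  induction n using Nat.strong_induction_on with
  | _ n ih =>
    match n, ih with
    | 0, _ =>
      refine ⟨?_, ?_⟩
      · simp [LV]; norm_num
      · simp [LU]
    | 1, _ =>
      refine ⟨?_, ?_⟩
      · simp [LV, ht]
      · simp [LU]
    | (n + 2), ih =>
      obtain ⟨h1, h2⟩ := ih n (by omega)
      obtain ⟨h3, h4⟩ := ih (n + 1) (by omega)
      refine ⟨?_, ?_⟩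
      · show ((b * LV b (n + 1) + LV b n : ℤ) : F) = _
        push_cast
        rw [h1, h3, ← ht]
        linear_combination (t ^ n + t' ^ n) * htt
      · show (t - t') * ((b * LU b (n + 1) + LU b n : ℤ) : F) = _
        push_cast
        have e : (t - t') * ((b : F) * ((LU b (n + 1) : ℤ) : F) + ((LU b n : ℤ) : F)) =
            b * ((t - t') * ((LU b (n + 1) : ℤ) : F)) + (t - t') * ((LU b n : ℤ) : F) := by ring
        rw [e, h2, h4, ← ht]
        linear_combination (t ^ n - t' ^ n) * htt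

lemma op_of_norm {p : ℕ} (hp : p.Prime) (h2 : p ≠ 2) {c d : ℤ} (hcd : c ^ 2 + d ^ 2 = p) :
    OP (⟨c, d⟩ : ZI) := by
  have hn : (⟨c, d⟩ : ZI).norm = p := by rw [norm_def']; exact hcd
  refine ⟨?_, ?_⟩
  · apply Irreducible.prime
    refine ⟨?_, ?_⟩
    · rw [isUnit_iff_norm, hn]
      have := hp.one_lt
      omega
    · intro a b hab
      have h1 : nrm a * nrm b = p := by
        rw [← nrm_mul, ← hab]
        unfold nrm
        rw [hn]; exact Int.natAbs_natCast p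
      rcases (Nat.dvd_prime hp).1 ⟨nrm b, h1.symm⟩ with h | h
      · left
        rw [isUnit_iff_norm, ← nrm_cast, h]; rfl
      · right
        rw [h] at h1
        have h3 : nrm b = 1 := by
          have := hp.pos
          exact Nat.eq_of_mul_eq_mul_left this (by rw [h1, mul_one])
        rw [isUnit_iff_norm, ← nrm_cast, h3]; rfl
  · rw [hn]
    have := hp.eq_two_or_odd
    omega

lemma exists_rho {p : ℕ} [hp : Fact p.Prime] {c d : ℤ} (hcd : c ^ 2 + d ^ 2 = p)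
    (hc : (c : ZMod p) ≠ 0) : ∃ ρ : ZI →+* ZMod p, ρ ⟨c, d⟩ = 0 ∧ ρ im1 = d / c := by
  have h0 : (c : ZMod p) ^ 2 + (d : ZMod p) ^ 2 = 0 := by
    have := congrArg (Int.cast : ℤ → ZMod p) hcd
    push_cast at this
    rw [this]
    exact ZMod.natCast_self p
  have h1 : (d / c : ZMod p) * (d / c : ZMod p) = ((-1 : ℤ) : ZMod p) := by
    field_simp
    push_cast
    linear_combination h0
  refine ⟨Zsqrtd.lift ⟨(d / c : ZMod p), h1⟩, ?_, ?_⟩
  · rw [Zsqrtd.lift_apply_apply]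
    show (c : ZMod p) + (d : ZMod p) * (d / c : ZMod p) = 0
    field_simp
    linear_combination h0
  · rw [Zsqrtd.lift_apply_apply]
    show ((0 : ℤ) : ZMod p) + ((1 : ℤ) : ZMod p) * (d / c : ZMod p) = _
    push_cast
    ring

lemma unit_eq_pow {u : ZI} (h : u.norm = 1) : u = im1 ^ (lg u).val := by
  rcases unit_cases h with h | h | h | h <;> rw [h] <;> decide

lemma pow_rho {p : ℕ} [hp : Fact p.Prime] (h2 : p ≠ 2) {c d : ℤ} (hcd : c ^ 2 + d ^ 2 = p)
    (ρ : ZI →+* ZMod p) (hρ : ρ ⟨c, d⟩ = 0) (a : ZI) (ha : ρ a ≠ 0) :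
    ρ a ^ (p / 4) = ρ im1 ^ (L ⟨c, d⟩ a).val := by
  have hop := op_of_norm hp.out h2 hcd
  have hn : nrm (⟨c, d⟩ : ZI) = p := by
    unfold nrm
    rw [norm_def']
    show (c ^ 2 + d ^ 2).natAbs = p
    rw [hcd]; exact Int.natAbs_natCast p
  have h3 : ¬ (⟨c, d⟩ : ZI) ∣ a := by
    rintro ⟨k, rfl⟩
    rw [map_mul, hρ, zero_mul] at ha
    exact ha rfl
  have h4 := q4_norm hop h3
  obtain ⟨k, hk⟩ := q4_dvd hop a
  have h5 := congrArg ρ hk
  rw [map_sub, map_mul, hρ, zero_mul, sub_eq_zero, hn, map_pow] at h5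
  rw [h5]
  unfold L
  rw [Q_prime hop.pr, ← map_pow, ← unit_eq_pow h4]

/-- the power of `j` with exponent in `ZMod 4` -/
def jp {F : Type} [Field F] (j : F) (a : ZMod 4) : F := j ^ a.val

lemma jp_add {F : Type} [Field F] {j : F} (hj : j ^ 2 = -1) (a b : ZMod 4) :
    jp j (a + b) = jp j a * jp j b := by
  have h4 : j ^ 4 = 1 := by
    have : j ^ 4 = (j ^ 2) ^ 2 := by ring
    rw [this, hj]; ring
  unfold jp
  rw [ZMod.val_add, ← pow_add]
  conv_rhs => rw [← Nat.div_add_mod (a.val + b.val) 4, pow_add, pow_mul, h4, one_pow, one_mul]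

lemma jp_ne {F : Type} [Field F] {j : F} (hj : j ^ 2 = -1) (a : ZMod 4) : jp j a ≠ 0 := by
  unfold jp
  apply pow_ne_zero
  rintro rfl
  norm_num at hj

lemma jp_zero {F : Type} [Field F] (j : F) : jp j 0 = 1 := by unfold jp; simp
lemma jp_one {F : Type} [Field F] (j : F) : jp j 1 = j := by
  unfold jp
  have : (1 : ZMod 4).val = 1 := by decide
  rw [this, pow_one]
lemma jp_two {F : Type} [Field F] {j : F} (hj : j ^ 2 = -1) : jp j 2 = -1 := by
  unfold jp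
  have : (2 : ZMod 4).val = 2 := by decide
  rw [this, hj]
lemma jp_three {F : Type} [Field F] {j : F} (hj : j ^ 2 = -1) : jp j 3 = -j := by
  unfold jp
  have : (3 : ZMod 4).val = 3 := by decide
  rw [this, pow_succ, hj]; ring

/-- the basic evaluation: `h = 1` or `h = 2`, `2a = hb`, `t = (ay + xi)/(hy)` -/
theorem lucas_main {p : ℕ} [hp : Fact p.Prime] (h2 : p ≠ 2) {a b c d x y h : ℤ} (hh : h = 1 ∨ h = 2)
    (hab : 2 * a = h * b) (hcd : c ^ 2 + d ^ 2 = p) (hxy : x ^ 2 + (a ^ 2 + h ^ 2) * y ^ 2 = p)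
    (hx : (x : ZMod p) ≠ 0) {l : ZMod 4} (hc : c % 2 = 1) (hd : d % 2 = 0)
    (hl : L ⟨c, d⟩ (((a * y : ℤ) : ZI) + (x : ZI) * im1) = L ⟨c, d⟩ (h : ZI) + L ⟨c, d⟩ (y : ZI) + l) :
    (c : ZMod p) ≠ 0 ∧ ((d : ZMod p) / c) ^ 2 = -1 ∧
    ((LV b (p / 4) : ℤ) : ZMod p) = jp ((d : ZMod p) / c) l + (-1) ^ (p / 4) * jp ((d : ZMod p) / c) (-l) ∧
    (2 * x * ((LU b (p / 4) : ℤ) : ZMod p)) = h * y * (c / d) *
      (jp ((d : ZMod p) / c) l - (-1) ^ (p / 4) * jp ((d : ZMod p) / c) (-l)) := by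
  have hpp := hp.out
  have hpi : Prime (p : ℤ) := Nat.prime_iff_prime_int.1 hpp
  have hc0 : (c : ZMod p) ≠ 0 := by
    intro h0
    rw [ZMod.intCast_zmod_eq_zero_iff_dvd] at h0
    obtain ⟨k, rfl⟩ := h0
    have hp0 : (2 : ℤ) ≤ p := by exact_mod_cast hpp.two_le
    have hk : k ≠ 0 := by rintro rfl; simp at hc
    have hk2 : 1 ≤ k ^ 2 := by
      have : 0 < k ^ 2 := by positivity
      omega
    nlinarith [sq_nonneg d, mul_le_mul_of_nonneg_left hk2 (sq_nonneg (p : ℤ))]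
  have hd0 : (d : ZMod p) ≠ 0 := by
    intro h0
    rw [ZMod.intCast_zmod_eq_zero_iff_dvd] at h0
    have h1 : (p : ℤ) ∣ c ^ 2 := by
      have : c ^ 2 = p - d ^ 2 := by linarith
      rw [this]
      exact dvd_sub dvd_rfl (dvd_pow h0 two_ne_zero)
    have h2 := hpi.dvd_of_dvd_pow h1
    apply hc0
    rwa [ZMod.intCast_zmod_eq_zero_iff_dvd]
  have hDpos : 0 < a ^ 2 + h ^ 2 := by
    rcases hh with rfl | rfl <;> nlinarith [sq_nonneg a]
  have hy0 : (y : ZMod p) ≠ 0 := by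
    intro h0
    rw [ZMod.intCast_zmod_eq_zero_iff_dvd] at h0
    have h1 := cop_py hpp hxy hDpos
    exact (hpi.coprime_iff_not_dvd.1 h1) h0
  have h20 : (2 : ZMod p) ≠ 0 := by
    intro h0
    have h3 : ((2 : ℤ) : ZMod p) = 0 := by exact_mod_cast h0
    rw [ZMod.intCast_zmod_eq_zero_iff_dvd] at h3
    have h4 : p ∣ 2 := by exact_mod_cast h3
    exact h2 ((Nat.prime_dvd_prime_iff_eq hpp Nat.prime_two).1 h4)
  have hh0 : (h : ZMod p) ≠ 0 := by
    rcases hh with rfl | rfl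
    · rw [Int.cast_one]; exact one_ne_zero
    · exact_mod_cast h20
  obtain ⟨ρ, hρ, hρi⟩ := exists_rho hcd hc0
  have hcd0 : (c : ZMod p) ^ 2 + (d : ZMod p) ^ 2 = 0 := by
    have := congrArg (Int.cast : ℤ → ZMod p) hcd
    push_cast at this
    rw [this]
    exact ZMod.natCast_self p
  have hxy0 : (x : ZMod p) ^ 2 + ((a : ZMod p) ^ 2 + (h : ZMod p) ^ 2) * (y : ZMod p) ^ 2 = 0 := by
    have := congrArg (Int.cast : ℤ → ZMod p) hxy
    push_cast at this
    rw [this]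
    exact ZMod.natCast_self p
  have hab0 : 2 * (a : ZMod p) = h * b := by
    have := congrArg (Int.cast : ℤ → ZMod p) hab
    push_cast at this
    exact this
  obtain ⟨j, hj⟩ : ∃ j : ZMod p, j = (d : ZMod p) / c := ⟨_, rfl⟩
  have hj2 : j ^ 2 = -1 := by
    rw [hj]
    field_simp
    linear_combination hcd0
  have hji : (c : ZMod p) / d = -j := by
    rw [hj]
    field_simp
    linear_combination hcd0
  rw [← hj] at hρi ⊢
  obtain ⟨t, ht⟩ : ∃ t : ZMod p, t = (a * y + x * j) / (h * y) := ⟨_, rfl⟩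
  obtain ⟨t', ht'⟩ : ∃ t' : ZMod p, t' = (a * y - x * j) / (h * y) := ⟨_, rfl⟩
  have e1 : t + t' = b := by
    rw [ht, ht']
    field_simp
    linear_combination (y : ZMod p) * hab0
  have e2 : t * t' = -1 := by
    rw [ht, ht']
    field_simp
    linear_combination hxy0 - (x : ZMod p) ^ 2 * hj2
  have e3 : (t - t') * (h * y) = 2 * x * j := by
    rw [ht, ht']
    field_simp
    ring
  have ht0 : t ≠ 0 := by rintro h0; rw [h0, zero_mul] at e2; norm_num at e2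
  have hκ : ρ (((a * y : ℤ) : ZI) + (x : ZI) * im1) = t * (h * y) := by
    rw [map_add, map_mul, map_intCast, map_intCast, hρi, ht]
    push_cast
    field_simp
  have hhy : ρ ((h : ZI)) = h := map_intCast ρ h
  have hyy : ρ ((y : ZI)) = y := map_intCast ρ y
  have g1 := pow_rho h2 hcd ρ hρ (((a * y : ℤ) : ZI) + (x : ZI) * im1) (by
    rw [hκ]; exact mul_ne_zero ht0 (mul_ne_zero hh0 hy0))
  have g2 := pow_rho h2 hcd ρ hρ (h : ZI) (by rw [hhy]; exact hh0)
  have g3 := pow_rho h2 hcd ρ hρ (y : ZI) (by rw [hyy]; exact hy0)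
  rw [hκ, hρi] at g1
  rw [hhy, hρi] at g2
  rw [hyy, hρi] at g3
  have g4 : t ^ (p / 4) = jp j l := by
    have hA := jp_ne hj2 (L (⟨c, d⟩ : ZI) (h : ZI))
    have hB := jp_ne hj2 (L (⟨c, d⟩ : ZI) (y : ZI))
    have e4 : t ^ (p / 4) * (jp j (L (⟨c, d⟩ : ZI) (h : ZI)) * jp j (L (⟨c, d⟩ : ZI) (y : ZI))) =
        jp j l * (jp j (L (⟨c, d⟩ : ZI) (h : ZI)) * jp j (L (⟨c, d⟩ : ZI) (y : ZI))) := by
      have e5 : jp j (L (⟨c, d⟩ : ZI) (h : ZI)) = (h : ZMod p) ^ (p / 4) := g2.symm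
      have e6 : jp j (L (⟨c, d⟩ : ZI) (y : ZI)) = (y : ZMod p) ^ (p / 4) := g3.symm
      have e7 : (t * (h * y)) ^ (p / 4) = jp j (L ⟨c, d⟩ (((a * y : ℤ) : ZI) + (x : ZI) * im1)) := g1
      rw [hl, jp_add hj2, jp_add hj2] at e7
      rw [← e5] at g2
      rw [mul_comm (jp j l), ← e7, e5, e6, mul_pow, mul_pow]
    exact mul_right_cancel₀ (mul_ne_zero hA hB) e4
  have g5 : t' ^ (p / 4) = (-1) ^ (p / 4) * jp j (-l) := by
    have e4 : t ^ (p / 4) * t' ^ (p / 4) = (-1) ^ (p / 4) := by rw [← mul_pow, e2]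
    rw [g4] at e4
    have e5 : jp j l * jp j (-l) = 1 := by rw [← jp_add hj2, add_neg_cancel, jp_zero]
    have hA := jp_ne hj2 l
    apply mul_left_cancel₀ hA
    rw [e4]
    linear_combination (-(-1) ^ (p / 4)) * e5
  obtain ⟨k1, k2⟩ := lucas_link e1 e2 (p / 4)
  rw [g4, g5] at k1 k2
  refine ⟨hc0, hj2, k1, ?_⟩
  have hj0 : j ≠ 0 := by rintro rfl; norm_num at hj2
  rw [hji]
  have e8 : (2 * x * ((LU b (p / 4) : ℤ) : ZMod p)) = -(2 * x * j * ((LU b (p / 4) : ℤ) : ZMod p)) * j := by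
    linear_combination (2 * (x : ZMod p) * ((LU b (p / 4) : ℤ) : ZMod p)) * hj2
  rw [e8, ← e3]
  linear_combination (-j * (h * y)) * k2

end Pool.Agent.R441.Q4
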