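import Pool.Agent.R441.Q4.M

/-!
Helpers for the congruences for Lucas sequences.
-/

set_option autoImplicit false
set_option linter.unusedSimpArgs false

namespace Pool.Agent.R441.Q4

/-- the odd part of `m` is `1` modulo `4` -/
def OddPart1 (m : ℤ) : Prop := ∃ (k : ℕ) (m0 : ℤ), m = 2 ^ k * m0 ∧ m0 % 4 = 1

lemma OddPart1.odd {m : ℤ} (h : OddPart1 m) (h2 : m % 2 = 1) : m % 4 = 1 := by
  obtain ⟨k, m0, rfl, h3⟩ := h
  match k with
  | 0 => simpa using h3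
  | (k + 1) =>
    exfalso
    obtain ⟨r, hr⟩ : ∃ r, 2 ^ (k + 1) * m0 = 2 * r := ⟨2 ^ k * m0, by ring⟩
    omega

lemma OddPart1.two {m : ℤ} (h : OddPart1 m) (h2 : m % 4 = 2) : m % 8 = 2 := by
  obtain ⟨k, m0, rfl, h3⟩ := h
  match k with
  | 0 => exfalso; rw [pow_zero, one_mul] at h2; omega
  | 1 => rw [pow_one]; omega
  | (k + 2) =>
    exfalso
    obtain ⟨r, hr⟩ : ∃ r, 2 ^ (k + 2) * m0 = 4 * r := ⟨2 ^ k * m0, by ring⟩
    omega

lemma sq8_odd {z : ℤ} (h : z % 2 = 1) : z ^ 2 % 8 = 1 := by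
  obtain ⟨k, hk⟩ : ∃ k, z = 2 * k + 1 := ⟨z / 2, by omega⟩
  have h2 := Int.even_iff.1 (Int.even_mul_succ_self k)
  obtain ⟨r, hr⟩ : ∃ r, r = k * (k + 1) := ⟨_, rfl⟩
  have : z ^ 2 = 4 * r + 1 := by rw [hk, hr]; ring
  rw [this]
  rw [← hr] at h2
  omega

lemma sq8_two {z : ℤ} (h : z % 4 = 2) : z ^ 2 % 8 = 4 := by
  obtain ⟨k, hk⟩ : ∃ k, z = 4 * k + 2 := ⟨z / 4, by omega⟩
  obtain ⟨r, hr⟩ : ∃ r, r = 2 * k ^ 2 + 2 * k := ⟨_, rfl⟩
  have : z ^ 2 = 8 * r + 4 := by rw [hk, hr]; ring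
  rw [this]
  omega

lemma sq8_four {z : ℤ} (h : z % 4 = 0) : z ^ 2 % 8 = 0 := by
  obtain ⟨k, hk⟩ : ∃ k, z = 4 * k := ⟨z / 4, by omega⟩
  obtain ⟨r, hr⟩ : ∃ r, r = 2 * k ^ 2 := ⟨_, rfl⟩
  have : z ^ 2 = 8 * r := by rw [hk, hr]; ring
  rw [this]
  omega

lemma mul_mod8 {u v s t : ℤ} (hu : u % 8 = s) (hv : v % 8 = t) : (u * v) % 8 = (s * t) % 8 := by
  rw [Int.mul_emod, hu, hv]

lemma quarter_sign {F : Type} [Field F] {p : ℕ} {c d : ℤ} (hcd : c ^ 2 + d ^ 2 = p)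
    (hc : c % 2 = 1) (hd : d % 2 = 0) :
    ((-1 : F)) ^ (p / 4) = if d % 4 = 0 then 1 else -1 := by
  have h1 := sq8_odd hc
  split_ifs with h
  · have h2 := sq8_four h
    apply Even.neg_one_pow
    rw [Nat.even_iff]
    omega
  · have h2 := sq8_two (z := d) (by omega)
    apply Odd.neg_one_pow
    rw [Nat.odd_iff]
    omega

lemma zsign {F : Type} [Field F] (m : ℤ) : ((-1 : F)) ^ m = if m % 2 = 0 then 1 else -1 := by
  split_ifs with h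
  · exact Even.neg_one_zpow (Int.even_iff.2 h)
  · exact Odd.neg_one_zpow (Int.odd_iff.2 (by omega))

lemma x_ne_zero {p : ℕ} [hp : Fact p.Prime] {x y D : ℤ} (hxy : x ^ 2 + D * y ^ 2 = p) (hD : 0 < D)
    (hDp : D ≠ p) : (x : ZMod p) ≠ 0 := by
  intro h0
  rw [ZMod.intCast_zmod_eq_zero_iff_dvd] at h0
  have hpp := hp.out
  obtain ⟨k, rfl⟩ := h0
  have hp0 : (2 : ℤ) ≤ p := by exact_mod_cast hpp.two_le
  by_cases hk : k = 0
  · rw [hk] at hxy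
    have h1 : D * y ^ 2 = p := by linarith
    have h3 : (p : ℤ) ∣ D * y ^ 2 := by rw [h1]
    have hpi : Prime (p : ℤ) := Nat.prime_iff_prime_int.1 hpp
    have h4 := cop_py hpp hxy hD
    have h5 : (p : ℤ) ∣ D := by
      rcases hpi.dvd_or_dvd h3 with h5 | h5
      · exact h5
      · exact absurd (hpi.dvd_of_dvd_pow h5) (hpi.coprime_iff_not_dvd.1 h4)
    have h6 : D ∣ (p : ℤ) := ⟨y ^ 2, h1.symm⟩
    have h7 := Int.le_of_dvd hD h5
    have h8 := Int.le_of_dvd (by omega) h6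
    exact hDp (le_antisymm h8 h7)
  · have hk2 : 1 ≤ k ^ 2 := by
      have : 0 < k ^ 2 := by positivity
      omega
    have h3 : 0 ≤ D * y ^ 2 := by positivity
    nlinarith [mul_le_mul_of_nonneg_left hk2 (sq_nonneg (p : ℤ))]

lemma two_ne {p : ℕ} [hp : Fact p.Prime] (h2 : p ≠ 2) : (2 : ZMod p) ≠ 0 := by
  intro h0
  have h3 : ((2 : ℤ) : ZMod p) = 0 := by exact_mod_cast h0
  rw [ZMod.intCast_zmod_eq_zero_iff_dvd] at h3
  have h4 : p ∣ 2 := by exact_mod_cast h3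
  exact h2 ((Nat.prime_dvd_prime_iff_eq hp.out Nat.prime_two).1 h4)

end Pool.Agent.R441.Q4
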