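import Pool.Agent.R441.Q4.N

/-!
The quartic symbol of the unit `a + √(a²+1)`, `a` even.
-/

set_option autoImplicit false
set_option linter.unusedSimpArgs false

namespace Pool.Agent.R441.Q4

lemma two_cast (k : ℤ) : 2 * (k : ZMod 4) = if k % 2 = 0 then 0 else 2 := by
  rcases Int.even_or_odd' k with ⟨j, rfl | rfl⟩
  · rw [if_pos (by omega)]
    push_cast
    linear_combination (j : ZMod 4) * four_zero
  · rw [if_neg (by omega)]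
    push_cast
    linear_combination (j : ZMod 4) * four_zero

lemma if_par {P : Prop} [Decidable P] {k : ℤ} (h : P ↔ k % 2 = 0) :
    (if P then (0 : ZMod 4) else 2) = 2 * (k : ZMod 4) := by
  rw [two_cast, if_congr h rfl rfl]

lemma rel_y4 {a1 c1 d1 x1 y1 : ℤ}
    (h : (4 * c1 + 1) ^ 2 + (4 * d1) ^ 2 = (4 * x1 + 1) ^ 2 + ((2 * a1) ^ 2 + 1 ^ 2) * (4 * y1) ^ 2) :
    (c1 + x1 - 2 * (c1 + y1 + d1)) % 4 = 0 := by
  obtain ⟨s, hs⟩ : ∃ s, s = y1 * (y1 + 1) := ⟨_, rfl⟩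
  obtain ⟨r, hr⟩ : ∃ r, r = d1 * (d1 + 1) := ⟨_, rfl⟩
  obtain ⟨u, hu⟩ : ∃ u, u = c1 * (c1 + 1) := ⟨_, rfl⟩
  obtain ⟨v, hv⟩ : ∃ v, v = x1 * (x1 + 1) := ⟨_, rfl⟩
  obtain ⟨w, hw⟩ : ∃ w, w = a1 ^ 2 * y1 ^ 2 := ⟨_, rfl⟩
  have hs2 := Int.even_iff.1 (Int.even_mul_succ_self y1)
  have hr2 := Int.even_iff.1 (Int.even_mul_succ_self d1)
  have hu2 := Int.even_iff.1 (Int.even_mul_succ_self c1)
  have hv2 := Int.even_iff.1 (Int.even_mul_succ_self x1)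
  rw [← hs] at hs2
  rw [← hr] at hr2
  rw [← hu] at hu2
  rw [← hv] at hv2
  have e1 : 16 * u - 8 * c1 + 16 * (r - d1) = 16 * v - 8 * x1 + 16 * (s - y1) + 64 * w := by
    rw [hu, hr, hv, hs, hw]
    linear_combination h
  clear h hs hr hu hv hw
  omega

/-- the residues used in the case `4 ∣ y` -/
lemma res_y4 {a c d x y n Tr Ti c1 d1 x1 y1 z : ℤ} (hc1 : c = 4 * c1 + 1)
    (hx1 : x = 4 * x1 + 1) (hy1 : y = 4 * y1) (hd1 : d = 4 * d1)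
    (hby : a * y = 8 * z) (hrel : (c1 + x1 - 2 * (c1 + y1 + d1)) % 4 = 0)
    (hn : n % 16 = (c + x) % 16) (hTr : Tr % 16 = (a * y - d) % 16)
    (hTi : Ti % 16 = (c + x + 1 * y) % 16) :
    n = 2 * (n / 2) ∧ (n / 2) % 4 = 1 ∧ (((n / 2) % 8 = 1 ∨ (n / 2) % 8 = 7) ↔ (c1 + y1 + d1) % 2 = 0) ∧
    ((-(Tr / 2)) % 4 = 0 ↔ d1 % 2 = 0) ∧ (((c + d) % 8 = 1 ∨ (c + d) % 8 = 7) ↔ (c1 + d1) % 2 = 0) ∧
    ((d + y) % 8 = 0 ↔ (d1 + y1) % 2 = 0) ∧ Tr % 4 = 0 ∧ Ti % 4 = 2 := by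
  rw [hby] at hTr
  clear hby
  subst hc1 hx1 hy1 hd1
  refine ⟨?_, ?_, ?_, ?_, ?_, ?_, ?_, ?_⟩ <;> omega

/-- the formula with `w = 2i`, `e = 1` -/
theorem chi_ev_y4 {p : ℕ} (hp : p.Prime) (h2 : p ≠ 2) {a c d x y : ℤ} (ha : a % 2 = 0)
    (hc : c % 4 = 1) (hd : d % 4 = 0) (hx : x % 4 = 1) (hy : y % 4 = 0)
    (hcd : c ^ 2 + d ^ 2 = p)
    (hxy : x ^ 2 + (a ^ 2 + 1 ^ 2) * y ^ 2 = p) (hDp : a ^ 2 + 1 ^ 2 ≠ p) :
    L ⟨c, d⟩ (((a * y : ℤ) : ZI) + (x : ZI) * im1) = L ⟨c, d⟩ ((1 : ℤ) : ZI) + L ⟨c, d⟩ (y : ZI) +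
      (if (d + y) % 8 = 0 then 0 else 2) := by
  have hc2 : c % 2 = 1 := by omega
  have hd2 : d % 2 = 0 := by omega
  obtain ⟨n, Tr, Ti, hn, hTr, hTi, H⟩ := master_p hp h2 (a := a) (h := 1) (Or.inl rfl) hc2 hd2 hcd
    hxy hDp
  obtain ⟨a1, ha1⟩ : ∃ a1, a = 2 * a1 := ⟨a / 2, by omega⟩
  obtain ⟨c1, hc1⟩ : ∃ c1, c = 4 * c1 + 1 := ⟨c / 4, by omega⟩
  obtain ⟨x1, hx1⟩ : ∃ x1, x = 4 * x1 + 1 := ⟨x / 4, by omega⟩
  obtain ⟨y1, hy1⟩ : ∃ y1, y = 4 * y1 := ⟨y / 4, by omega⟩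
  obtain ⟨d1, hd1⟩ : ∃ d1, d = 4 * d1 := ⟨d / 4, by omega⟩
  have hby : a * y = 8 * (a1 * y1) := by rw [ha1, hy1]; ring
  have hrel := rel_y4 (a1 := a1) (c1 := c1) (d1 := d1) (x1 := x1) (y1 := y1) (by
    rw [← hc1, ← hd1, ← hx1, ← hy1, ← ha1, hcd, hxy])
  obtain ⟨r0, r1, r2, r3, r4, r5, r6, r7⟩ := res_y4 hc1 hx1 hy1 hd1 hby hrel hn hTr hTi
  have hπ : Ev (⟨c, d⟩ : ZI) := ev_of hc2 hd2
  have hθ : Ev (⟨1, -a⟩ : ZI) := ev_of rfl (by show (-a) % 2 = 0; clear H; omega)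
  have ti2 : Ti / 2 % 2 = 1 := by clear H; omega
  have tr2 : -(Tr / 2) % 2 = 0 := by clear H; omega
  have hT1 : Ev (⟨Ti / 2, -(Tr / 2)⟩ : ZI) := ev_of ti2 tr2
  have cw : ∀ β : ZI, Od β → IsCoprime β (2 * im1) := fun β hβ =>
    (cop_two hβ).mul_right (cop_unit im1_norm β)
  have cw' : ∀ β : ZI, Od β → IsCoprime β im1 := fun β _ => cop_unit im1_norm β
  have n2 : n / 2 % 2 = 1 := by clear H; omega
  have F := H 1 (n / 2) im1 ⟨1, -a⟩ (2 * im1) ⟨Ti / 2, -(Tr / 2)⟩ (by rw [pow_one]; exact r0)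
    n2
    (by
      unfold im1
      rw [re_im_mul]
      ext
      · show a = _; simp only; ring
      · show (1 : ℤ) = _; simp only; ring) hθ (by
      have : (2 : ZI) * im1 = ⟨0, 2⟩ := by decide
      rw [this, re_im_mul]
      clear H
      ext
      · show Tr = _; simp only; omega
      · show Ti = _; simp only; omega) hT1 cw cw'
  clear H
  have odn : Od ((n / 2 : ℤ) : ZI) := od_int.2 n2
  have hy0 : y ≠ 0 := by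
    rintro rfl
    have h3 : x ^ 2 = p := by linarith
    exact (Nat.prime_iff_prime_int.1 hp).irreducible.not_isSquare ⟨x, by rw [← h3, sq]⟩
  have e2i : (2 : ZI) * im1 = oi ^ (2 * 1) := by decide
  have w1 := two_L_sq hπ.od (cop_oi hπ.od) 1
  have w2 := two_L_sq hθ.od (cop_oi hθ.od) 1
  have w3 := two_L_sq odn (cop_oi odn) 1
  have e4 : (-(2 ^ 1 * ((1 : ℤ) : ZI) * im1 * im1) : ZI) = 2 := by decide
  have k1 := two_im ti2 tr2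
  have k3 := two_L_two hT1.od
  have k4 := two_oi hc2 hd2
  have k5 := L_two hπ.od
  have e5 : (2 * ((1 : ℤ) : ZI) : ZI) = 2 := by decide
  have k6 := L_int_im n2
  have hDpos : 0 < a ^ 2 + 1 ^ 2 := by positivity
  have hLy : 2 * L (⟨c, d⟩ : ZI) (y : ZI) = 0 := by
    obtain ⟨k, y0, hk, hk2⟩ := int_two_pow hy0
    rw [two_L_y hp hc2 hd2 hcd hxy hDpos hk hk2, if_pos hd, mul_zero]
  rw [if_par r4] at k4
  rw [if_par r2] at k6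
  rw [if_par r3] at k1
  rw [if_par r5]
  have k7 : ls (s2 (n / 2) (⟨1, -a⟩ : ZI).im) = 0 := by
    rw [ls_s2, if_pos (Or.inl r1)]
  have k8 : ls (sg ⟨1, -a⟩ ⟨c, d⟩) = 0 := by
    rw [ls_sg', if_pos hd, if_pos (show (c + d) % 4 = 1 by omega)]
    split_ifs <;> rfl
  rw [L_neg_four hθ.od, e2i, e4, e5, k5, k6, k3, k1, k7, k8] at F
  rw [F]
  have f4 := four_zero
  push_cast at k4 ⊢
  linear_combination hLy + w1 + w2 + w3 - L (⟨c, d⟩ : ZI) im1 * f4 - k4 - ((c1 : ZMod 4) + (d1 : ZMod 4) + (y1 : ZMod 4)) * f4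

/-- the relation for `2 ∥ y` -/
lemma rel_y2 {a1 c1 d1 x1 y1 : ℤ}
    (h : (4 * c1 + 1) ^ 2 + (8 * d1 + 2) ^ 2 = (4 * x1 + 1) ^ 2 + ((2 * a1) ^ 2 + 1 ^ 2) * (8 * y1 + 2) ^ 2) :
    (c1 - x1 - 2 * a1) % 4 = 0 := by
  obtain ⟨s, hs⟩ : ∃ s, s = y1 * (y1 + 1) := ⟨_, rfl⟩
  obtain ⟨r, hr⟩ : ∃ r, r = d1 * (d1 + 1) := ⟨_, rfl⟩
  obtain ⟨u, hu⟩ : ∃ u, u = c1 * (c1 + 1) := ⟨_, rfl⟩
  obtain ⟨v, hv⟩ : ∃ v, v = x1 * (x1 + 1) := ⟨_, rfl⟩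
  obtain ⟨w, hw⟩ : ∃ w, w = a1 * (a1 + 1) := ⟨_, rfl⟩
  obtain ⟨t, ht⟩ : ∃ t, t = a1 ^ 2 * (4 * y1 ^ 2 + 2 * y1) := ⟨_, rfl⟩
  have hu2 := Int.even_iff.1 (Int.even_mul_succ_self c1)
  have hv2 := Int.even_iff.1 (Int.even_mul_succ_self x1)
  have hw2 := Int.even_iff.1 (Int.even_mul_succ_self a1)
  rw [← hu] at hu2
  rw [← hv] at hv2
  rw [← hw] at hw2
  obtain ⟨q, hq⟩ : ∃ q, q = 2 * d1 ^ 2 + d1 - 2 * y1 ^ 2 - y1 := ⟨_, rfl⟩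
  have e1 : 16 * u - 8 * c1 + 32 * q = 16 * v - 8 * x1 + 64 * t + 16 * (w - a1) := by
    rw [hu, hv, hw, ht, hq]
    linear_combination h
  clear h hs hr hu hv hw ht hq
  omega

lemma res_y2 {a c d x y n Tr Ti a1 c1 d1 x1 y1 z : ℤ} (hc1 : c = 4 * c1 + 1)
    (hx1 : x = 4 * x1 + 1) (hy1 : y = 8 * y1 + 2) (hd1 : d = 8 * d1 + 2)
    (hby : a * y = 4 * z) (hrel : (c1 - x1 - 2 * a1) % 4 = 0)
    (hn : n % 16 = (c + x) % 16) (hTr : Tr % 16 = (a * y - d) % 16)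
    (hTi : Ti % 16 = (c + x + 1 * y) % 16) :
    n = 2 * (n / 2) ∧ (n / 2) % 4 = 1 ∧ (((n / 2) % 8 = 1 ∨ (n / 2) % 8 = 7) ↔ (c1 + a1) % 2 = 0) ∧
    (((c + d) % 8 = 1 ∨ (c + d) % 8 = 7) ↔ (c1 + 1) % 2 = 0) ∧
    Tr % 4 = 2 ∧ Ti % 8 = 4 := by
  rw [hby] at hTr
  clear hby
  subst hc1 hx1 hy1 hd1
  refine ⟨?_, ?_, ?_, ?_, ?_, ?_⟩ <;> omega

/-- `x ≡ 1 (mod 4)`, `y ≡ 2 (mod 8)` -/
theorem chi_ev_y2 {p : ℕ} (hp : p.Prime) (h2 : p ≠ 2) {a a1 c d x y : ℤ} (ha1 : a = 2 * a1)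
    (hc : c % 4 = 1) (hd : d % 8 = 2) (hx : x % 4 = 1) (hy : y % 8 = 2)
    (hcd : c ^ 2 + d ^ 2 = p)
    (hxy : x ^ 2 + (a ^ 2 + 1 ^ 2) * y ^ 2 = p) (hDp : a ^ 2 + 1 ^ 2 ≠ p) :
    L ⟨c, d⟩ (((a * y : ℤ) : ZI) + (x : ZI) * im1) = L ⟨c, d⟩ ((1 : ℤ) : ZI) + L ⟨c, d⟩ (y : ZI) +
      2 * (a1 : ZMod 4) := by
  have hc2 : c % 2 = 1 := by omega
  have hd2 : d % 2 = 0 := by omega
  obtain ⟨n, Tr, Ti, hn, hTr, hTi, H⟩ := master_p hp h2 (a := a) (h := 1) (Or.inl rfl) hc2 hd2 hcd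
    hxy hDp
  obtain ⟨c1, hc1⟩ : ∃ c1, c = 4 * c1 + 1 := ⟨c / 4, by omega⟩
  obtain ⟨x1, hx1⟩ : ∃ x1, x = 4 * x1 + 1 := ⟨x / 4, by omega⟩
  obtain ⟨y1, hy1⟩ : ∃ y1, y = 8 * y1 + 2 := ⟨y / 8, by omega⟩
  obtain ⟨d1, hd1⟩ : ∃ d1, d = 8 * d1 + 2 := ⟨d / 8, by omega⟩
  have hby : a * y = 4 * (a1 * (4 * y1 + 1)) := by rw [ha1, hy1]; ring
  have hrel := rel_y2 (a1 := a1) (c1 := c1) (d1 := d1) (x1 := x1) (y1 := y1) (by
    rw [← hc1, ← hd1, ← hx1, ← hy1, ← ha1, hcd, hxy])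
  obtain ⟨r0, r1, r2, r3, r4, r5⟩ := res_y2 hc1 hx1 hy1 hd1 hby hrel hn hTr hTi
  have ha : (-a) % 2 = 0 := by clear H; omega
  have ha4 : (-a) % 4 = 0 ↔ a1 % 2 = 0 := by clear H; omega
  have ha4' : (1 + -a) % 4 = 1 ↔ a1 % 2 = 0 := by clear H; omega
  have hπ : Ev (⟨c, d⟩ : ZI) := ev_of hc2 hd2
  have hθ : Ev (⟨1, -a⟩ : ZI) := ev_of rfl ha
  have tr2 : Tr / 2 % 2 = 1 := by clear H; omega
  have ti2 : Ti / 2 % 2 = 0 := by clear H; omega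
  have ti4 : ¬ Ti / 2 % 4 = 0 := by clear H; omega
  have hT1 : Ev (⟨Tr / 2, Ti / 2⟩ : ZI) := ev_of tr2 ti2
  have cw : ∀ β : ZI, Od β → IsCoprime β 2 := fun β hβ => cop_two hβ
  have cw' : ∀ β : ZI, Od β → IsCoprime β im1 := fun β _ => cop_unit im1_norm β
  have n2 : n / 2 % 2 = 1 := by clear H; omega
  have F := H 1 (n / 2) im1 ⟨1, -a⟩ 2 ⟨Tr / 2, Ti / 2⟩ (by rw [pow_one]; exact r0)
    n2
    (by
      unfold im1
      rw [re_im_mul]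
      ext
      · show a = _; simp only; ring
      · show (1 : ℤ) = _; simp only; ring) hθ (by
      have : (2 : ZI) = ⟨2, 0⟩ := by decide
      rw [this, re_im_mul]
      clear H
      ext
      · show Tr = _; simp only; omega
      · show Ti = _; simp only; omega) hT1 cw cw'
  clear H
  have odn : Od ((n / 2 : ℤ) : ZI) := od_int.2 n2
  have e4 : (-(2 ^ 1 * ((1 : ℤ) : ZI) * im1 * im1) : ZI) = 2 := by decide
  have k1 := two_im tr2 ti2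
  have k3 := two_L_two hT1.od
  have k4 := two_oi hc2 hd2
  have k5 := L_two hπ.od
  have e5 : (2 * ((1 : ℤ) : ZI) : ZI) = 2 := by decide
  have k6 := L_int_im n2
  have hDpos : 0 < a ^ 2 + 1 ^ 2 := by positivity
  have hLy : 2 * L (⟨c, d⟩ : ZI) (y : ZI) = 2 := by
    rw [two_L_y hp hc2 hd2 hcd hxy hDpos (k := 1) (y0 := y / 2) (by omega) (by omega),
      if_neg (by omega)]
    decide
  have k9 := two_L_two hπ.od
  have k10 := two_im hc2 hd2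
  rw [if_neg (show ¬ d % 4 = 0 by omega)] at k10
  have k11 := two_L_two hθ.od
  have k12 := two_im (a := 1) (b := -a) rfl ha
  rw [if_par ha4] at k12
  have k13 := two_L_two odn
  rw [if_par r3] at k4
  rw [if_par r2] at k6
  rw [if_neg ti4] at k1
  have k7 : ls (s2 (n / 2) (⟨1, -a⟩ : ZI).im) = 0 := by
    rw [ls_s2, if_pos (Or.inl r1)]
  have k8 : ls (sg ⟨1, -a⟩ ⟨c, d⟩) = 2 * (a1 : ZMod 4) := by
    rw [ls_sg', if_neg (show ¬ d % 4 = 0 by omega), if_neg (show ¬ (c + d) % 4 = 1 by omega),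
      if_par ha4, if_par ha4']
    linear_combination (a1 : ZMod 4) * four_zero
  rw [L_neg_four hθ.od, e4, e5, k7, k8] at F
  rw [F]
  have f4 := four_zero
  push_cast at k4 k6 ⊢
  linear_combination hLy - k5 - k6 - k4 + k9 + k10 + k11 + k12 + k13 + 2 * k6 + k3 + k1 -
    L (⟨c, d⟩ : ZI) im1 * f4 + f4 + (a1 : ZMod 4) * f4

/-- the value of the symbol of `-2` -/
lemma L_theta_even {a a1 : ℤ} (ha1 : a = 2 * a1) : L (⟨1, -a⟩ : ZI) (-2 ^ (0 + 1)) = (a1 : ZMod 4) := by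
  have h0 : (-a) % 2 = 0 := by omega
  have hθ : Ev (⟨1, -a⟩ : ZI) := ev_of rfl h0
  have h1 : nrm (⟨1, -a⟩ : ZI) / 4 = a1.natAbs ^ 2 := by
    have h2 : nrm (⟨1, -a⟩ : ZI) = 4 * a1.natAbs ^ 2 + 1 := by
      have h3 := nrm_cast (⟨1, -a⟩ : ZI)
      rw [norm_def'] at h3
      have h4 : ((nrm (⟨1, -a⟩ : ZI) : ℕ) : ℤ) = ((4 * a1.natAbs ^ 2 + 1 : ℕ) : ℤ) := by
        rw [h3]
        push_cast
        rw [sq_abs, ha1]
        ring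
      exact_mod_cast h4
    omega
  rw [L_neg_two hθ.od, L_im hθ.od, h1, two_oi rfl h0]
  have h2 : ((a1.natAbs ^ 2 : ℕ) : ZMod 4) = (a1 : ZMod 4) ^ 2 := by
    have h4 := congrArg (Int.cast : ℤ → ZMod 4) (Int.natAbs_sq a1)
    simp only [Int.cast_pow, Int.cast_natCast] at h4
    rw [Nat.cast_pow]
    exact h4
  rw [h2]
  obtain ⟨q, hq⟩ : ∃ q, q = a1 / 4 := ⟨_, rfl⟩
  have h3 : a1 % 4 = 0 ∨ a1 % 4 = 1 ∨ a1 % 4 = 2 ∨ a1 % 4 = 3 := by omega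
  have f4 := four_zero
  rcases h3 with h | h | h | h
  · rw [if_pos (by omega), show a1 = 4 * q by omega]
    push_cast
    rw [f4]; ring
  · rw [if_pos (by omega), show a1 = 4 * q + 1 by omega]
    push_cast
    rw [f4]; ring
  · rw [if_neg (by omega), show a1 = 4 * q + 2 by omega]
    push_cast
    rw [f4, zero_mul]; decide
  · rw [if_neg (by omega), show a1 = 4 * q + 3 by omega]
    push_cast
    rw [f4, zero_mul]; decide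

lemma res_x2 {a c d x y n Tr Ti a1 c1 y1 : ℤ} (ha1 : a = 2 * a1) (hc1 : c = 4 * c1 + 1)
    (hx : x % 8 = 2) (hy1 : y = 4 * y1 + 1) (hd : (d + 2 * a1) % 4 = 2)
    (hn : n % 16 = (c + x) % 16) (hTr : Tr % 16 = (a * y - d) % 16)
    (hTi : Ti % 16 = (c + x + 1 * y) % 16) :
    ((n % 8 = 1 ∨ n % 8 = 7) ↔ (c1 + 1) % 2 = 0) ∧ n % 4 = 3 ∧ Tr % 4 = 2 ∧ Ti % 4 = 0 := by
  obtain ⟨z, hz⟩ : ∃ z, z = a1 * y1 := ⟨_, rfl⟩
  have hby : a * y = 8 * z + 2 * a1 := by rw [ha1, hy1, hz]; ring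
  rw [hby] at hTr
  clear hby hz
  subst ha1 hc1 hy1
  refine ⟨?_, ?_, ?_, ?_⟩ <;> omega

/-- `x ≡ 2 (mod 8)`, `y ≡ 1 (mod 4)` -/
theorem chi_ev_x2 {p : ℕ} (hp : p.Prime) (h2 : p ≠ 2) {a a1 c d x y : ℤ} (ha1 : a = 2 * a1)
    (hc : c % 4 = 1) (hd : (d + 2 * a1) % 4 = 2) (hx : x % 8 = 2) (hy : y % 4 = 1)
    (hcd : c ^ 2 + d ^ 2 = p)
    (hxy : x ^ 2 + (a ^ 2 + 1 ^ 2) * y ^ 2 = p) (hDp : a ^ 2 + 1 ^ 2 ≠ p) :
    L ⟨c, d⟩ (((a * y : ℤ) : ZI) + (x : ZI) * im1) = L ⟨c, d⟩ ((1 : ℤ) : ZI) + L ⟨c, d⟩ (y : ZI) +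
      (ls (sg ⟨1, -a⟩ ⟨c, d⟩) + 2 * (a1 : ZMod 4) -
        (if (c + d) % 8 = 1 ∨ (c + d) % 8 = 7 then 0 else 2) -
        2 * (((c / 4 + 1 : ℤ)) : ZMod 4) + a1 + (if d % 4 = 0 then 0 else 2) + 2 * (a1 : ZMod 4)) := by
  have hc2 : c % 2 = 1 := by omega
  have hd2 : d % 2 = 0 := by omega
  obtain ⟨n, Tr, Ti, hn, hTr, hTi, H⟩ := master_p hp h2 (a := a) (h := 1) (Or.inl rfl) hc2 hd2 hcd
    hxy hDp
  obtain ⟨c1, hc1⟩ : ∃ c1, c = 4 * c1 + 1 := ⟨c / 4, by omega⟩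
  obtain ⟨y1, hy1⟩ : ∃ y1, y = 4 * y1 + 1 := ⟨y / 4, by omega⟩
  obtain ⟨r2, r1, r4, r5⟩ := res_x2 ha1 hc1 hx hy1 hd hn hTr hTi
  have hc4 : c / 4 = c1 := by clear H; omega
  have ha : (-a) % 2 = 0 := by clear H; omega
  have ha4 : (-a) % 4 = 0 ↔ a1 % 2 = 0 := by clear H; omega
  have hπ : Ev (⟨c, d⟩ : ZI) := ev_of hc2 hd2
  have hθ : Ev (⟨1, -a⟩ : ZI) := ev_of rfl ha
  have tr2 : Tr / 2 % 2 = 1 := by clear H; omega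
  have ti2 : Ti / 2 % 2 = 0 := by clear H; omega
  have hT1 : Ev (⟨Tr / 2, Ti / 2⟩ : ZI) := ev_of tr2 ti2
  have cw : ∀ β : ZI, Od β → IsCoprime β 2 := fun β hβ => cop_two hβ
  have cw' : ∀ β : ZI, Od β → IsCoprime β im1 := fun β _ => cop_unit im1_norm β
  have n2 : n % 2 = 1 := by clear H; omega
  have F := H 0 n im1 ⟨1, -a⟩ 2 ⟨Tr / 2, Ti / 2⟩ (by rw [pow_zero, one_mul])
    n2
    (by
      unfold im1
      rw [re_im_mul]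
      ext
      · show a = _; simp only; ring
      · show (1 : ℤ) = _; simp only; ring) hθ (by
      have : (2 : ZI) = ⟨2, 0⟩ := by decide
      rw [this, re_im_mul]
      clear H
      ext
      · show Tr = _; simp only; omega
      · show Ti = _; simp only; omega) hT1 cw cw'
  clear H
  have odn : Od (n : ZI) := od_int.2 n2
  have e4 : (-(2 ^ 0 * ((1 : ℤ) : ZI) * im1 * im1) : ZI) = 1 := by decide
  have k4 := two_oi hc2 hd2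
  have k5 := L_two hπ.od
  have e5 : (2 * ((1 : ℤ) : ZI) : ZI) = 2 := by decide
  have k6 := L_int_im n2
  have hDpos : 0 < a ^ 2 + 1 ^ 2 := by positivity
  have hLy := two_L_y hp hc2 hd2 hcd hxy hDpos (k := 0) (y0 := y) (by ring) (by omega)
  rw [Nat.cast_zero, zero_mul] at hLy
  have k9 := two_L_two hπ.od
  have k10 := two_im hc2 hd2
  have k11 := two_L_two hθ.od
  have k12 := two_im (a := 1) (b := -a) rfl ha
  rw [if_par ha4] at k12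
  have k13 := two_L_two odn
  rw [if_par r2] at k6
  have k7 : ls (s2 n (⟨1, -a⟩ : ZI).im) = 2 * (a1 : ZMod 4) := by
    rw [ls_s2]
    have : (n % 4 = 1 ∨ (⟨1, -a⟩ : ZI).im % 4 = 0) ↔ a1 % 2 = 0 := by
      rw [← ha4]
      constructor
      · rintro (h | h)
        · omega
        · exact h
      · intro h; right; exact h
    rw [if_par this]
  rw [L_theta_even ha1, e4, e5, k7, L_one hT1.od] at F
  rw [F, ← k4, ← k10, hc4]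
  have f4 := four_zero
  push_cast at k6 ⊢
  linear_combination hLy - k5 - k6 + k9 + k11 + k12 + k13 + 2 * k6 -
    L (⟨c, d⟩ : ZI) im1 * f4 + (c1 + 1) * f4

lemma res_x4 {a c d x y n Tr Ti a1 c1 x1 y1 : ℤ} (ha1 : a = 2 * a1) (hc1 : c = 4 * c1 + 1)
    (hx : x = 4 * x1) (hy1 : y = 4 * y1 + 1) (hd : (d + 2 * a1) % 4 = 0)
    (hn : n % 16 = (c + x) % 16) (hTr : Tr % 16 = (a * y - d) % 16)
    (hTi : Ti % 16 = (c + x + 1 * y) % 16) :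
    ((n % 8 = 1 ∨ n % 8 = 7) ↔ (c1 + x1) % 2 = 0) ∧ n % 4 = 1 ∧ Tr % 4 = 0 ∧ Ti % 4 = 2 := by
  obtain ⟨z, hz⟩ : ∃ z, z = a1 * y1 := ⟨_, rfl⟩
  have hby : a * y = 8 * z + 2 * a1 := by rw [ha1, hy1, hz]; ring
  rw [hby] at hTr
  clear hby hz
  subst ha1 hc1 hy1 hx
  refine ⟨?_, ?_, ?_, ?_⟩ <;> omega

/-- `4 ∣ x`, `y ≡ 1 (mod 4)` -/
theorem chi_ev_x4 {p : ℕ} (hp : p.Prime) (h2 : p ≠ 2) {a a1 c d x y : ℤ} (ha1 : a = 2 * a1)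
    (hc : c % 4 = 1) (hd : (d + 2 * a1) % 4 = 0) (hx : x % 4 = 0) (hy : y % 4 = 1)
    (hcd : c ^ 2 + d ^ 2 = p)
    (hxy : x ^ 2 + (a ^ 2 + 1 ^ 2) * y ^ 2 = p) (hDp : a ^ 2 + 1 ^ 2 ≠ p) :
    L ⟨c, d⟩ (((a * y : ℤ) : ZI) + (x : ZI) * im1) = L ⟨c, d⟩ ((1 : ℤ) : ZI) + L ⟨c, d⟩ (y : ZI) +
      (ls (sg ⟨1, -a⟩ ⟨c, d⟩) -
        (if (c + d) % 8 = 1 ∨ (c + d) % 8 = 7 then 0 else 2) -
        2 * (((c / 4 + x / 4 : ℤ)) : ZMod 4) + a1) := by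
  have hc2 : c % 2 = 1 := by omega
  have hd2 : d % 2 = 0 := by omega
  obtain ⟨n, Tr, Ti, hn, hTr, hTi, H⟩ := master_p hp h2 (a := a) (h := 1) (Or.inl rfl) hc2 hd2 hcd
    hxy hDp
  obtain ⟨c1, hc1⟩ : ∃ c1, c = 4 * c1 + 1 := ⟨c / 4, by omega⟩
  obtain ⟨x1, hx1⟩ : ∃ x1, x = 4 * x1 := ⟨x / 4, by omega⟩
  obtain ⟨y1, hy1⟩ : ∃ y1, y = 4 * y1 + 1 := ⟨y / 4, by omega⟩
  obtain ⟨r2, r1, r4, r5⟩ := res_x4 ha1 hc1 hx1 hy1 hd hn hTr hTi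
  have hc4 : c / 4 = c1 := by clear H; omega
  have hx4 : x / 4 = x1 := by clear H; omega
  have ha : (-a) % 2 = 0 := by clear H; omega
  have hπ : Ev (⟨c, d⟩ : ZI) := ev_of hc2 hd2
  have hθ : Ev (⟨1, -a⟩ : ZI) := ev_of rfl ha
  have ti2 : Ti / 2 % 2 = 1 := by clear H; omega
  have tr2 : -(Tr / 2) % 2 = 0 := by clear H; omega
  have hT1 : Ev (⟨Ti / 2, -(Tr / 2)⟩ : ZI) := ev_of ti2 tr2
  have cw : ∀ β : ZI, Od β → IsCoprime β (2 * im1) := fun β hβ =>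
    (cop_two hβ).mul_right (cop_unit im1_norm β)
  have cw' : ∀ β : ZI, Od β → IsCoprime β im1 := fun β _ => cop_unit im1_norm β
  have n2 : n % 2 = 1 := by clear H; omega
  have F := H 0 n im1 ⟨1, -a⟩ (2 * im1) ⟨Ti / 2, -(Tr / 2)⟩ (by rw [pow_zero, one_mul])
    n2
    (by
      unfold im1
      rw [re_im_mul]
      ext
      · show a = _; simp only; ring
      · show (1 : ℤ) = _; simp only; ring) hθ (by
      have : (2 : ZI) * im1 = ⟨0, 2⟩ := by decide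
      rw [this, re_im_mul]
      clear H
      ext
      · show Tr = _; simp only; omega
      · show Ti = _; simp only; omega) hT1 cw cw'
  clear H
  have odn : Od (n : ZI) := od_int.2 n2
  have e2i : (2 : ZI) * im1 = oi ^ (2 * 1) := by decide
  have w1 := two_L_sq hπ.od (cop_oi hπ.od) 1
  have w2 := two_L_sq hθ.od (cop_oi hθ.od) 1
  have w3 := two_L_sq odn (cop_oi odn) 1
  have e4 : (-(2 ^ 0 * ((1 : ℤ) : ZI) * im1 * im1) : ZI) = 1 := by decide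
  have k4 := two_oi hc2 hd2
  have k5 := L_two hπ.od
  have e5 : (2 * ((1 : ℤ) : ZI) : ZI) = 2 := by decide
  have k6 := L_int_im n2
  have hDpos : 0 < a ^ 2 + 1 ^ 2 := by positivity
  have hLy := two_L_y hp hc2 hd2 hcd hxy hDpos (k := 0) (y0 := y) (by ring) (by omega)
  rw [Nat.cast_zero, zero_mul] at hLy
  rw [if_par r2] at k6
  have k7 : ls (s2 n (⟨1, -a⟩ : ZI).im) = 0 := by
    rw [ls_s2, if_pos (Or.inl r1)]
  rw [L_theta_even ha1, e2i, e4, e5, k7, L_one hT1.od] at F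
  rw [F, ← k4, hc4, hx4]
  have f4 := four_zero
  push_cast at k6 ⊢
  linear_combination hLy + w1 + w2 + w3 - k5 - k6 - L (⟨c, d⟩ : ZI) im1 * f4

end Pool.Agent.R441.Q4
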