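import Pool.Agent.R441.Q4.P

/-!
The quartic symbol of the unit `a + √(a²+1)`, `a` even: final forms, and the congruences.
-/

set_option autoImplicit false
set_option linter.unusedSimpArgs false

namespace Pool.Agent.R441.Q4

section

variable {p : ℕ} {a a1 c d x y : ℤ}

lemma cd8_zero (hc : c % 4 = 1) (hd : d % 4 = 0) :
    ((c + d) % 8 = 1 ∨ (c + d) % 8 = 7) ↔ (c / 4 + d / 4) % 2 = 0 := by omega

lemma cd8_two (hc : c % 4 = 1) (hd : d % 8 = 2) :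
    ((c + d) % 8 = 1 ∨ (c + d) % 8 = 7) ↔ (c / 4 + 1) % 2 = 0 := by omega

theorem chi_ev_x2_odd (hp : p.Prime) (h2 : p ≠ 2) (ha1 : a = 2 * a1) (ho : a1 % 2 = 1)
    (hc : c % 4 = 1) (hd : d % 4 = 0) (hx : x % 8 = 2) (hy : y % 4 = 1)
    (hcd : c ^ 2 + d ^ 2 = p)
    (hxy : x ^ 2 + (a ^ 2 + 1 ^ 2) * y ^ 2 = p) (hDp : a ^ 2 + 1 ^ 2 ≠ p) :
    L ⟨c, d⟩ (((a * y : ℤ) : ZI) + (x : ZI) * im1) = L ⟨c, d⟩ ((1 : ℤ) : ZI) + L ⟨c, d⟩ (y : ZI) +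
      ((a1 : ZMod 4) + 2 + 2 * ((d / 4 : ℤ) : ZMod 4)) := by
  rw [chi_ev_x2 hp h2 ha1 hc (by omega) hx hy hcd hxy hDp, if_par (cd8_zero hc hd), if_pos hd]
  have k8 : ls (sg ⟨1, -a⟩ ⟨c, d⟩) = 0 := by
    rw [ls_sg', if_pos hd, if_pos (show (c + d) % 4 = 1 by omega)]
    split_ifs <;> rfl
  rw [k8]
  have f4 := four_zero
  push_cast
  linear_combination ((a1 : ZMod 4) - ((c / 4 : ℤ) : ZMod 4) - ((d / 4 : ℤ) : ZMod 4) - 1) * f4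

theorem chi_ev_x2_even (hp : p.Prime) (h2 : p ≠ 2) (ha1 : a = 2 * a1) (ho : a1 % 2 = 0)
    (hc : c % 4 = 1) (hd : d % 8 = 2) (hx : x % 8 = 2) (hy : y % 4 = 1)
    (hcd : c ^ 2 + d ^ 2 = p)
    (hxy : x ^ 2 + (a ^ 2 + 1 ^ 2) * y ^ 2 = p) (hDp : a ^ 2 + 1 ^ 2 ≠ p) :
    L ⟨c, d⟩ (((a * y : ℤ) : ZI) + (x : ZI) * im1) = L ⟨c, d⟩ ((1 : ℤ) : ZI) + L ⟨c, d⟩ (y : ZI) +
      ((a1 : ZMod 4) + 2) := by
  rw [chi_ev_x2 hp h2 ha1 hc (by omega) hx hy hcd hxy hDp, if_par (cd8_two hc hd),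
    if_neg (show ¬ d % 4 = 0 by omega)]
  have k8 : ls (sg ⟨1, -a⟩ ⟨c, d⟩) = 0 := by
    rw [ls_sg', if_pos (show (-a) % 4 = 0 by omega), if_pos (show (-a) % 4 = 0 by omega),
      if_pos (show (1 + -a) % 4 = 1 by omega)]
    rfl
  rw [k8]
  have f4 := four_zero
  push_cast
  linear_combination ((a1 : ZMod 4) - ((c / 4 : ℤ) : ZMod 4) - 1) * f4

theorem chi_ev_x4_odd (hp : p.Prime) (h2 : p ≠ 2) (ha1 : a = 2 * a1) (ho : a1 % 2 = 1)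
    (hc : c % 4 = 1) (hd : d % 8 = 2) (hx : x % 4 = 0) (hy : y % 4 = 1)
    (hcd : c ^ 2 + d ^ 2 = p)
    (hxy : x ^ 2 + (a ^ 2 + 1 ^ 2) * y ^ 2 = p) (hDp : a ^ 2 + 1 ^ 2 ≠ p) :
    L ⟨c, d⟩ (((a * y : ℤ) : ZI) + (x : ZI) * im1) = L ⟨c, d⟩ ((1 : ℤ) : ZI) + L ⟨c, d⟩ (y : ZI) +
      ((a1 : ZMod 4) + 2 * ((x / 4 : ℤ) : ZMod 4)) := by
  rw [chi_ev_x4 hp h2 ha1 hc (by omega) hx hy hcd hxy hDp, if_par (cd8_two hc hd)]
  have k8 : ls (sg ⟨1, -a⟩ ⟨c, d⟩) = 2 := by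
    rw [ls_sg', if_neg (show ¬ (-a) % 4 = 0 by omega), if_neg (show ¬ (-a) % 4 = 0 by omega),
      if_neg (show ¬ (1 + -a) % 4 = 1 by omega), if_neg (show ¬ d % 4 = 0 by omega),
      if_neg (show ¬ (c + d) % 4 = 1 by omega)]
    rfl
  rw [k8]
  have f4 := four_zero
  push_cast
  linear_combination (- ((c / 4 : ℤ) : ZMod 4) - ((x / 4 : ℤ) : ZMod 4)) * f4

theorem chi_ev_x4_even (hp : p.Prime) (h2 : p ≠ 2) (ha1 : a = 2 * a1) (ho : a1 % 2 = 0)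
    (hc : c % 4 = 1) (hd : d % 4 = 0) (hx : x % 4 = 0) (hy : y % 4 = 1)
    (hcd : c ^ 2 + d ^ 2 = p)
    (hxy : x ^ 2 + (a ^ 2 + 1 ^ 2) * y ^ 2 = p) (hDp : a ^ 2 + 1 ^ 2 ≠ p) :
    L ⟨c, d⟩ (((a * y : ℤ) : ZI) + (x : ZI) * im1) = L ⟨c, d⟩ ((1 : ℤ) : ZI) + L ⟨c, d⟩ (y : ZI) +
      ((a1 : ZMod 4) + 2 * ((d / 4 : ℤ) : ZMod 4) + 2 * ((x / 4 : ℤ) : ZMod 4)) := by
  rw [chi_ev_x4 hp h2 ha1 hc (by omega) hx hy hcd hxy hDp, if_par (cd8_zero hc hd)]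
  have k8 : ls (sg ⟨1, -a⟩ ⟨c, d⟩) = 0 := by
    rw [ls_sg', if_pos hd, if_pos (show (c + d) % 4 = 1 by omega)]
    split_ifs <;> rfl
  rw [k8]
  have f4 := four_zero
  push_cast
  linear_combination (- ((c / 4 : ℤ) : ZMod 4) - ((d / 4 : ℤ) : ZMod 4) - ((x / 4 : ℤ) : ZMod 4)) * f4

end

/-! ### parities -/

section

variable {a1 c d x y P : ℤ}

lemma D_even (ho : a1 % 2 = 0) : ((2 * a1) ^ 2 + 1 ^ 2) % 8 = 1 := by
  obtain ⟨k, hk⟩ : ∃ k, a1 = 2 * k := ⟨a1 / 2, by omega⟩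
  obtain ⟨r, hr⟩ : ∃ r, r = 2 * k ^ 2 := ⟨_, rfl⟩
  have : (2 * a1) ^ 2 + 1 ^ 2 = 8 * r + 1 := by rw [hk, hr]; ring
  rw [this]; omega

lemma D_odd (ho : a1 % 2 = 1) : ((2 * a1) ^ 2 + 1 ^ 2) % 8 = 5 := by
  have h1 := sq8_odd ho
  have : (2 * a1) ^ 2 + 1 ^ 2 = 4 * a1 ^ 2 + 1 := by ring
  rw [this]; omega

lemma ev_y2_of_odd (hc : c % 2 = 1) (hd : d % 2 = 0) (h : c ^ 2 + d ^ 2 =
    x ^ 2 + ((2 * a1) ^ 2 + 1 ^ 2) * y ^ 2) : (x + y) % 2 = 1 := by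
  have h1 := sq8_odd hc
  have h3 : d ^ 2 % 4 = 0 := by
    obtain ⟨k, hk⟩ : ∃ k, d = 2 * k := ⟨d / 2, by omega⟩
    have : d ^ 2 = 4 * k ^ 2 := by rw [hk]; ring
    rw [this]; omega
  have h4 : ∀ z : ℤ, z ^ 2 % 2 = z % 2 := by
    intro z
    rcases Int.emod_two_eq_zero_or_one z with h | h <;> rw [sq, Int.mul_emod, h] <;> rfl
  have h5 := h4 x
  have h6 := h4 y
  have h7 : ((2 * a1) ^ 2 + 1 ^ 2) * y ^ 2 = 2 * (2 * a1 ^ 2 * y ^ 2) + y ^ 2 := by ring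
  rw [h7] at h
  omega

/-- the residue of `d` in terms of `x`, `y` -/
lemma ev_d {k : ℤ} (hc : c % 2 = 1) (hd : d % 2 = 0) (hk : ((2 * a1) ^ 2 + 1 ^ 2) % 8 = k)
    (h : c ^ 2 + d ^ 2 = x ^ 2 + ((2 * a1) ^ 2 + 1 ^ 2) * y ^ 2) :
    (x % 4 = 2 → y % 2 = 1 → (1 + d ^ 2) % 8 = (4 + k) % 8) ∧
    (x % 4 = 0 → y % 2 = 1 → (1 + d ^ 2) % 8 = k % 8) ∧
    (y % 4 = 2 → x % 2 = 1 → (1 + d ^ 2) % 8 = (1 + 4 * k) % 8) ∧
    (y % 4 = 0 → x % 2 = 1 → (1 + d ^ 2) % 8 = 1) := by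
  have h1 := sq8_odd hc
  refine ⟨fun hx hy => ?_, fun hx hy => ?_, fun hy hx => ?_, fun hy hx => ?_⟩
  · have e1 := sq8_two hx
    have e2 := mul_mod8 hk (sq8_odd hy)
    omega
  · have e1 := sq8_four hx
    have e2 := mul_mod8 hk (sq8_odd hy)
    omega
  · have e1 := sq8_odd hx
    have e2 := mul_mod8 hk (sq8_two hy)
    omega
  · have e1 := sq8_odd hx
    have e2 := mul_mod8 hk (sq8_four hy)
    omega

lemma d_of_one (hd : d % 2 = 0) (h : (1 + d ^ 2) % 8 = 1) : d % 4 = 0 := by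
  by_contra hne
  have := sq8_two (z := d) (by omega)
  omega

lemma d_of_five (hd : d % 2 = 0) (h : (1 + d ^ 2) % 8 = 5) : d % 4 = 2 := by
  by_contra hne
  have := sq8_four (z := d) (by omega)
  omega

end

/-- powers of `j` for even exponents -/
lemma jp_two_mul {F : Type} [Field F] {j : F} (hj : j ^ 2 = -1) (k : ℤ) :
    jp j (2 * (k : ZMod 4)) = (-1) ^ k := by
  rw [two_cast, zsign]
  split_ifs
  · exact jp_zero j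
  · exact jp_two hj

lemma neg_two_mul (k : ℤ) : -(2 * (k : ZMod 4)) = 2 * (k : ZMod 4) := by
  linear_combination -(k : ZMod 4) * four_zero

lemma jp_odd_mul {F : Type} [Field F] {j : F} (hj : j ^ 2 = -1) (k : ℤ) :
    jp j (1 + 2 * (k : ZMod 4)) = (-1) ^ k * j ∧ jp j (-(1 + 2 * (k : ZMod 4))) = -((-1) ^ k * j) := by
  have e : -(1 + 2 * (k : ZMod 4)) = 2 * (k : ZMod 4) + 3 := by
    linear_combination -(k : ZMod 4) * four_zero - four_zero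
  rw [e, jp_add hj, jp_add hj, jp_two_mul hj, jp_one, jp_three hj]
  constructor <;> ring

/-- common facts -/
lemma cd_facts {p : ℕ} [hp : Fact p.Prime] {c d : ℤ} (hcd : c ^ 2 + d ^ 2 = p) (hc0 : (c : ZMod p) ≠ 0) :
    (d : ZMod p) ≠ 0 ∧ (c : ZMod p) / d = -((d : ZMod p) / c) := by
  have hcd0 : (c : ZMod p) ^ 2 + (d : ZMod p) ^ 2 = 0 := by
    have := congrArg (Int.cast : ℤ → ZMod p) hcd
    push_cast at this
    rw [this]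
    exact ZMod.natCast_self p
  have hd0 : (d : ZMod p) ≠ 0 := by
    intro h0
    rw [h0] at hcd0
    have h3 : (c : ZMod p) ^ 2 = 0 := by linear_combination hcd0
    exact hc0 (pow_eq_zero_iff two_ne_zero |>.1 h3)
  refine ⟨hd0, ?_⟩
  field_simp
  linear_combination hcd0

end Pool.Agent.R441.Q4
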