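import Pool.Agent.R441.Q4.R

/-!
The supplementary law for `1 + i`, and the quartic symbol of `a + √(a²+1)`, `a` odd.
-/

set_option autoImplicit false
set_option linter.unusedSimpArgs false

namespace Pool.Agent.R441.Q4

/-- the master formula for a prime, with `n` known modulo `32` -/
theorem master_p32 {p : ℕ} (hp : p.Prime) (h2 : p ≠ 2) {c d x y a h : ℤ} (hh : h = 1 ∨ h = 2)
    (hc : c % 2 = 1) (hd : d % 2 = 0) (hcd : c ^ 2 + d ^ 2 = p)
    (hxy : x ^ 2 + (a ^ 2 + h ^ 2) * y ^ 2 = p) (hDp : a ^ 2 + h ^ 2 ≠ p) :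
    ∃ n Tr Ti : ℤ, n % 32 = (c + x) % 32 ∧ Tr % 16 = (a * y - d) % 16 ∧
      Ti % 16 = (c + x + h * y) % 16 ∧
      ∀ (e : ℕ) (n0 : ℤ) (w' θs w T1 : ZI), n = 2 ^ e * n0 → n0 % 2 = 1 →
        (⟨a, h⟩ : ZI) = w' * θs → Ev θs → (⟨Tr, Ti⟩ : ZI) = w * T1 → Ev T1 →
        (∀ β : ZI, Od β → IsCoprime β w) → (∀ β : ZI, Od β → IsCoprime β w') →
        L ⟨c, d⟩ (((a * y : ℤ) : ZI) + (x : ZI) * im1) =
          L ⟨c, d⟩ (h : ZI) + L ⟨c, d⟩ (y : ZI) +
          (2 * L ⟨c, d⟩ (y : ZI) + ls (sg θs ⟨c, d⟩) + ls (s2 n0 θs.im) - L ⟨c, d⟩ (2 * (h : ZI)) -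
            L ⟨c, d⟩ w' - L (n0 : ZI) w' + L θs (-2 ^ (e + 1)) +
            2 * (L ⟨c, d⟩ w + L θs w + L (n0 : ZI) w) +
            2 * L T1 (-(2 ^ e * (h : ZI) * w' * im1))) := by
  have hDpos : 0 < a ^ 2 + h ^ 2 := by
    rcases hh with rfl | rfl <;> nlinarith [sq_nonneg a]
  obtain ⟨v, hv16, hvp, hvq⟩ := exists_tau hp h2 hcd hxy hDpos hDp
  have hπn : (⟨c, d⟩ : ZI).norm = p := by rw [norm_def']; exact hcd
  have hθn : (⟨a, h⟩ : ZI).norm = a ^ 2 + h ^ 2 := norm_def' _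
  have hτn : (⟨1, v⟩ : ZI).norm = 1 + v ^ 2 := by rw [norm_def']; ring
  have hτ2 : (⟨1, v⟩ : ZI) ^ 2 = ⟨1 - v ^ 2, 2 * v⟩ := by
    rw [sq, re_im_mul]
    ext <;> simp only <;> ring
  have hτ4 : (⟨1, v⟩ : ZI) ^ 4 = ⟨1 - 6 * v ^ 2 + v ^ 4, 4 * v * (1 - v ^ 2)⟩ := by
    have : (⟨1, v⟩ : ZI) ^ 4 = (⟨1, v⟩ : ZI) ^ 2 * (⟨1, v⟩ : ZI) ^ 2 := by ring
    rw [this, hτ2, re_im_mul]
    ext <;> simp only <;> ring
  have hsτ : star (⟨1, v⟩ : ZI) ^ 2 = ⟨1 - v ^ 2, -(2 * v)⟩ := by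
    have : star (⟨1, v⟩ : ZI) = ⟨1, -v⟩ := rfl
    rw [this, sq, re_im_mul]
    ext <;> simp only <;> ring
  have hyθ : ((y : ZI) * (⟨a, h⟩ : ZI) + (x : ZI) * im1) = ⟨a * y, h * y + x⟩ := by
    ext
    · simp only [Zsqrtd.re_add, Zsqrtd.re_mul, Zsqrtd.im_mul, Zsqrtd.re_intCast, Zsqrtd.im_intCast,
        im1]; ring
    · simp only [Zsqrtd.im_add, Zsqrtd.re_mul, Zsqrtd.im_mul, Zsqrtd.re_intCast, Zsqrtd.im_intCast,
        im1]; ring
  have hT : im1 * (⟨c, d⟩ : ZI) * (⟨1, v⟩ : ZI) ^ 2 + star (⟨1, v⟩ : ZI) ^ 2 *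
      ((y : ZI) * (⟨a, h⟩ : ZI) + (x : ZI) * im1) =
      ⟨-(d * (1 - v ^ 2)) - 2 * v * c + (1 - v ^ 2) * (a * y) + 2 * v * (h * y + x),
        c * (1 - v ^ 2) - d * (2 * v) + (1 - v ^ 2) * (h * y + x) - 2 * v * (a * y)⟩ := by
    rw [hsτ, hτ2, hyθ, re_im_mul]
    have : im1 * (⟨c, d⟩ : ZI) = ⟨-d, c⟩ := by
      unfold im1
      rw [re_im_mul]
      ext <;> simp only <;> ring
    rw [this, re_im_mul]
    ext
    · rw [Zsqrtd.re_add]; ring
    · rw [Zsqrtd.im_add]; ring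
  obtain ⟨k, hk⟩ := hv16
  refine ⟨((⟨c, d⟩ : ZI) * (⟨1, v⟩ : ZI) ^ 4).re + x * (⟨1, v⟩ : ZI).norm ^ 2,
    -(d * (1 - v ^ 2)) - 2 * v * c + (1 - v ^ 2) * (a * y) + 2 * v * (h * y + x),
    c * (1 - v ^ 2) - d * (2 * v) + (1 - v ^ 2) * (h * y + x) - 2 * v * (a * y), ?_, ?_, ?_, ?_⟩
  rotate_right
  · intro e n0 w' θs w T1 hn hn0 hw' hθs hw hT1 c3 c4
    have hre : (⟨a, h⟩ : ZI).re = a := rfl
    have him : (⟨a, h⟩ : ZI).im = h := rfl
    have hnv : n0 ∣ c * (1 - 6 * v ^ 2 + v ^ 4) - 4 * d * v * (1 - v ^ 2) + x * (1 + v ^ 2) ^ 2 := by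
      have e1 : ((⟨c, d⟩ : ZI) * (⟨1, v⟩ : ZI) ^ 4).re + x * (⟨1, v⟩ : ZI).norm ^ 2 =
          c * (1 - 6 * v ^ 2 + v ^ 4) - 4 * d * v * (1 - v ^ 2) + x * (1 + v ^ 2) ^ 2 := by
        rw [hτ4, re_im_mul, hτn]
        ring
      rw [← e1, hn]
      exact dvd_mul_left _ _
    have hh' : ∀ q : ℕ, q.Prime → q ≠ 2 → ¬ (q : ℤ) ∣ h := by
      intro q hq hq2 hd
      have h3 : (q : ℤ) ∣ 2 := by
        rcases hh with rfl | rfl
        · exact hd.trans (one_dvd _)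
        · exact hd
      have h4 : q ∣ 2 := by exact_mod_cast h3
      exact hq2 ((Nat.prime_dvd_prime_iff_eq hq Nat.prime_two).1 h4)
    have hpi : Prime (p : ℤ) := Nat.prime_iff_prime_int.1 hp
    have := master (π := ⟨c, d⟩) (θ := ⟨a, h⟩) (w' := w') (θs := θs) (w := w) (T1 := T1)
      (τ := ⟨1, v⟩) (x := x) (y := y) (n0 := n0) (e := e) (ev_of hc hd) hw' hθs
      (by rw [hπn, hθn, hxy]) rfl hn hn0 (by rw [hT]; exact hw) hT1 ?_ ?_ c3 c4
    · rw [hre, him] at this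
      exact this
    · rw [him, hθn, hτn]
      apply cop_of_primes hn0
      intro q hq hq2 hqn hqd
      have e2 : y * h * (a ^ 2 + h ^ 2) * (1 + v ^ 2) = h * (y * (a ^ 2 + h ^ 2) * (1 + v ^ 2)) := by ring
      rw [e2] at hqd
      rcases (Nat.prime_iff_prime_int.1 hq).dvd_or_dvd hqd with h5 | h5
      · exact hh' q hq hq2 h5
      · exact hvq q hq hq2 h5 (hqn.trans hnv)
    · rw [him, hθn, hτn, hπn]
      have e2 : y * h * (a ^ 2 + h ^ 2) * (1 + v ^ 2) = h * (y * (a ^ 2 + h ^ 2) * (1 + v ^ 2)) := by ring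
      rw [e2]
      exact IsCoprime.mul_right ((hpi.coprime_iff_not_dvd).2 (hh' p hp h2)) hvp
  · rw [hτ4, re_im_mul, hτn, hk]
    ring_nf
    omega
  · rw [hk]
    ring_nf
    omega
  · rw [hk]
    ring_nf
    omega


/-! ### the supplementary law -/

/-- the value of the symbol of `1+i` over a rational integer -/
def so (n : ℤ) : ZMod 4 := (((s4 n * n - 1) / 4 : ℤ) : ZMod 4)

lemma s4_spec {n : ℤ} (hn : n % 2 = 1) : ∃ k, s4 n * n = 4 * k + 1 := by
  unfold s4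
  have h : n % 4 = 1 ∨ n % 4 = 3 := by omega
  rcases h with h | h
  · exact ⟨n / 4, by rw [if_pos h]; omega⟩
  · exact ⟨(-n) / 4, by rw [if_neg (by omega)]; omega⟩

lemma so_eq {n k : ℤ} (h : s4 n * n = 4 * k + 1) : so n = (k : ZMod 4) := by
  unfold so
  have : (s4 n * n - 1) / 4 = k := by omega
  rw [this]

lemma so_mul {m n : ℤ} (hm : m % 2 = 1) (hn : n % 2 = 1) : so (m * n) = so m + so n := by
  obtain ⟨k, hk⟩ := s4_spec hm
  obtain ⟨l, hl⟩ := s4_spec hn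
  have e : s4 (m * n) * (m * n) = 4 * (4 * (k * l) + k + l) + 1 := by
    rw [s4_mul hm hn]
    linear_combination (s4 n * n) * hk + (4 * k + 1) * hl
  rw [so_eq hk, so_eq hl, so_eq e]
  push_cast
  linear_combination ((k : ZMod 4) * (l : ZMod 4)) * four_zero

lemma lg_star {u : ZI} (hu : u.norm = 1) : lg (star u) = -lg u := by
  rcases unit_cases hu with h | h | h | h <;> rw [h] <;> decide

lemma L_star_oi {β : ZI} (h : Od β) : L β (star oi) = 3 * L β im1 + L β oi := by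
  have e : star oi = im1 ^ 3 * oi := by decide
  have c1 := cop_unit im1_norm β
  rw [e, L_mul h c1.pow_right (cop_oi h), L_pow h c1]
  norm_num

lemma L_conj {β a : ZI} (h : Od β) (ha : IsCoprime β a) : L (star β) (star a) = -L β a := by
  unfold L
  rw [Q_star h, lg_star (Q_norm h ha)]

lemma im1_pow_k (k : ℕ) : im1 ^ (4 * k + 3) = -im1 := by
  rw [pow_add, pow_mul, im1_four, one_pow, one_mul]
  decide

lemma L_prime_oi {q : ℕ} (hq : q.Prime) (h2 : q ≠ 2) : L (q : ZI) oi = so q := by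
  rcases (show q % 4 = 1 ∨ q % 4 = 3 by
    rcases hq.eq_two_or_odd with h | h
    · exact absurd h h2
    · omega) with h1 | h3
  · obtain ⟨x, hx, hxx, hn⟩ := split_exists hq h1
    have o1 : Od x := hx.odd
    rw [← hxx, L_mul_left o1 o1.star (cop_oi o1) (cop_oi o1.star)]
    have e1 := L_conj o1 (cop_oi' o1)
    rw [star_star, L_star_oi o1] at e1
    rw [e1]
    have e2 := L_im o1
    have e3 : nrm x = q := by
      have := nrm_cast x
      rw [hn] at this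
      exact_mod_cast this
    rw [e3] at e2
    obtain ⟨k, hk⟩ : ∃ k, q / 4 = k := ⟨_, rfl⟩
    rw [hk] at e2
    have e4 : s4 (q : ℤ) * q = 4 * (k : ℤ) + 1 := by
      unfold s4
      rw [if_pos (by omega)]
      omega
    rw [so_eq e4]
    push_cast
    rw [← e2]
    linear_combination -L x im1 * four_zero
  · have hP := inert_op hq h3
    obtain ⟨k, hk, hk2⟩ := inert_quarter h3
    have h4 : (q : ZI) ∣ oi ^ (4 * k + 2) - (-im1) := by
      obtain ⟨r, hr⟩ := exists_add_pow_prime_eq hq (1 : ZI) im1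
      have e1 : (1 : ZI) + im1 = oi := by decide
      rw [e1, one_pow] at hr
      have e2 : im1 ^ q = -im1 := by rw [hk]; exact im1_pow_k k
      rw [e2] at hr
      have e3 : oi ^ q = oi ^ (4 * k + 2) * oi := by rw [hk, pow_succ]
      have h5 : (q : ZI) ∣ oi * (oi ^ (4 * k + 2) - (-im1)) := by
        refine ⟨im1 * r, ?_⟩
        have e4 : im1 * oi = -1 + im1 := by decide
        linear_combination hr - e3 + e4
      have h6 : IsCoprime (q : ZI) oi := cop_oi hP.odd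
      exact h6.dvd_of_dvd_mul_left h5
    have h5 : (q : ZI) ∣ oi ^ (nrm (q : ZI) / 4) - (-im1) ^ (k + 1) := by
      rw [nrm_natCast, hk2, pow_mul]
      exact h4.trans (sub_dvd_pow_sub_pow _ _ _)
    have h6 : Q (q : ZI) oi = (-im1) ^ (k + 1) := by
      rw [Q_prime hP.pr]
      exact q4_eq hP (Val4.pow (Or.inr (by decide)) _) h5
    unfold L
    rw [h6, lg_pow (by decide)]
    have e4 : s4 (q : ℤ) * q = 4 * (-((k : ℤ) + 1)) + 1 := by
      unfold s4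
      rw [if_neg (by omega)]
      omega
    rw [so_eq e4]
    have e5 : lg (-im1) = -1 := by decide
    rw [e5]
    push_cast
    ring

lemma L_nat_oi {n : ℕ} (hn : n % 2 = 1) : L (n : ZI) oi = so n := by
  induction n, hn using nat_ind with
  | h1 =>
    rw [Nat.cast_one]
    unfold L
    rw [Q_unit_left (by decide)]
    decide
  | hp q n hq h2 hn ih =>
    have ho : q % 2 = 1 := by
      rcases hq.eq_two_or_odd with h | h
      · exact absurd h h2
      · exact h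
    push_cast
    rw [L_mul_left (od_nat ho) (od_nat hn) (cop_oi (od_nat ho)) (cop_oi (od_nat hn)), ih,
      L_prime_oi hq h2, so_mul (by omega) (by omega)]

/-- the symbol of `1 + i` over a rational integer -/
theorem L_int_oi {n : ℤ} (hn : n % 2 = 1) : L (n : ZI) oi = so n := by
  unfold L
  rw [Q_natAbs]
  have h := L_nat_oi (n := n.natAbs) (by omega)
  unfold L at h
  rw [h]
  unfold so
  rw [s4_natAbs hn]

/-- the symbol of `1 + i` -/
theorem L_pi_oi {p : ℕ} (hp : p.Prime) {c d c1 d1 : ℤ} (hc : c = 4 * c1 + 1) (hd : d = 4 * d1)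
    (hcd : c ^ 2 + d ^ 2 = p) : L (⟨c, d⟩ : ZI) oi = (c1 : ZMod 4) - d1 := by
  have hπ : Ev (⟨c, d⟩ : ZI) := ev_of (by show c % 2 = 1; omega) (by show d % 2 = 0; omega)
  have hc2 : c % 2 = 1 := by omega
  have hm2 : (c + d) % 2 = 1 := by omega
  -- coprimality of `c` and `d`
  have hpi : Prime (p : ℤ) := Nat.prime_iff_prime_int.1 hp
  have c0 : IsCoprime c d := by
    rw [Int.isCoprime_iff_gcd_eq_one]
    by_contra hne
    obtain ⟨q, hq, hqd⟩ := Nat.exists_prime_and_dvd hne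
    have h1 : (q : ℤ) ∣ c := (Int.natCast_dvd_natCast.2 hqd).trans (Int.gcd_dvd_left _ _)
    have h2 : (q : ℤ) ∣ d := (Int.natCast_dvd_natCast.2 hqd).trans (Int.gcd_dvd_right _ _)
    have h3 : (q : ℤ) ^ 2 ∣ (p : ℤ) := by
      rw [← hcd]
      exact dvd_add (pow_dvd_pow_of_dvd h1 2) (pow_dvd_pow_of_dvd h2 2)
    have h4 : q ^ 2 ∣ p := by exact_mod_cast h3
    have h5 := (Nat.dvd_prime hp).1 h4
    have h6 := hq.one_lt
    rcases h5 with h5 | h5
    · nlinarith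
    · have h7 : q ∣ p := ⟨q, by rw [← h5, sq]⟩
      have h8 := (Nat.prime_dvd_prime_iff_eq hq hp).1 h7
      rw [h8] at h5
      have := hp.one_lt
      nlinarith
  have c1' : IsCoprime (c + d) d := by
    have := IsCoprime.add_mul_left_left c0 1
    rwa [mul_one] at this
  -- L π c
  have odc : Od (c : ZI) := od_int.2 hc2
  have odm : Od ((c + d : ℤ) : ZI) := od_int.2 hm2
  have i1 : IsCoprime (c : ZI) (d : ZI) := int_cop c0
  have i2 : IsCoprime ((c + d : ℤ) : ZI) (d : ZI) := int_cop c1'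
  have eπ : (⟨c, d⟩ : ZI) = (c : ZI) + (d : ZI) * im1 := eq_re_im _
  have i3 : IsCoprime (c : ZI) (⟨c, d⟩ : ZI) := by
    refine cop_congr (a := (d : ZI) * im1) ⟨-1, ?_⟩ (i1.mul_right (cop_unit im1_norm _))
    rw [eπ]; ring
  have i4 : IsCoprime ((c + d : ℤ) : ZI) (⟨c, d⟩ : ZI) := by
    refine cop_congr (a := (d : ZI) * (im1 * oi)) ⟨-1, ?_⟩
      (i2.mul_right ((cop_unit im1_norm _).mul_right (cop_oi odm)))
    rw [eπ]
    have e4 : im1 * oi = -1 + im1 := by decide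
    rw [e4]
    push_cast
    ring
  have s1 : ls (s2 c (⟨c, d⟩ : ZI).im) = 0 := by
    rw [ls_s2, if_pos (Or.inl (by omega))]
  have s2' : ls (s2 (c + d) (⟨c, d⟩ : ZI).im) = 0 := by
    rw [ls_s2, if_pos (Or.inl (by omega))]
  have k1 := L_rec_int hc2 hπ i3
  have k2 := L_rec_int hm2 hπ i4
  rw [s1, add_zero] at k1
  rw [s2', add_zero] at k2
  have k3 : L (c : ZI) (⟨c, d⟩ : ZI) = 2 * ((c1 : ℤ) : ZMod 4) := by
    have : L (c : ZI) (⟨c, d⟩ : ZI) = L (c : ZI) ((d : ZI) * im1) := by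
      apply L_per odc
      refine ⟨1, ?_⟩
      rw [eπ]; ring
    rw [this, L_mul odc i1 (cop_unit im1_norm _), L_rat hc2 c0, L_int_im hc2, zero_add, if_par]
    omega
  have k4 : L ((c + d : ℤ) : ZI) (⟨c, d⟩ : ZI) = 3 * ((c1 : ZMod 4) + d1) := by
    have : L ((c + d : ℤ) : ZI) (⟨c, d⟩ : ZI) = L ((c + d : ℤ) : ZI) ((d : ZI) * (im1 * oi)) := by
      apply L_per odm
      refine ⟨1, ?_⟩
      rw [eπ]
      have e4 : im1 * oi = -1 + im1 := by decide
      rw [e4]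
      push_cast
      ring
    have e5 : ((c + d) % 8 = 1 ∨ (c + d) % 8 = 7) ↔ (c1 + d1) % 2 = 0 := by omega
    have e6 : s4 (c + d) * (c + d) = 4 * (c1 + d1) + 1 := by
      unfold s4
      rw [if_pos (by omega)]
      omega
    rw [this, L_mul odm i2 ((cop_unit im1_norm _).mul_right (cop_oi odm)),
      L_mul odm (cop_unit im1_norm _) (cop_oi odm), L_rat hm2 c1', L_int_im hm2, L_int_oi hm2,
      so_eq e6, if_par e5]
    push_cast
    ring
  -- π divides (c+d) - c(1+i)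
  have k5 : L (⟨c, d⟩ : ZI) ((c + d : ℤ) : ZI) = L (⟨c, d⟩ : ZI) ((c : ZI) * oi) := by
    apply L_per hπ.od
    refine ⟨-im1, ?_⟩
    rw [eπ]
    have e4 : oi = 1 + im1 := by decide
    rw [e4]
    push_cast
    linear_combination (d : ZI) * im1_sq
  rw [L_mul hπ.od i3.symm (cop_oi hπ.od), k1, k2, k3, k4] at k5
  push_cast at k5
  linear_combination -k5 + ((d1 : ZMod 4)) * four_zero

end Pool.Agent.R441.Q4
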