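import Pool.Agent.R441.Q4.S

/-!
The quartic symbol of `a + √(a²+1)`, `a` odd.
-/

set_option autoImplicit false
set_option linter.unusedSimpArgs false

namespace Pool.Agent.R441.Q4

lemma tri {k s : ℤ} (h : k * (k - 1) = 2 * s) : (s % 2 = 0 ↔ (k % 4 = 0 ∨ k % 4 = 1)) := by
  obtain ⟨q, hq⟩ : ∃ q, q = k / 4 := ⟨_, rfl⟩
  obtain ⟨r, hr⟩ : ∃ r, r = q ^ 2 := ⟨_, rfl⟩
  have h4 : k % 4 = 0 ∨ k % 4 = 1 ∨ k % 4 = 2 ∨ k % 4 = 3 := by omega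
  rcases h4 with h4 | h4 | h4 | h4
  · have : k = 4 * q := by omega
    have e : 16 * r - 4 * q = 2 * s := by rw [← h, this, hr]; ring
    clear h
    omega
  · have : k = 4 * q + 1 := by omega
    have e : 16 * r + 4 * q = 2 * s := by rw [← h, this, hr]; ring
    clear h
    omega
  · have : k = 4 * q + 2 := by omega
    have e : 16 * r + 12 * q + 2 = 2 * s := by rw [← h, this, hr]; ring
    clear h
    omega
  · have : k = 4 * q + 3 := by omega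
    have e : 16 * r + 20 * q + 6 = 2 * s := by rw [← h, this, hr]; ring
    clear h
    omega

lemma exists_tri (k : ℤ) : ∃ s, k * (k - 1) = 2 * s := by
  have h := Int.even_iff.1 (Int.even_mul_pred_self k)
  exact ⟨k * (k - 1) / 2, by omega⟩

lemma cast4 {k l : ℤ} (h : (k - l) % 4 = 0) : (k : ZMod 4) = (l : ZMod 4) := by
  obtain ⟨m, hm⟩ : ∃ m, k = l + 4 * m := ⟨(k - l) / 4, by omega⟩
  rw [hm]
  push_cast
  linear_combination (m : ZMod 4) * four_zero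

lemma L_pi_im {p : ℕ} {c d c1 d1 : ℤ} (hc : c = 4 * c1 + 1) (hd : d = 4 * d1)
    (hcd : c ^ 2 + d ^ 2 = p) : L (⟨c, d⟩ : ZI) im1 = 2 * (c1 : ZMod 4) := by
  have hπ : Ev (⟨c, d⟩ : ZI) := ev_of (by show c % 2 = 1; omega) (by show d % 2 = 0; omega)
  rw [L_im hπ.od]
  have h3 : nrm (⟨c, d⟩ : ZI) = p := by
    have := nrm_cast (⟨c, d⟩ : ZI)
    rw [norm_def'] at this
    have h4 : ((nrm (⟨c, d⟩ : ZI) : ℕ) : ℤ) = p := by rw [this]; exact hcd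
    exact_mod_cast h4
  rw [h3]
  obtain ⟨r, hr⟩ : ∃ r, r = c1 ^ 2 + d1 ^ 2 := ⟨_, rfl⟩
  have h5 : (p : ℤ) = 4 * (4 * r + 2 * c1) + 1 := by rw [← hcd, hc, hd, hr]; ring
  have h6 : ((p / 4 : ℕ) : ℤ) = 4 * r + 2 * c1 := by omega
  have h7 := congrArg (Int.cast : ℤ → ZMod 4) h6
  rw [Int.cast_natCast] at h7
  rw [h7]
  push_cast
  linear_combination (r : ZMod 4) * four_zero

/-- the relation for `4 ∣ y` -/
lemma rel_o4 {a2 c1 d1 x1 y1 : ℤ}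
    (h : (4 * c1 + 1) ^ 2 + (4 * d1) ^ 2 = (4 * x1 + 1) ^ 2 + ((2 * a2 + 1) ^ 2 + 1 ^ 2) * (4 * y1) ^ 2) :
    ∃ e, x1 = c1 + 2 * e ∧ (e - (d1 ^ 2 + 2 * y1)) % 4 = 0 := by
  obtain ⟨t, ht⟩ : ∃ t, t = a2 * (a2 + 1) * y1 ^ 2 := ⟨_, rfl⟩
  obtain ⟨u, hu⟩ : ∃ u, u = c1 ^ 2 + d1 ^ 2 - x1 ^ 2 - 2 * y1 ^ 2 - 4 * t := ⟨_, rfl⟩
  have e1 : 2 * u + c1 = x1 := by
    rw [hu, ht]
    linarith
  obtain ⟨e, he⟩ : ∃ e, x1 = c1 + 2 * e := ⟨u, by omega⟩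
  refine ⟨e, he, ?_⟩
  rw [he] at h
  obtain ⟨v, hv⟩ : ∃ v, v = c1 * e + e ^ 2 := ⟨_, rfl⟩
  obtain ⟨w, hw⟩ : ∃ w, w = y1 * (y1 - 1) := ⟨_, rfl⟩
  have hw2 := Int.even_iff.1 (Int.even_mul_pred_self y1)
  rw [← hw] at hw2
  obtain ⟨z, hz⟩ : ∃ z, z = d1 ^ 2 := ⟨_, rfl⟩
  have e2 : z = 4 * v + e + 2 * (w + y1) + 4 * t := by
    rw [hz, hv, ht, hw]
    linarith
  rw [← hz]
  clear h hu ht hv hw hz
  omega

lemma fin_o4 {c1 d1 s : ℤ} (hs : s % 2 = 0 ↔ (d1 % 4 = 0 ∨ d1 % 4 = 1)) :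
    ((4 * c1 + 6 * d1 + 1) % 8 = 1 ∨ (4 * c1 + 6 * d1 + 1) % 8 = 7) ↔ (c1 + s) % 2 = 0 := by
  have h4 : d1 % 4 = 0 ∨ d1 % 4 = 1 ∨ d1 % 4 = 2 ∨ d1 % 4 = 3 := by omega
  rcases h4 with h4 | h4 | h4 | h4
  · have : s % 2 = 0 := hs.2 (Or.inl h4)
    clear hs
    omega
  · have : s % 2 = 0 := hs.2 (Or.inr h4)
    clear hs
    omega
  · have : ¬ s % 2 = 0 := fun h => by have := hs.1 h; omega
    clear hs
    omega
  · have : ¬ s % 2 = 0 := fun h => by have := hs.1 h; omega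
    clear hs
    omega

lemma fin_o4' {c1 d1 s : ℤ} (hs : s % 2 = 0 ↔ (d1 % 4 = 0 ∨ d1 % 4 = 1)) :
    ((4 * c1 + 2 * d1 + 1) % 8 = 1 ∨ (4 * c1 + 2 * d1 + 1) % 8 = 7) ↔ (c1 + s + d1) % 2 = 0 := by
  have h4 : d1 % 4 = 0 ∨ d1 % 4 = 1 ∨ d1 % 4 = 2 ∨ d1 % 4 = 3 := by omega
  rcases h4 with h4 | h4 | h4 | h4
  · have : s % 2 = 0 := hs.2 (Or.inl h4)
    clear hs
    omega
  · have : s % 2 = 0 := hs.2 (Or.inr h4)
    clear hs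
    omega
  · have : ¬ s % 2 = 0 := fun h => by have := hs.1 h; omega
    clear hs
    omega
  · have : ¬ s % 2 = 0 := fun h => by have := hs.1 h; omega
    clear hs
    omega

/-- residues, `4 ∣ y` -/
lemma res_o4 {a c d x y n Tr Ti c1 d1 x1 y1 e s z : ℤ} (hc1 : c = 4 * c1 + 1)
    (hx1 : x = 4 * x1 + 1) (hy1 : y = 4 * y1) (hd1 : d = 4 * d1) (hr : a = 1 ∨ a = 3)
    (hby : Tr % 16 = (4 * (4 * z + a * y1) - d) % 16) (he : x1 = c1 + 2 * e)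
    (hed : (e - d1) % 2 = 0)
    (hn : n % 32 = (c + x) % 32) 
    (hTi : Ti % 16 = (c + x + 1 * y) % 16) (hs : s % 2 = 0 ↔ (d1 % 4 = 0 ∨ d1 % 4 = 1)) :
    n = 2 * (n / 2) ∧ (n / 2) % 4 = 1 ∧ (((n / 2) % 8 = 1 ∨ (n / 2) % 8 = 7) ↔ (c1 + e) % 2 = 0) ∧
    ((n / 2 - 1) / 4 - (c1 + e)) % 4 = 0 ∧ Tr % 4 = 0 ∧ Ti % 4 = 2 ∧
    (a = 1 → (((Ti / 2 + -(Tr / 2)) % 8 = 1 ∨ (Ti / 2 + -(Tr / 2)) % 8 = 7) ↔ (c1 + s) % 2 = 0)) ∧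
    (a = 3 → (((Ti / 2 - -(Tr / 2)) % 8 = 1 ∨ (Ti / 2 - -(Tr / 2)) % 8 = 7) ↔
      (c1 + s + d1) % 2 = 0)) := by
  subst hc1 hx1 hy1 hd1 he
  refine ⟨?_, ?_, ?_, ?_, ?_, ?_, ?_, ?_⟩
  · omega
  · omega
  · omega
  · omega
  · rcases hr with rfl | rfl <;> omega
  · omega
  · rintro rfl
    have e1 : (Ti / 2 + -(Tr / 2)) % 8 = (4 * c1 + 6 * d1 + 1) % 8 := by
      obtain ⟨f, hf⟩ : ∃ f, e = d1 + 2 * f := ⟨(e - d1) / 2, by omega⟩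
      subst hf
      clear hs hed hn
      omega
    rw [e1]
    exact fin_o4 hs
  · rintro rfl
    have e1 : (Ti / 2 - -(Tr / 2)) % 8 = (4 * c1 + 2 * d1 + 1) % 8 := by
      obtain ⟨f, hf⟩ : ∃ f, e = d1 + 2 * f := ⟨(e - d1) / 2, by omega⟩
      subst hf
      clear hs hed hn
      omega
    rw [e1]
    exact fin_o4' hs

/-- `a ≡ 1 (mod 4)`, `4 ∣ y` -/
theorem chi_od1_y4 {p : ℕ} (hp : p.Prime) (h2 : p ≠ 2) {a c d x y : ℤ} (ha : a % 4 = 1)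
    (hc : c % 4 = 1) (hd : d % 4 = 0) (hx : x % 4 = 1) (hy : y % 4 = 0)
    (hcd : c ^ 2 + d ^ 2 = p)
    (hxy : x ^ 2 + (a ^ 2 + 1 ^ 2) * y ^ 2 = p) (hDp : a ^ 2 + 1 ^ 2 ≠ p) :
    L ⟨c, d⟩ (((a * y : ℤ) : ZI) + (x : ZI) * im1) = L ⟨c, d⟩ ((1 : ℤ) : ZI) + L ⟨c, d⟩ (y : ZI) +
      2 * (((d / 4 + y / 4 : ℤ)) : ZMod 4) := by
  have hc2 : c % 2 = 1 := by omega
  have hd2 : d % 2 = 0 := by omega
  obtain ⟨n, Tr, Ti, hn, hTr, hTi, H⟩ := master_p32 hp h2 (a := a) (h := 1) (Or.inl rfl) hc2 hd2 hcd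
    hxy hDp
  obtain ⟨a4, ha4⟩ : ∃ a4, a = 4 * a4 + 1 := ⟨a / 4, by omega⟩
  obtain ⟨c1, hc1⟩ : ∃ c1, c = 4 * c1 + 1 := ⟨c / 4, by omega⟩
  obtain ⟨x1, hx1⟩ : ∃ x1, x = 4 * x1 + 1 := ⟨x / 4, by omega⟩
  obtain ⟨y1, hy1⟩ : ∃ y1, y = 4 * y1 := ⟨y / 4, by omega⟩
  obtain ⟨d1, hd1⟩ : ∃ d1, d = 4 * d1 := ⟨d / 4, by omega⟩
  have hd4 : d / 4 = d1 := by omega
  have hy4 : y / 4 = y1 := by omega
  have hby : a * y - d = 4 * (4 * (a4 * y1) + 1 * y1) - d := by rw [ha4, hy1]; ring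
  rw [hby] at hTr
  obtain ⟨e, he, hed⟩ := rel_o4 (a2 := 2 * a4) (c1 := c1) (d1 := d1) (x1 := x1) (y1 := y1) (by
    rw [← hc1, ← hd1, ← hx1, ← hy1, show 2 * (2 * a4) + 1 = a by omega, hcd, hxy])
  obtain ⟨s, hs⟩ := exists_tri d1
  have hed2 : (e - d1) % 2 = 0 := by
    have : d1 ^ 2 = 2 * s + d1 := by linarith
    rw [this] at hed
    clear H
    omega
  obtain ⟨r0, r1, r2, r3, r4, r5, r6, -⟩ := res_o4 hc1 hx1 hy1 hd1 (Or.inl rfl) hTr he hed2 hn hTi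
    (tri hs)
  have r6 := r6 rfl
  have hπ : Ev (⟨c, d⟩ : ZI) := ev_of hc2 hd2
  have hθ1 : (a + 1) / 2 % 2 = 1 := by clear H; omega
  have hθ2 : (1 - a) / 2 % 2 = 0 := by clear H; omega
  have hθ : Ev (⟨(a + 1) / 2, (1 - a) / 2⟩ : ZI) := ev_of hθ1 hθ2
  have ti2 : Ti / 2 % 2 = 1 := by clear H; omega
  have tr2 : -(Tr / 2) % 2 = 0 := by clear H; omega
  have hT1 : Ev (⟨Ti / 2, -(Tr / 2)⟩ : ZI) := ev_of ti2 tr2
  have cw : ∀ β : ZI, Od β → IsCoprime β (2 * im1) := fun β hβ =>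
    (cop_two hβ).mul_right (cop_unit im1_norm β)
  have cw' : ∀ β : ZI, Od β → IsCoprime β oi := fun β hβ => cop_oi hβ
  have n2 : n / 2 % 2 = 1 := by clear H; omega
  have F := H 1 (n / 2) oi ⟨(a + 1) / 2, (1 - a) / 2⟩ (2 * im1) ⟨Ti / 2, -(Tr / 2)⟩
    (by rw [pow_one]; exact r0) n2
    (by
      have : oi = ⟨1, 1⟩ := by decide
      rw [this, re_im_mul]
      clear H
      ext
      · show a = _; simp only; omega
      · show (1 : ℤ) = _; simp only; omega) hθ (by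
      have : (2 : ZI) * im1 = ⟨0, 2⟩ := by decide
      rw [this, re_im_mul]
      clear H
      ext
      · show Tr = _; simp only; omega
      · show Ti = _; simp only; omega) hT1 cw cw'
  clear H
  have odn : Od ((n / 2 : ℤ) : ZI) := od_int.2 n2
  have hy0 : y ≠ 0 := by
    rintro rfl
    have h3 : x ^ 2 = p := by linarith
    exact (Nat.prime_iff_prime_int.1 hp).irreducible.not_isSquare ⟨x, by rw [← h3, sq]⟩
  have e2i : (2 : ZI) * im1 = oi ^ (2 * 1) := by decide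
  have w1 := two_L_sq hπ.od (cop_oi hπ.od) 1
  have w2 := two_L_sq hθ.od (cop_oi hθ.od) 1
  have w3 := two_L_sq odn (cop_oi odn) 1
  have e4 : (-(2 ^ 1 * ((1 : ℤ) : ZI) * oi * im1) : ZI) = (star oi) ^ (2 * 1) * oi := by decide
  have w4 := two_L_sq hT1.od (cop_oi' hT1.od) 1
  have k1 := two_oi ti2 tr2
  rw [if_par r6] at k1
  have k4 := L_pi_oi hp hc1 hd1 hcd
  have k4' := L_pi_im hc1 hd1 hcd
  have k5 := L_two hπ.od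
  have e5 : (2 * ((1 : ℤ) : ZI) : ZI) = 2 := by decide
  have hn4 : s4 (n / 2) * (n / 2) = 4 * ((n / 2 - 1) / 4) + 1 := by
    unfold s4
    rw [if_pos r1]
    omega
  have k6 := L_int_oi n2
  rw [so_eq hn4, cast4 r3] at k6
  have k9 := cast4 hed
  have k10 := congrArg (Int.cast : ℤ → ZMod 4) hs
  have hDpos : 0 < a ^ 2 + 1 ^ 2 := by positivity
  have hLy : 2 * L (⟨c, d⟩ : ZI) (y : ZI) = 0 := by
    obtain ⟨k, y0, hk, hk2⟩ := int_two_pow hy0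
    rw [two_L_y hp hc2 hd2 hcd hxy hDpos hk hk2, if_pos hd, mul_zero]
  have k7 : ls (s2 (n / 2) (⟨(a + 1) / 2, (1 - a) / 2⟩ : ZI).im) = 0 := by
    rw [ls_s2, if_pos (Or.inl r1)]
  have k8 : ls (sg ⟨(a + 1) / 2, (1 - a) / 2⟩ ⟨c, d⟩) = 0 := by
    rw [ls_sg', if_pos hd, if_pos (show (c + d) % 4 = 1 by omega)]
    split_ifs <;> rfl
  rw [L_neg_four hθ.od, e2i, e4, L_mul hT1.od (cop_oi' hT1.od).pow_right (cop_oi hT1.od), e5, k5,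
    k6, k7, k8, k4, k4'] at F
  rw [F, hd4, hy4]
  have f4 := four_zero
  push_cast at k1 k9 k10 ⊢
  linear_combination hLy + w1 + w2 + w3 + w4 + k1 - k9 - k10 -
    (2 * (c1 : ZMod 4) + (y1 : ZMod 4)) * f4

/-- `a ≡ 3 (mod 4)`, `4 ∣ y` -/
theorem chi_od3_y4 {p : ℕ} (hp : p.Prime) (h2 : p ≠ 2) {a c d x y : ℤ} (ha : a % 4 = 3)
    (hc : c % 4 = 1) (hd : d % 4 = 0) (hx : x % 4 = 1) (hy : y % 4 = 0)
    (hcd : c ^ 2 + d ^ 2 = p)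
    (hxy : x ^ 2 + (a ^ 2 + 1 ^ 2) * y ^ 2 = p) (hDp : a ^ 2 + 1 ^ 2 ≠ p) :
    L ⟨c, d⟩ (((a * y : ℤ) : ZI) + (x : ZI) * im1) = L ⟨c, d⟩ ((1 : ℤ) : ZI) + L ⟨c, d⟩ (y : ZI) +
      2 * (((d / 4 + y / 4 : ℤ)) : ZMod 4) := by
  have hc2 : c % 2 = 1 := by omega
  have hd2 : d % 2 = 0 := by omega
  obtain ⟨n, Tr, Ti, hn, hTr, hTi, H⟩ := master_p32 hp h2 (a := a) (h := 1) (Or.inl rfl) hc2 hd2 hcd
    hxy hDp
  obtain ⟨a4, ha4⟩ : ∃ a4, a = 4 * a4 + 3 := ⟨a / 4, by omega⟩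
  obtain ⟨c1, hc1⟩ : ∃ c1, c = 4 * c1 + 1 := ⟨c / 4, by omega⟩
  obtain ⟨x1, hx1⟩ : ∃ x1, x = 4 * x1 + 1 := ⟨x / 4, by omega⟩
  obtain ⟨y1, hy1⟩ : ∃ y1, y = 4 * y1 := ⟨y / 4, by omega⟩
  obtain ⟨d1, hd1⟩ : ∃ d1, d = 4 * d1 := ⟨d / 4, by omega⟩
  have hd4 : d / 4 = d1 := by omega
  have hy4 : y / 4 = y1 := by omega
  have hby : a * y - d = 4 * (4 * (a4 * y1) + 3 * y1) - d := by rw [ha4, hy1]; ring
  rw [hby] at hTr
  obtain ⟨e, he, hed⟩ := rel_o4 (a2 := 2 * a4 + 1) (c1 := c1) (d1 := d1) (x1 := x1) (y1 := y1) (by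
    rw [← hc1, ← hd1, ← hx1, ← hy1, show 2 * (2 * a4 + 1) + 1 = a by omega, hcd, hxy])
  obtain ⟨s, hs⟩ := exists_tri d1
  have hed2 : (e - d1) % 2 = 0 := by
    have : d1 ^ 2 = 2 * s + d1 := by linarith
    rw [this] at hed
    clear H
    omega
  obtain ⟨r0, r1, r2, r3, r4, r5, -, r6⟩ := res_o4 hc1 hx1 hy1 hd1 (Or.inr rfl) hTr he hed2 hn hTi
    (tri hs)
  have r6 := r6 rfl
  have hπ : Ev (⟨c, d⟩ : ZI) := ev_of hc2 hd2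
  have hθ1 : (a - 1) / 2 % 2 = 1 := by clear H; omega
  have hθ2 : (a + 1) / 2 % 2 = 0 := by clear H; omega
  have hθ : Ev (⟨(a - 1) / 2, (a + 1) / 2⟩ : ZI) := ev_of hθ1 hθ2
  have ti2 : Ti / 2 % 2 = 1 := by clear H; omega
  have tr2 : -(Tr / 2) % 2 = 0 := by clear H; omega
  have hT1 : Ev (⟨Ti / 2, -(Tr / 2)⟩ : ZI) := ev_of ti2 tr2
  have cw : ∀ β : ZI, Od β → IsCoprime β (2 * im1) := fun β hβ =>
    (cop_two hβ).mul_right (cop_unit im1_norm β)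
  have cw' : ∀ β : ZI, Od β → IsCoprime β (star oi) := fun β hβ => cop_oi' hβ
  have n2 : n / 2 % 2 = 1 := by clear H; omega
  have F := H 1 (n / 2) (star oi) ⟨(a - 1) / 2, (a + 1) / 2⟩ (2 * im1) ⟨Ti / 2, -(Tr / 2)⟩
    (by rw [pow_one]; exact r0) n2
    (by
      have : star oi = ⟨1, -1⟩ := by decide
      rw [this, re_im_mul]
      clear H
      ext
      · show a = _; simp only; omega
      · show (1 : ℤ) = _; simp only; omega) hθ (by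
      have : (2 : ZI) * im1 = ⟨0, 2⟩ := by decide
      rw [this, re_im_mul]
      clear H
      ext
      · show Tr = _; simp only; omega
      · show Ti = _; simp only; omega) hT1 cw cw'
  clear H
  have odn : Od ((n / 2 : ℤ) : ZI) := od_int.2 n2
  have hy0 : y ≠ 0 := by
    rintro rfl
    have h3 : x ^ 2 = p := by linarith
    exact (Nat.prime_iff_prime_int.1 hp).irreducible.not_isSquare ⟨x, by rw [← h3, sq]⟩
  have e2i : (2 : ZI) * im1 = oi ^ (2 * 1) := by decide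
  have w1 := two_L_sq hπ.od (cop_oi hπ.od) 1
  have w2 := two_L_sq hθ.od (cop_oi hθ.od) 1
  have w3 := two_L_sq odn (cop_oi odn) 1
  have e4 : (-(2 ^ 1 * ((1 : ℤ) : ZI) * star oi * im1) : ZI) = (star oi) ^ (2 * 1) * star oi := by decide
  have w4 := two_L_sq hT1.od (cop_oi' hT1.od) 1
  have k1 := two_oi' ti2 tr2
  rw [if_par r6] at k1
  have k4 := L_pi_oi hp hc1 hd1 hcd
  have k4' := L_pi_im hc1 hd1 hcd
  have k5 := L_two hπ.od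
  have e5 : (2 * ((1 : ℤ) : ZI) : ZI) = 2 := by decide
  have hn4 : s4 (n / 2) * (n / 2) = 4 * ((n / 2 - 1) / 4) + 1 := by
    unfold s4
    rw [if_pos r1]
    omega
  have k6 := L_int_oi n2
  rw [so_eq hn4, cast4 r3] at k6
  have k6' := L_int_im n2
  rw [if_par r2] at k6'
  have k9 := cast4 hed
  have k10 := congrArg (Int.cast : ℤ → ZMod 4) hs
  have hDpos : 0 < a ^ 2 + 1 ^ 2 := by positivity
  have hLy : 2 * L (⟨c, d⟩ : ZI) (y : ZI) = 0 := by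
    obtain ⟨k, y0, hk, hk2⟩ := int_two_pow hy0
    rw [two_L_y hp hc2 hd2 hcd hxy hDpos hk hk2, if_pos hd, mul_zero]
  have k7 : ls (s2 (n / 2) (⟨(a - 1) / 2, (a + 1) / 2⟩ : ZI).im) = 0 := by
    rw [ls_s2, if_pos (Or.inl r1)]
  have k8 : ls (sg ⟨(a - 1) / 2, (a + 1) / 2⟩ ⟨c, d⟩) = 0 := by
    rw [ls_sg', if_pos hd, if_pos (show (c + d) % 4 = 1 by omega)]
    split_ifs <;> rfl
  rw [L_neg_four hθ.od, e2i, e4, L_mul hT1.od (cop_oi' hT1.od).pow_right (cop_oi' hT1.od), e5, k5,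
    L_star_oi odn, L_star_oi hπ.od, k6, k6', k7, k8, k4, k4'] at F
  rw [F, hd4, hy4]
  have f4 := four_zero
  push_cast at k1 k9 k10 ⊢
  linear_combination hLy + w1 + w2 + w3 + w4 + k1 - 7 * k9 - 3 * k10 -
    (5 * (c1 : ZMod 4) + 4 * (y1 : ZMod 4) + (d1 : ZMod 4) ^ 2 + (s : ZMod 4)) * f4

/-- the relation for `2 ∥ y` -/
lemma rel_o2 {a2 c1 d1 x1 y1 : ℤ}
    (h : (4 * c1 + 1) ^ 2 + (4 * d1) ^ 2 =
      (4 * x1 + 1) ^ 2 + ((2 * a2 + 1) ^ 2 + 1 ^ 2) * (8 * y1 + 2) ^ 2) :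
    ∃ e, x1 = c1 + 2 * e - 1 ∧ (e - (2 * c1 - 1 + d1 ^ 2 - a2 * (a2 + 1))) % 4 = 0 := by
  obtain ⟨t, ht⟩ : ∃ t, t = a2 * (a2 + 1) := ⟨_, rfl⟩
  obtain ⟨Y, hY⟩ : ∃ Y, Y = 2 * y1 ^ 2 + y1 := ⟨_, rfl⟩
  obtain ⟨u, hu⟩ : ∃ u, u = c1 ^ 2 + d1 ^ 2 - x1 ^ 2 - 8 * t * Y - 4 * Y - t := ⟨_, rfl⟩
  have e1 : 2 * u + c1 = x1 + 1 := by
    rw [hu, ht, hY]
    linarith
  obtain ⟨e, he⟩ : ∃ e, x1 = c1 + 2 * e - 1 := ⟨u, by omega⟩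
  refine ⟨e, he, ?_⟩
  rw [he] at h
  obtain ⟨v, hv⟩ : ∃ v, v = -(c1 * e) - e ^ 2 + e - 2 * t * Y - Y := ⟨_, rfl⟩
  obtain ⟨z, hz⟩ : ∃ z, z = d1 ^ 2 := ⟨_, rfl⟩
  have e2 : 4 * v + 2 * c1 - 1 - e + z - t = 0 := by
    rw [hz, hv, ht, hY]
    linarith
  rw [← hz, ← ht]
  clear h hu ht hv hz hY
  omega

lemma fin_o2 {a4 c1 d1 s : ℤ} (hs : s % 2 = 0 ↔ (d1 % 4 = 0 ∨ d1 % 4 = 1)) :
    ((5 + 4 * a4 + 4 * c1 + 2 * d1) % 8 = 1 ∨ (5 + 4 * a4 + 4 * c1 + 2 * d1) % 8 = 7) ↔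
      (a4 + c1 + 1 + s + d1) % 2 = 0 := by
  have h4 : d1 % 4 = 0 ∨ d1 % 4 = 1 ∨ d1 % 4 = 2 ∨ d1 % 4 = 3 := by omega
  rcases h4 with h4 | h4 | h4 | h4
  · have : s % 2 = 0 := hs.2 (Or.inl h4)
    clear hs
    omega
  · have : s % 2 = 0 := hs.2 (Or.inr h4)
    clear hs
    omega
  · have : ¬ s % 2 = 0 := fun h => by have := hs.1 h; omega
    clear hs
    omega
  · have : ¬ s % 2 = 0 := fun h => by have := hs.1 h; omega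
    clear hs
    omega

lemma fin_o2' {a4 c1 d1 s : ℤ} (hs : s % 2 = 0 ↔ (d1 % 4 = 0 ∨ d1 % 4 = 1)) :
    ((7 + 4 * a4 + 4 * c1 + 2 * d1) % 8 = 1 ∨ (7 + 4 * a4 + 4 * c1 + 2 * d1) % 8 = 7) ↔
      (a4 + c1 + s) % 2 = 0 := by
  have h4 : d1 % 4 = 0 ∨ d1 % 4 = 1 ∨ d1 % 4 = 2 ∨ d1 % 4 = 3 := by omega
  rcases h4 with h4 | h4 | h4 | h4
  · have : s % 2 = 0 := hs.2 (Or.inl h4)
    clear hs
    omega
  · have : s % 2 = 0 := hs.2 (Or.inr h4)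
    clear hs
    omega
  · have : ¬ s % 2 = 0 := fun h => by have := hs.1 h; omega
    clear hs
    omega
  · have : ¬ s % 2 = 0 := fun h => by have := hs.1 h; omega
    clear hs
    omega

/-- residues, `2 ∥ y` -/
lemma res_o2 {r c d x y n Tr Ti a4 c1 d1 x1 y1 e s z : ℤ} (hc1 : c = 4 * c1 + 1)
    (hx1 : x = 4 * x1 + 1) (hy1 : y = 8 * y1 + 2) (hd1 : d = 4 * d1) (hr : r = 1 ∨ r = 3)
    (hby : Tr % 16 = (32 * z + 8 * a4 + 8 * (r * y1) + 2 * r - d) % 16)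
    (he : x1 = c1 + 2 * e - 1)
    (hed : (e - (d1 + 1)) % 2 = 0)
    (hn : n % 32 = (c + x) % 32)
    (hTi : Ti % 16 = (c + x + 1 * y) % 16) (hs : s % 2 = 0 ↔ (d1 % 4 = 0 ∨ d1 % 4 = 1)) :
    n = 2 * (n / 2) ∧ (n / 2) % 4 = 3 ∧ (((n / 2) % 8 = 1 ∨ (n / 2) % 8 = 7) ↔ (c1 + e) % 2 = 0) ∧
    ((-(n / 2) - 1) / 4 - (-(c1 + e))) % 4 = 0 ∧ Tr % 4 = 2 ∧ Ti % 4 = 0 ∧
    (r = 1 → (((Tr / 2 + Ti / 2) % 8 = 1 ∨ (Tr / 2 + Ti / 2) % 8 = 7) ↔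
      (a4 + c1 + 1 + s + d1) % 2 = 0)) ∧
    (r = 3 → (((Tr / 2 - Ti / 2) % 8 = 1 ∨ (Tr / 2 - Ti / 2) % 8 = 7) ↔
      (a4 + c1 + s) % 2 = 0)) := by
  subst hc1 hx1 hy1 hd1 he
  refine ⟨?_, ?_, ?_, ?_, ?_, ?_, ?_, ?_⟩
  · omega
  · omega
  · omega
  · omega
  · rcases hr with rfl | rfl <;> omega
  · omega
  · rintro rfl
    have e1 : (Tr / 2 + Ti / 2) % 8 = (5 + 4 * a4 + 4 * c1 + 2 * d1) % 8 := by
      obtain ⟨f, hf⟩ : ∃ f, e = d1 + 1 + 2 * f := ⟨(e - (d1 + 1)) / 2, by omega⟩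
      subst hf
      clear hs hed hn
      omega
    rw [e1]
    exact fin_o2 hs
  · rintro rfl
    have e1 : (Tr / 2 - Ti / 2) % 8 = (7 + 4 * a4 + 4 * c1 + 2 * d1) % 8 := by
      obtain ⟨f, hf⟩ : ∃ f, e = d1 + 1 + 2 * f := ⟨(e - (d1 + 1)) / 2, by omega⟩
      subst hf
      clear hs hed hn
      omega
    rw [e1]
    exact fin_o2' hs

/-- `a ≡ 1 (mod 4)`, `2 ∥ y` -/
theorem chi_od1_y2 {p : ℕ} (hp : p.Prime) (h2 : p ≠ 2) {a c d x y : ℤ} (ha : a % 4 = 1)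
    (hc : c % 4 = 1) (hd : d % 4 = 0) (hx : x % 4 = 1) (hy : y % 8 = 2)
    (hcd : c ^ 2 + d ^ 2 = p)
    (hxy : x ^ 2 + (a ^ 2 + 1 ^ 2) * y ^ 2 = p) (hDp : a ^ 2 + 1 ^ 2 ≠ p) :
    L ⟨c, d⟩ (((a * y : ℤ) : ZI) + (x : ZI) * im1) = L ⟨c, d⟩ ((1 : ℤ) : ZI) + L ⟨c, d⟩ (y : ZI) +
      (1 + 2 * ((((a - 1) / 2 + d / 4 : ℤ)) : ZMod 4)) := by
  have hc2 : c % 2 = 1 := by omega
  have hd2 : d % 2 = 0 := by omega
  obtain ⟨n, Tr, Ti, hn, hTr, hTi, H⟩ := master_p32 hp h2 (a := a) (h := 1) (Or.inl rfl) hc2 hd2 hcd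
    hxy hDp
  obtain ⟨a4, ha4⟩ : ∃ a4, a = 4 * a4 + 1 := ⟨a / 4, by omega⟩
  obtain ⟨c1, hc1⟩ : ∃ c1, c = 4 * c1 + 1 := ⟨c / 4, by omega⟩
  obtain ⟨x1, hx1⟩ : ∃ x1, x = 4 * x1 + 1 := ⟨x / 4, by omega⟩
  obtain ⟨y1, hy1⟩ : ∃ y1, y = 8 * y1 + 2 := ⟨y / 8, by omega⟩
  obtain ⟨d1, hd1⟩ : ∃ d1, d = 4 * d1 := ⟨d / 4, by omega⟩
  have hd4 : d / 4 = d1 := by omega
  have ha2 : (a - 1) / 2 = 2 * a4 := by omega
  have hby : a * y - d = 32 * (a4 * y1) + 8 * a4 + 8 * (1 * y1) + 2 * 1 - d := by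
    rw [ha4, hy1]; ring
  rw [hby] at hTr
  obtain ⟨e, he, hed⟩ := rel_o2 (a2 := 2 * a4) (c1 := c1) (d1 := d1) (x1 := x1) (y1 := y1) (by
    rw [← hc1, ← hd1, ← hx1, ← hy1, show 2 * (2 * a4) + 1 = a by omega, hcd, hxy])
  obtain ⟨s, hs⟩ := exists_tri d1
  have hed2 : (e - (d1 + 1)) % 2 = 0 := by
    have e0 : d1 ^ 2 = 2 * s + d1 := by linarith
    have e1 : 2 * a4 * (2 * a4 + 1) = 2 * (a4 * (2 * a4 + 1)) := by ring
    rw [e0, e1] at hed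
    clear H
    omega
  obtain ⟨r0, r1, r2, r3, r4, r5, r6, -⟩ := res_o2 hc1 hx1 hy1 hd1 (Or.inl rfl) hTr he hed2 hn hTi
    (tri hs)
  have r6 := r6 rfl
  have hπ : Ev (⟨c, d⟩ : ZI) := ev_of hc2 hd2
  have hθ1 : (a + 1) / 2 % 2 = 1 := by clear H; omega
  have hθ2 : (1 - a) / 2 % 2 = 0 := by clear H; omega
  have hθ4 : (1 - a) / 2 % 4 = 0 ↔ a4 % 2 = 0 := by clear H; omega
  have hθ : Ev (⟨(a + 1) / 2, (1 - a) / 2⟩ : ZI) := ev_of hθ1 hθ2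
  have ti2 : Ti / 2 % 2 = 0 := by clear H; omega
  have tr2 : Tr / 2 % 2 = 1 := by clear H; omega
  have hT1 : Ev (⟨Tr / 2, Ti / 2⟩ : ZI) := ev_of tr2 ti2
  have cw : ∀ β : ZI, Od β → IsCoprime β 2 := fun β hβ => cop_two hβ
  have cw' : ∀ β : ZI, Od β → IsCoprime β oi := fun β hβ => cop_oi hβ
  have n2 : n / 2 % 2 = 1 := by clear H; omega
  have F := H 1 (n / 2) oi ⟨(a + 1) / 2, (1 - a) / 2⟩ 2 ⟨Tr / 2, Ti / 2⟩
    (by rw [pow_one]; exact r0) n2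
    (by
      have : oi = ⟨1, 1⟩ := by decide
      rw [this, re_im_mul]
      clear H
      ext
      · show a = _; simp only; omega
      · show (1 : ℤ) = _; simp only; omega) hθ (by
      have : (2 : ZI) = ⟨2, 0⟩ := by decide
      rw [this, re_im_mul]
      clear H
      ext
      · show Tr = _; simp only; omega
      · show Ti = _; simp only; omega) hT1 cw cw'
  clear H
  have odn : Od ((n / 2 : ℤ) : ZI) := od_int.2 n2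
  have e4 : (-(2 ^ 1 * ((1 : ℤ) : ZI) * oi * im1) : ZI) = (star oi) ^ (2 * 1) * oi := by decide
  have w4 := two_L_sq hT1.od (cop_oi' hT1.od) 1
  have k1 := two_oi tr2 ti2
  rw [if_par r6] at k1
  have k4 := L_pi_oi hp hc1 hd1 hcd
  have k4' := L_pi_im hc1 hd1 hcd
  have k5 := L_two hπ.od
  have e5 : (2 * ((1 : ℤ) : ZI) : ZI) = 2 := by decide
  have hn4 : s4 (n / 2) * (n / 2) = 4 * ((-(n / 2) - 1) / 4) + 1 := by
    unfold s4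
    rw [if_neg (by omega)]
    omega
  have k6 := L_int_oi n2
  rw [so_eq hn4, cast4 r3] at k6
  have k6' := L_int_im n2
  rw [if_par r2] at k6'
  have k9 := cast4 hed
  have k10 := congrArg (Int.cast : ℤ → ZMod 4) hs
  have hDpos : 0 < a ^ 2 + 1 ^ 2 := by positivity
  have hLy : 2 * L (⟨c, d⟩ : ZI) (y : ZI) = 0 := by
    rw [two_L_y hp hc2 hd2 hcd hxy hDpos (k := 1) (y0 := y / 2) (by omega) (by omega), if_pos hd,
      mul_zero]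
  have k7 : ls (s2 (n / 2) (⟨(a + 1) / 2, (1 - a) / 2⟩ : ZI).im) = 2 * (a4 : ZMod 4) := by
    rw [ls_s2]
    have : (n / 2 % 4 = 1 ∨ (⟨(a + 1) / 2, (1 - a) / 2⟩ : ZI).im % 4 = 0) ↔ a4 % 2 = 0 := by
      rw [← hθ4]
      constructor
      · rintro (h | h)
        · omega
        · exact h
      · intro h; right; exact h
    rw [if_par this]
  have k8 : ls (sg ⟨(a + 1) / 2, (1 - a) / 2⟩ ⟨c, d⟩) = 0 := by
    rw [ls_sg', if_pos hd, if_pos (show (c + d) % 4 = 1 by omega)]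
    split_ifs <;> rfl
  have k11 := two_L_two hθ.od
  have k12 := two_im hθ1 hθ2
  rw [if_par hθ4] at k12
  have k13 := two_L_two odn
  rw [k6'] at k13
  rw [L_neg_four hθ.od, e4, L_mul hT1.od (cop_oi' hT1.od).pow_right (cop_oi hT1.od), e5, k5,
    k6, k7, k8, k4, k4'] at F
  rw [hd4, ha2, F]
  have f4 := four_zero
  push_cast at k1 k9 k10 k13 ⊢
  linear_combination hLy + w4 + k1 + k11 + k12 + k13 + 5 * k9 + 5 * k10 +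
    (-2 * (a4 : ZMod 4) + 6 * (c1 : ZMod 4) - 1 + (d1 : ZMod 4) + 3 * (s : ZMod 4) -
      5 * (a4 : ZMod 4) ^ 2) * f4

/-- `a ≡ 3 (mod 4)`, `2 ∥ y` -/
theorem chi_od3_y2 {p : ℕ} (hp : p.Prime) (h2 : p ≠ 2) {a c d x y : ℤ} (ha : a % 4 = 3)
    (hc : c % 4 = 1) (hd : d % 4 = 0) (hx : x % 4 = 1) (hy : y % 8 = 2)
    (hcd : c ^ 2 + d ^ 2 = p)
    (hxy : x ^ 2 + (a ^ 2 + 1 ^ 2) * y ^ 2 = p) (hDp : a ^ 2 + 1 ^ 2 ≠ p) :
    L ⟨c, d⟩ (((a * y : ℤ) : ZI) + (x : ZI) * im1) = L ⟨c, d⟩ ((1 : ℤ) : ZI) + L ⟨c, d⟩ (y : ZI) +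
      (1 + 2 * ((((a - 1) / 2 + d / 4 : ℤ)) : ZMod 4)) := by
  have hc2 : c % 2 = 1 := by omega
  have hd2 : d % 2 = 0 := by omega
  obtain ⟨n, Tr, Ti, hn, hTr, hTi, H⟩ := master_p32 hp h2 (a := a) (h := 1) (Or.inl rfl) hc2 hd2 hcd
    hxy hDp
  obtain ⟨a4, ha4⟩ : ∃ a4, a = 4 * a4 + 3 := ⟨a / 4, by omega⟩
  obtain ⟨c1, hc1⟩ : ∃ c1, c = 4 * c1 + 1 := ⟨c / 4, by omega⟩
  obtain ⟨x1, hx1⟩ : ∃ x1, x = 4 * x1 + 1 := ⟨x / 4, by omega⟩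
  obtain ⟨y1, hy1⟩ : ∃ y1, y = 8 * y1 + 2 := ⟨y / 8, by omega⟩
  obtain ⟨d1, hd1⟩ : ∃ d1, d = 4 * d1 := ⟨d / 4, by omega⟩
  have hd4 : d / 4 = d1 := by omega
  have ha2 : (a - 1) / 2 = 2 * a4 + 1 := by omega
  have hby : a * y - d = 32 * (a4 * y1) + 8 * a4 + 8 * (3 * y1) + 2 * 3 - d := by
    rw [ha4, hy1]; ring
  rw [hby] at hTr
  obtain ⟨e, he, hed⟩ := rel_o2 (a2 := 2 * a4 + 1) (c1 := c1) (d1 := d1) (x1 := x1) (y1 := y1) (by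
    rw [← hc1, ← hd1, ← hx1, ← hy1, show 2 * (2 * a4 + 1) + 1 = a by omega, hcd, hxy])
  obtain ⟨s, hs⟩ := exists_tri d1
  have hed2 : (e - (d1 + 1)) % 2 = 0 := by
    have e0 : d1 ^ 2 = 2 * s + d1 := by linarith
    have e1 : (2 * a4 + 1) * (2 * a4 + 1 + 1) = 2 * ((2 * a4 + 1) * (a4 + 1)) := by ring
    rw [e0, e1] at hed
    clear H
    omega
  obtain ⟨r0, r1, r2, r3, r4, r5, -, r6⟩ := res_o2 hc1 hx1 hy1 hd1 (Or.inr rfl) hTr he hed2 hn hTi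
    (tri hs)
  have r6 := r6 rfl
  have hπ : Ev (⟨c, d⟩ : ZI) := ev_of hc2 hd2
  have hθ1 : (a - 1) / 2 % 2 = 1 := by clear H; omega
  have hθ2 : (a + 1) / 2 % 2 = 0 := by clear H; omega
  have hθ4 : (a + 1) / 2 % 4 = 0 ↔ (a4 + 1) % 2 = 0 := by clear H; omega
  have hθ : Ev (⟨(a - 1) / 2, (a + 1) / 2⟩ : ZI) := ev_of hθ1 hθ2
  have ti2 : Ti / 2 % 2 = 0 := by clear H; omega
  have tr2 : Tr / 2 % 2 = 1 := by clear H; omega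
  have hT1 : Ev (⟨Tr / 2, Ti / 2⟩ : ZI) := ev_of tr2 ti2
  have cw : ∀ β : ZI, Od β → IsCoprime β 2 := fun β hβ => cop_two hβ
  have cw' : ∀ β : ZI, Od β → IsCoprime β (star oi) := fun β hβ => cop_oi' hβ
  have n2 : n / 2 % 2 = 1 := by clear H; omega
  have F := H 1 (n / 2) (star oi) ⟨(a - 1) / 2, (a + 1) / 2⟩ 2 ⟨Tr / 2, Ti / 2⟩
    (by rw [pow_one]; exact r0) n2
    (by
      have : star oi = ⟨1, -1⟩ := by decide
      rw [this, re_im_mul]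
      clear H
      ext
      · show a = _; simp only; omega
      · show (1 : ℤ) = _; simp only; omega) hθ (by
      have : (2 : ZI) = ⟨2, 0⟩ := by decide
      rw [this, re_im_mul]
      clear H
      ext
      · show Tr = _; simp only; omega
      · show Ti = _; simp only; omega) hT1 cw cw'
  clear H
  have odn : Od ((n / 2 : ℤ) : ZI) := od_int.2 n2
  have e4 : (-(2 ^ 1 * ((1 : ℤ) : ZI) * star oi * im1) : ZI) = (star oi) ^ (2 * 1) * star oi := by decide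
  have w4 := two_L_sq hT1.od (cop_oi' hT1.od) 1
  have k1 := two_oi' tr2 ti2
  rw [if_par r6] at k1
  have k4 := L_pi_oi hp hc1 hd1 hcd
  have k4' := L_pi_im hc1 hd1 hcd
  have k5 := L_two hπ.od
  have e5 : (2 * ((1 : ℤ) : ZI) : ZI) = 2 := by decide
  have hn4 : s4 (n / 2) * (n / 2) = 4 * ((-(n / 2) - 1) / 4) + 1 := by
    unfold s4
    rw [if_neg (by omega)]
    omega
  have k6 := L_int_oi n2
  rw [so_eq hn4, cast4 r3] at k6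
  have k6' := L_int_im n2
  rw [if_par r2] at k6'
  have k9 := cast4 hed
  have k10 := congrArg (Int.cast : ℤ → ZMod 4) hs
  have hDpos : 0 < a ^ 2 + 1 ^ 2 := by positivity
  have hLy : 2 * L (⟨c, d⟩ : ZI) (y : ZI) = 0 := by
    rw [two_L_y hp hc2 hd2 hcd hxy hDpos (k := 1) (y0 := y / 2) (by omega) (by omega), if_pos hd,
      mul_zero]
  have k7 : ls (s2 (n / 2) (⟨(a - 1) / 2, (a + 1) / 2⟩ : ZI).im) = 2 * ((a4 + 1 : ℤ) : ZMod 4) := by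
    rw [ls_s2]
    have : (n / 2 % 4 = 1 ∨ (⟨(a - 1) / 2, (a + 1) / 2⟩ : ZI).im % 4 = 0) ↔ (a4 + 1) % 2 = 0 := by
      rw [← hθ4]
      constructor
      · rintro (h | h)
        · omega
        · exact h
      · intro h; right; exact h
    rw [if_par this]
  have k8 : ls (sg ⟨(a - 1) / 2, (a + 1) / 2⟩ ⟨c, d⟩) = 0 := by
    rw [ls_sg', if_pos hd, if_pos (show (c + d) % 4 = 1 by omega)]
    split_ifs <;> rfl
  have k11 := two_L_two hθ.od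
  have k12 := two_im hθ1 hθ2
  rw [if_par hθ4] at k12
  have k13 := two_L_two odn
  rw [k6'] at k13
  rw [L_neg_four hθ.od, e4, L_mul hT1.od (cop_oi' hT1.od).pow_right (cop_oi' hT1.od), e5, k5,
    L_star_oi odn, L_star_oi hπ.od, k6, k6', k7, k8, k4, k4'] at F
  rw [hd4, ha2, F]
  have f4 := four_zero
  push_cast at k1 k9 k10 k12 k13 ⊢
  linear_combination hLy + w4 + k1 + k11 + k12 + k13 - k9 - k10 +
    ((a4 : ZMod 4) + 1 - (d1 : ZMod 4) + (a4 : ZMod 4) + (a4 : ZMod 4) ^ 2) * f4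

end Pool.Agent.R441.Q4
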